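import Pool.Agent.T6.H92.TG.Defs

/-!
# Counting upwards with observables; iterated differences of products
-/

set_option autoImplicit false

namespace Pool.Agent.T6.H92.TG

open Finset
open scoped Classical

noncomputable section

/-! ### Differences -/

theorem D_succ (k : ℕ) (u : ℕ → ℝ) (l : ℕ) : D (k + 1) u l = D k u (l + 1) - D k u l := rfl

theorem D_succ' (k : ℕ) : ∀ (u : ℕ → ℝ) (l : ℕ), D (k + 1) u l = D k (fun i => u (i + 1) - u i) l := by
  induction k with
  | zero => intro u l; rfl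
  | succ k ih =>
    intro u l
    rw [D_succ, D_succ k (fun i => u (i + 1) - u i), ih, ih]

theorem D_shift (k : ℕ) (u : ℕ → ℝ) (m : ℕ) : ∀ l, D k (fun i => u (m + i)) l = D k u (m + l) := by
  induction k with
  | zero => intro l; rfl
  | succ k ih =>
    intro l
    rw [D_succ, D_succ, ih, ih]
    rfl

theorem D_add (k : ℕ) (u v : ℕ → ℝ) : ∀ l, D k (fun i => u i + v i) l = D k u l + D k v l := by
  induction k with
  | zero => intro l; rfl
  | succ k ih =>
    intro l
    rw [D_succ, D_succ, D_succ, ih, ih]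
    ring

theorem D_mul (k : ℕ) (c : ℝ) (u : ℕ → ℝ) : ∀ l, D k (fun i => c * u i) l = c * D k u l := by
  induction k with
  | zero => intro l; rfl
  | succ k ih =>
    intro l
    rw [D_succ, D_succ, ih, ih]
    ring

theorem D_sum {β : Type} (s : Finset β) (k : ℕ) (u : β → ℕ → ℝ) :
    ∀ l, D k (fun i => ∑ x ∈ s, u x i) l = ∑ x ∈ s, D k (u x) l := by
  induction k with
  | zero => intro l; rfl
  | succ k ih =>
    intro l
    rw [D_succ, ih, ih, ← Finset.sum_sub_distrib]
    rfl

theorem D_congr (k : ℕ) {u v : ℕ → ℝ} : ∀ l, (∀ i, l ≤ i → i ≤ l + k → u i = v i) → D k u l = D k v l := by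
  induction k with
  | zero => intro l h; exact h l le_rfl le_rfl
  | succ k ih =>
    intro l h
    rw [D_succ, D_succ, ih (l + 1) (fun i h1 h2 => h i (by omega) (by omega)),
      ih l (fun i h1 h2 => h i (by omega) (by omega))]

theorem D_bound (k : ℕ) {u : ℕ → ℝ} {M : ℝ} : ∀ l, (∀ i, l ≤ i → i ≤ l + k → |u i| ≤ M) →
    |D k u l| ≤ 2 ^ k * M := by
  induction k with
  | zero =>
    intro l h
    rw [pow_zero, one_mul]
    exact h l le_rfl le_rfl
  | succ k ih =>
    intro l h
    rw [D_succ]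
    have h1 := ih (l + 1) (fun i h1 h2 => h i (by omega) (by omega))
    have h2 := ih l (fun i h1 h2 => h i (by omega) (by omega))
    have h3 := abs_sub (D k u (l + 1)) (D k u l)
    calc |D k u (l + 1) - D k u l| ≤ |D k u (l + 1)| + |D k u l| := h3
      _ ≤ 2 ^ (k + 1) * M := by rw [pow_succ]; linarith

/-- differences of a product -/
theorem prodD (k : ℕ) : ∀ (g v : ℕ → ℝ) (A B ε : ℝ), 0 ≤ A → 0 ≤ B → 0 ≤ ε →
    (∀ a l, a + l ≤ k → |D a g l| ≤ A * ε ^ a) → (∀ j ≤ k, |D j v 0| ≤ B * ε ^ j) →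
    |D k (fun i => g i * v i) 0| ≤ 2 ^ k * (A * B * ε ^ k) := by
  induction k with
  | zero =>
    intro g v A B ε hA hB hε hg hv
    have h1 := hg 0 0 le_rfl
    have h2 := hv 0 le_rfl
    simp only [D, pow_zero, mul_one, one_mul] at h1 h2 ⊢
    rw [abs_mul]
    exact mul_le_mul h1 h2 (abs_nonneg _) hA
  | succ k ih =>
    intro g v A B ε hA hB hε hg hv
    have e1 : D (k + 1) (fun i => g i * v i) 0 =
        D k (fun i => (g (i + 1) - g i) * v i) 0 + D k (fun i => g (i + 1) * (v (i + 1) - v i)) 0 := by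
      rw [D_succ', ← D_add]
      apply D_congr
      intro i _ _
      ring
    have h1 := ih (fun i => g (i + 1) - g i) v (A * ε) B ε (by positivity) hB hε
      (fun a l hal => by
        rw [← D_succ']
        have := hg (a + 1) l (by omega)
        rw [pow_succ] at this
        calc _ ≤ _ := this
          _ = _ := by ring) (fun j hj => hv j (by omega))
    have h2 := ih (fun i => g (i + 1)) (fun i => v (i + 1) - v i) A (B * ε) ε hA (by positivity) hε
      (fun a l hal => by
        have e : D a (fun i => g (i + 1)) l = D a g (l + 1) := by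
          have := D_shift a g 1 l
          rw [add_comm 1 l] at this
          rw [← this]
          apply D_congr
          intro i _ _
          rw [add_comm]
        rw [e]
        exact hg a (l + 1) (by omega))
      (fun j hj => by
        rw [← D_succ']
        have := hv (j + 1) (by omega)
        rw [pow_succ] at this
        calc _ ≤ _ := this
          _ = _ := by ring)
    rw [e1]
    refine (abs_add_le _ _).trans ?_
    have e2 : (2 : ℝ) ^ (k + 1) * (A * B * ε ^ (k + 1)) =
        2 ^ k * (A * ε * B * ε ^ k) + 2 ^ k * (A * (B * ε) * ε ^ k) := by ring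
    rw [e2]
    exact add_le_add h1 h2

/-! ### Averages over insertions -/

variable {α ι : Type} {K : ℕ → Finset α} {Fl Bu : α → Finset ι} {up dn : α → ι → α}

/-- the average over the insertions -/
def UU (Fl : α → Finset ι) (up : α → ι → α) (φ : α → ℝ) (w : α) : ℝ :=
  (∑ c ∈ Fl w, φ (up w c)) / ((Fl w).card : ℝ)

/-- the mean differences -/
def VV (Fl : α → Finset ι) (up : α → ι → α) (φ : α → ℝ) : ℕ → α → ℝ
  | 0 => φ
  | j + 1 => fun w => UU Fl up (VV Fl up φ j) w - VV Fl up φ j w

theorem UU_sub (φ ψ : α → ℝ) : UU Fl up (fun w => φ w - ψ w) = fun w => UU Fl up φ w - UU Fl up ψ w := by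
  funext w
  unfold UU
  rw [Finset.sum_sub_distrib, sub_div]

theorem UI_sub (i : ℕ) : ∀ (φ ψ : α → ℝ), (UU Fl up)^[i] (fun w => φ w - ψ w) =
    fun w => (UU Fl up)^[i] φ w - (UU Fl up)^[i] ψ w := by
  induction i with
  | zero => intro φ ψ; rfl
  | succ i ih =>
    intro φ ψ
    rw [Function.iterate_succ_apply, UU_sub, ih]
    rfl

theorem D_UI (φ : α → ℝ) (w : α) (j : ℕ) : ∀ l, D j (fun i => (UU Fl up)^[i] φ w) l =
    (UU Fl up)^[l] (VV Fl up φ j) w := by
  induction j with
  | zero => intro l; rfl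
  | succ j ih =>
    intro l
    rw [D_succ, ih, ih, Function.iterate_succ_apply]
    show _ = (UU Fl up)^[l] (fun w => UU Fl up (VV Fl up φ j) w - VV Fl up φ j w) w
    rw [UI_sub]

theorem UU_bound (T : Tog K Fl Bu up dn) {n : ℕ} {φ : α → ℝ} {M : ℝ} (hM : 0 ≤ M)
    (h : ∀ w ∈ K (n + 1), |φ w| ≤ M) : ∀ w ∈ K n, |UU Fl up φ w| ≤ M := by
  intro w hw
  unfold UU
  rcases Nat.eq_zero_or_pos (Fl w).card with h0 | h0
  · rw [h0]
    simpa using hM
  · have h1 : (0 : ℝ) < (Fl w).card := by exact_mod_cast h0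
    rw [abs_div, abs_of_pos h1, div_le_iff₀ h1]
    calc |∑ c ∈ Fl w, φ (up w c)| ≤ ∑ c ∈ Fl w, |φ (up w c)| := Finset.abs_sum_le_sum_abs _ _
      _ ≤ ∑ c ∈ Fl w, M := Finset.sum_le_sum fun c hc => h _ (T.up_mem n w hw c hc)
      _ = M * (Fl w).card := by rw [Finset.sum_const, nsmul_eq_mul]; ring

theorem UI_bound (T : Tog K Fl Bu up dn) {n : ℕ} {M : ℝ} (hM : 0 ≤ M) (i : ℕ) : ∀ φ : α → ℝ,
    (∀ w ∈ K (n + i), |φ w| ≤ M) → ∀ w ∈ K n, |(UU Fl up)^[i] φ w| ≤ M := by
  induction i with
  | zero => intro φ h w hw; exact h w hw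
  | succ i ih =>
    intro φ h w hw
    rw [Function.iterate_succ_apply]
    exact ih _ (UU_bound T hM h) w hw

/-- **counting upwards, with an observable** -/
theorem count_ob (T : Tog K Fl Bu up dn) (n i : ℕ) : ∀ (φ : α → ℝ) (Φ : ℕ → ℕ → ℝ),
    ∑ w ∈ K (n + i), (if i ≤ (Bu w).card then φ w * Φ (Fl w).card (Bu w).card else 0) =
      ∑ w ∈ K n, (UU Fl up)^[i] φ w * (rho i (Fl w).card (Bu w).card *
        Φ ((Fl w).card - i) ((Bu w).card + i)) := by
  induction i with
  | zero =>
    intro φ Φ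
    refine Finset.sum_congr rfl fun w _ => ?_
    rw [if_pos (Nat.zero_le _), rho_zero]
    simp
  | succ i ih =>
    intro φ Φ
    have h1 : ∑ w ∈ K (n + (i + 1)), (if i + 1 ≤ (Bu w).card then
        φ w * Φ (Fl w).card (Bu w).card else 0) =
        ∑ w ∈ K (n + i + 1), ∑ c ∈ Bu w, (if i + 1 ≤ (Bu w).card then
          φ w * Φ (Fl w).card (Bu w).card / (Bu w).card else 0) := by
      refine Finset.sum_congr rfl fun w _ => ?_
      rw [Finset.sum_const, nsmul_eq_mul]
      split_ifs with h0
      · have : ((Bu w).card : ℝ) ≠ 0 := by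
          have : 0 < (Bu w).card := by omega
          positivity
        field_simp
      · simp
    rw [h1, sum_up' T (n + i)]
    have h2 := ih (UU Fl up φ) (fun f b => (f : ℝ) / ((b : ℝ) + 1) * Φ (f - 1) (b + 1))
    have h3 : ∑ w ∈ K (n + i), ∑ c ∈ Fl w, (if i + 1 ≤ (Bu (up w c)).card then
          φ (up w c) * Φ (Fl (up w c)).card (Bu (up w c)).card / (Bu (up w c)).card else 0) =
        ∑ w ∈ K (n + i), (if i ≤ (Bu w).card then UU Fl up φ w * (((Fl w).card : ℝ) /
          (((Bu w).card : ℝ) + 1) * Φ ((Fl w).card - 1) ((Bu w).card + 1)) else 0) := by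
      refine Finset.sum_congr rfl fun w hw => ?_
      have h4 : ∀ c ∈ Fl w, (if i + 1 ≤ (Bu (up w c)).card then
          φ (up w c) * Φ (Fl (up w c)).card (Bu (up w c)).card / (Bu (up w c)).card else 0) =
          φ (up w c) * (if i ≤ (Bu w).card then Φ ((Fl w).card - 1) ((Bu w).card + 1) /
            (((Bu w).card : ℝ) + 1) else 0) := by
        intro c hc
        rw [card_up_bu T hw hc, card_up_fl T hw hc]
        push_cast
        by_cases h5 : i ≤ (Bu w).card
        · rw [if_pos h5, if_pos (by omega), mul_div_assoc]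
        · rw [if_neg h5, if_neg (by omega), mul_zero]
      rw [Finset.sum_congr rfl h4, ← Finset.sum_mul]
      have h6 : ∑ c ∈ Fl w, φ (up w c) = UU Fl up φ w * ((Fl w).card : ℝ) := by
        unfold UU
        rcases Nat.eq_zero_or_pos (Fl w).card with h0 | h0
        · rw [h0, Finset.card_eq_zero.1 h0]
          simp
        · have : ((Fl w).card : ℝ) ≠ 0 := by positivity
          field_simp
      rw [h6]
      split_ifs
      · ring
      · simp
    rw [h3, h2]
    refine Finset.sum_congr rfl fun w _ => ?_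
    rw [rho_succ, Function.iterate_succ_apply]
    have e1 : (Fl w).card - (i + 1) = (Fl w).card - i - 1 := by omega
    have e2 : (Bu w).card + (i + 1) = (Bu w).card + i + 1 := by ring
    rw [e1, e2]
    push_cast
    ring

/-- the differences of weighted sums -/
theorem D_main (T : Tog K Fl Bu up dn) (z : ℝ) (N k : ℕ) (φ : α → ℝ) :
    D k (fun n => z ^ n * ∑ w ∈ K n, φ w) N =
      z ^ N * ∑ w ∈ K N, D k (fun i => z ^ i * rho i (Fl w).card (Bu w).card *
        (UU Fl up)^[i] φ w) 0 +
      D k (fun i => z ^ (N + i) * ∑ w ∈ (K (N + i)).filter (fun w => (Bu w).card < i), φ w) 0 := by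
  have e0 : D k (fun n => z ^ n * ∑ w ∈ K n, φ w) N =
      D k (fun i => z ^ (N + i) * ∑ w ∈ K (N + i), φ w) 0 := by
    have := D_shift k (fun n => z ^ n * ∑ w ∈ K n, φ w) N 0
    rw [add_zero] at this
    exact this.symm
  rw [e0, ← D_sum, ← D_mul, ← D_add]
  apply D_congr
  intro i _ _
  have h1 := count_ob T N i φ (fun _ _ => 1)
  have h2 : ∑ w ∈ K (N + i), φ w = ∑ w ∈ K (N + i), (if i ≤ (Bu w).card then φ w * 1 else 0) +
      ∑ w ∈ (K (N + i)).filter (fun w => (Bu w).card < i), φ w := by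
    rw [Finset.sum_filter, ← Finset.sum_add_distrib]
    refine Finset.sum_congr rfl fun w _ => ?_
    by_cases h : i ≤ (Bu w).card
    · rw [if_pos h, if_neg (by omega), mul_one, add_zero]
    · rw [if_neg h, if_pos (by omega), zero_add]
  rw [h2, h1, mul_add, pow_add]
  congr 1
  rw [mul_assoc, Finset.mul_sum]
  congr 1
  refine Finset.sum_congr rfl fun w _ => ?_
  ring

end

end Pool.Agent.T6.H92.TG
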