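import Pool.Agent.T6.H92.TG.Defs

/-! Module DIF of helper92's project TG (MP_2250b1_co, MP_c23e5f_co). -/

set_option autoImplicit false

namespace Pool.Agent.T6.H92.TG.ModDif

open Finset

theorem D_congr : ∀ (a : ℕ) (u v : ℕ → ℝ) (n : ℕ), (∀ m, u m = v m) →
    D a u n = D a v n := by
  intro a u v n h
  have : u = v := funext h
  rw [this]

theorem D_succ' : ∀ (a : ℕ) (u : ℕ → ℝ) (n : ℕ),
    D (a + 1) u n = D a (fun i => u (i + 1) - u i) n := by
  intro a
  induction a with
  | zero => intro u n; rfl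
  | succ a ih =>
    intro u n
    show D (a + 1) u (n + 1) - D (a + 1) u n =
      D a (fun i => u (i + 1) - u i) (n + 1) - D a (fun i => u (i + 1) - u i) n
    rw [ih, ih]

theorem D_add : ∀ (a : ℕ) (u v : ℕ → ℝ) (n : ℕ),
    D a (fun i => u i + v i) n = D a u n + D a v n := by
  intro a
  induction a with
  | zero => intro u v n; rfl
  | succ a ih =>
    intro u v n
    show D a (fun i => u i + v i) (n + 1) - D a (fun i => u i + v i) n =
      (D a u (n + 1) - D a u n) + (D a v (n + 1) - D a v n)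
    rw [ih, ih]; ring

theorem D_mulc : ∀ (a : ℕ) (c : ℝ) (u : ℕ → ℝ) (n : ℕ), D a (fun i => c * u i) n = c * D a u n := by
  intro a
  induction a with
  | zero => intro c u n; rfl
  | succ a ih =>
    intro c u n
    show D a (fun i => c * u i) (n + 1) - D a (fun i => c * u i) n =
      c * (D a u (n + 1) - D a u n)
    rw [ih, ih]; ring

theorem D_const : ∀ (a : ℕ) (c : ℝ) (n : ℕ), D (a + 1) (fun _ => c) n = 0 := by
  intro a c n
  rw [D_succ']
  have : (fun _ : ℕ => c - c) = fun _ => (0 : ℝ) * 0 := by funext; simp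
  rw [this, D_mulc, zero_mul]

theorem D_shift : ∀ (a : ℕ) (u : ℕ → ℝ) (n : ℕ), D a (fun i => u (i + 1)) n = D a u (n + 1) := by
  intro a
  induction a with
  | zero => intro u n; rfl
  | succ a ih =>
    intro u n
    show D a (fun i => u (i + 1)) (n + 1) - D a (fun i => u (i + 1)) n =
      D a u (n + 1 + 1) - D a u (n + 1)
    rw [ih, ih]

/-- product rule -/
theorem prod_rule (ε : ℝ) (hε : 0 < ε) : ∀ (a m : ℕ) (u v : ℕ → ℝ) (A B : ℝ),
    0 ≤ A → 0 ≤ B → (∀ j ≤ a, ∀ l, l + j ≤ m → |D j u l| ≤ A * ε ^ j) →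
    (∀ j ≤ a, ∀ l, l + j ≤ m → |D j v l| ≤ B * ε ^ j) → ∀ l, l + a ≤ m →
    |D a (fun i => u i * v i) l| ≤ 2 ^ a * A * B * ε ^ a := by
  intro a
  induction a with
  | zero =>
    intro m u v A B hA hB hu hv l hl
    have h1 := hu 0 le_rfl l hl
    have h2 := hv 0 le_rfl l hl
    simp only [D, pow_zero, mul_one, one_mul] at h1 h2 ⊢
    rw [abs_mul]
    exact mul_le_mul h1 h2 (abs_nonneg _) hA
  | succ a ih =>
    intro m u v A B hA hB hu hv l hl
    obtain ⟨m, rfl⟩ : ∃ m', m = m' + 1 := ⟨m - 1, by omega⟩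
    have h1 := ih m (fun i => u (i + 1) - u i) (fun i => v (i + 1)) (A * ε) B (by positivity) hB
      (fun j hj l hl => by
        rw [← D_succ']
        refine (hu (j + 1) (by omega) l (by omega)).trans (le_of_eq ?_)
        ring)
      (fun j hj l hl => by
        rw [D_shift]
        exact hv j (by omega) (l + 1) (by omega)) l (by omega)
    have h2 := ih m u (fun i => v (i + 1) - v i) A (B * ε) hA (by positivity)
      (fun j hj l hl => hu j (by omega) l (by omega))
      (fun j hj l hl => by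
        rw [← D_succ']
        refine (hv (j + 1) (by omega) l (by omega)).trans (le_of_eq ?_)
        ring) l (by omega)
    rw [D_succ', D_congr a (fun i => u (i + 1) * v (i + 1) - u i * v i)
      (fun i => (u (i + 1) - u i) * v (i + 1) + u i * (v (i + 1) - v i)) l (fun m => by ring), D_add]
    refine (abs_add_le _ _).trans ((add_le_add h1 h2).trans (le_of_eq ?_))
    ring

/-- rising products -/
def P (a : ℕ) (t : ℝ) : ℝ := ∏ j ∈ range (a + 1), (t + j)

theorem P_succ (a : ℕ) (t : ℝ) : P (a + 1) t = P a t * (t + (a + 1)) := by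
  unfold P
  rw [prod_range_succ _ (a + 1)]
  push_cast
  ring

theorem P_succ' (a : ℕ) (t : ℝ) : P (a + 1) t = t * P a (t + 1) := by
  unfold P
  rw [prod_range_succ' _ (a + 1), mul_comm]
  congr 1
  · simp
  · refine prod_congr rfl fun j _ => ?_
    push_cast
    ring

theorem P_lower (a : ℕ) {t s : ℝ} (hs : 0 < s) (ht : s ≤ t) : s ^ (a + 1) ≤ P a t := by
  unfold P
  rw [← card_range (a + 1), ← prod_const, card_range]
  apply prod_le_prod
  · intro i _; exact hs.le
  · intro i _
    have : (0 : ℝ) ≤ i := Nat.cast_nonneg i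
    linarith

theorem P_pos (a : ℕ) {t : ℝ} (ht : 0 < t) : 0 < P a t :=
  lt_of_lt_of_le (pow_pos ht _) (P_lower a ht le_rfl)

theorem D_inv (β : ℝ) (hβ : 0 < β) : ∀ (a l : ℕ),
    D a (fun i => 1 / (β + i)) l = (-1) ^ a * a.factorial / P a (β + l) := by
  intro a
  induction a with
  | zero =>
    intro l
    simp [D, P]
  | succ a ih =>
    intro l
    show D a (fun i => 1 / (β + i)) (l + 1) - D a (fun i => 1 / (β + i)) l = _
    rw [ih, ih]
    have hl : 0 < β + (l : ℝ) := by positivity
    have h1 := P_pos a hl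
    have h2 : 0 < P a (β + l + 1) := P_pos a (by linarith)
    have h3 := P_succ a (β + l)
    have h4 := P_succ' a (β + l)
    have e : β + ((l + 1 : ℕ) : ℝ) = β + l + 1 := by push_cast; ring
    rw [e]
    have h5 : 0 < β + l + (a + 1) := by positivity
    have h6 : (0 : ℝ) < P (a + 1) (β + l) := P_pos _ hl
    rw [Nat.factorial_succ]
    have e1 : (-1 : ℝ) ^ a * a.factorial / P a (β + l + 1) =
        (-1) ^ a * a.factorial * (β + l) / P (a + 1) (β + l) := by
      rw [h4]; field_simp
    have e2 : (-1 : ℝ) ^ a * a.factorial / P a (β + l) =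
        (-1) ^ a * a.factorial * (β + l + (a + 1)) / P (a + 1) (β + l) := by
      rw [h3]; field_simp
    rw [e1, e2, ← sub_div]
    congr 1
    push_cast
    ring

/-- the bound for the differences of `x` -/
theorem x_bound (k : ℕ) (z : ℝ) (f b : ℕ) (ε : ℝ) (hz : 0 < z) (hz1 : z ≤ 1)
    (hε : 0 < ε) (hε1 : ε ≤ 1) (h1 : |z * f - b| ≤ ε * (b + 1)) (h2 : 1 ≤ ε ^ 2 * (b + 1)) :
    ∀ a ≤ 2 * k, ∀ l ≤ 2 * k, |D a (fun i : ℕ => z * ((f : ℝ) - i) / ((b : ℝ) + 1 + i) - 1) l| ≤
      (4 * (2 * k).factorial + (4 * k + 2)) * ε ^ (a + 1) := by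
  intro a ha l hl
  have hb : (0 : ℝ) ≤ b := Nat.cast_nonneg b
  set β : ℝ := (b : ℝ) + 1 with hβ
  have hβ1 : 1 ≤ β := by linarith
  have hβ0 : 0 < β := by linarith
  have hi : 1 / β ≤ ε ^ 2 := by
    rw [div_le_iff₀ hβ0]; exact h2
  have hfac : (0 : ℝ) < (2 * k).factorial := by exact_mod_cast Nat.factorial_pos _
  have hk : (0 : ℝ) ≤ k := Nat.cast_nonneg k
  rcases a with _ | a
  · simp only [D, zero_add, pow_one]
    have hl0 : (0 : ℝ) ≤ l := Nat.cast_nonneg l
    have hl' : (l : ℝ) ≤ 2 * k := by exact_mod_cast hl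
    have hden : 0 < β + l := by positivity
    have e : z * ((f : ℝ) - l) / (β + l) - 1 = ((z * f - b) - 1 - (1 + z) * l) / (β + l) := by
      rw [div_sub_one hden.ne']
      congr 1
      rw [hβ]; ring
    rw [e, abs_div, abs_of_pos hden, div_le_iff₀ hden]
    have h3 : |(z * f - b) - 1 - (1 + z) * l| ≤ ε * β + 1 + 2 * l := by
      have h4 : |(z * (f : ℝ) - b) - 1 - (1 + z) * l| ≤ |z * (f : ℝ) - b| + |1 + (1 + z) * l| := by
        have : (z * (f : ℝ) - b) - 1 - (1 + z) * l = (z * f - b) - (1 + (1 + z) * l) := by ring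
        rw [this]
        exact abs_sub _ _
      have h5 : |1 + (1 + z) * (l : ℝ)| ≤ 1 + 2 * l := by
        rw [abs_of_nonneg (by positivity)]
        nlinarith
      linarith
    have h6 : 1 ≤ ε * β := by
      have : ε ^ 2 * β ≤ ε * β := by
        apply mul_le_mul_of_nonneg_right _ hβ0.le
        nlinarith
      linarith
    calc |(z * f - b) - 1 - (1 + z) * l| ≤ ε * β + 1 + 2 * l := h3
      _ ≤ ε * β + ε * β + 2 * (2 * k) * (ε * β) := by nlinarith
      _ = (4 * k + 2) * ε * β := by ring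
      _ ≤ (4 * (2 * k).factorial + (4 * k + 2)) * ε * (β + l) := by
        have : (4 * k + 2) * ε ≤ (4 * (2 * k).factorial + (4 * k + 2)) * ε := by nlinarith
        have h7 : 0 ≤ (4 * (k : ℝ) + 2) * ε := by positivity
        apply mul_le_mul this (by linarith) hβ0.le (by positivity)
  · set Y : ℝ := (z * f - b) - 1 + (1 + z) * β with hY
    have e : ∀ i : ℕ, z * ((f : ℝ) - i) / (β + i) - 1 = Y * (1 / (β + i)) + (-(1 + z)) := by
      intro i
      have : 0 < β + i := by positivity
      field_simp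
      rw [hY, hβ]; ring
    rw [D_congr _ _ _ _ e, D_add, D_mulc, D_const, add_zero, D_inv β hβ0]
    have hYb : |Y| ≤ 4 * β := by
      rw [hY]
      have h4 : |z * (f : ℝ) - b - 1 + (1 + z) * β| ≤ |z * (f : ℝ) - b| + |(1 + z) * β - 1| := by
        have : z * (f : ℝ) - b - 1 + (1 + z) * β = (z * f - b) + ((1 + z) * β - 1) := by ring
        rw [this]
        exact abs_add_le _ _
      have h5 : |(1 + z) * β - 1| ≤ 2 * β := by
        rw [abs_of_nonneg (by nlinarith)]
        nlinarith
      nlinarith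
    have hl0 : (0 : ℝ) ≤ l := Nat.cast_nonneg l
    have hP := P_lower (a + 1) hβ0 (show β ≤ β + l by linarith)
    have hP0 : 0 < P (a + 1) (β + l) := P_pos _ (by positivity)
    rw [abs_mul, abs_div, abs_mul, abs_pow, abs_neg, abs_one, one_pow, one_mul,
      abs_of_pos hP0, Nat.abs_cast]
    have hfa : ((a + 1).factorial : ℝ) ≤ (2 * k).factorial := by
      exact_mod_cast Nat.factorial_le ha
    have hfa0 : (0 : ℝ) < (a + 1).factorial := by exact_mod_cast Nat.factorial_pos _
    calc |Y| * (((a + 1).factorial : ℝ) / P (a + 1) (β + l))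
        ≤ (4 * β) * ((2 * k).factorial / β ^ (a + 1 + 1)) := by gcongr
      _ = 4 * (2 * k).factorial * (1 / β) ^ (a + 1) := by
        rw [one_div, inv_pow, pow_succ β (a + 1)]
        field_simp
      _ ≤ 4 * (2 * k).factorial * (ε ^ 2) ^ (a + 1) := by gcongr
      _ ≤ 4 * (2 * k).factorial * ε ^ (a + 1 + 1) := by
        rw [← pow_mul]
        have : ε ^ (2 * (a + 1)) ≤ ε ^ (a + 1 + 1) := pow_le_pow_of_le_one hε.le hε1 (by omega)
        gcongr
      _ ≤ (4 * (2 * k).factorial + (4 * k + 2)) * ε ^ (a + 1 + 1) := by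
        have : 0 ≤ ε ^ (a + 1 + 1) := by positivity
        nlinarith

/-- the recursion of `g` -/
theorem g_succ (z : ℝ) (f b i : ℕ) : z ^ (i + 1) * rho (i + 1) f b - z ^ i * rho i f b =
    z ^ i * rho i f b * (z * ((f : ℝ) - i) / ((b : ℝ) + 1 + i) - 1) := by
  have h : rho (i + 1) f b = rho i f b * (((f : ℝ) - i) / ((b : ℝ) + 1 + i)) := by
    unfold rho
    rw [prod_range_succ]
    by_cases hi : i ≤ f
    · rw [Nat.cast_sub hi]
    · have : ∏ l ∈ range i, (((f - l : ℕ) : ℝ) / ((b : ℝ) + 1 + l)) = 0 := by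
        apply prod_eq_zero (mem_range.2 (show f < i by omega))
        simp
      rw [this, zero_mul, zero_mul]
  rw [h]
  ring

def G (K : ℝ) (k : ℕ) : ℕ → ℝ
  | 0 => (1 + K) ^ (2 * k)
  | a + 1 => G K k a * (1 + 2 ^ a * K)

theorem G_pos (K : ℝ) (hK : 0 ≤ K) (k : ℕ) : ∀ a, 0 < G K k a := by
  intro a
  induction a with
  | zero => exact pow_pos (by linarith) _
  | succ a ih => exact mul_pos ih (by positivity)

end Pool.Agent.T6.H92.TG.ModDif

namespace Pool.Agent.T6.H92.TG

open ModDif in
theorem dif : StmDif := by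
  intro k
  set K : ℝ := 4 * (2 * k).factorial + (4 * k + 2) with hK
  have hK0 : 0 ≤ K := by positivity
  refine ⟨G K k k, (G_pos K hK0 k k).le, ?_⟩
  intro z f b ε hz hz1 hε hε1 h1 h2 a ha l hl
  set g : ℕ → ℝ := fun i => z ^ i * rho i f b with hg
  set x : ℕ → ℝ := fun i : ℕ => z * ((f : ℝ) - i) / ((b : ℝ) + 1 + i) - 1 with hx
  have hgx : ∀ i, g (i + 1) - g i = g i * x i := fun i => g_succ z f b i
  have hxb := x_bound k z f b ε hz hz1 hε hε1 h1 h2
  -- size of g
  have h0 : ∀ l, l ≤ 2 * k → |g l| ≤ (1 + K) ^ l := by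
    intro l
    induction l with
    | zero =>
      intro _
      simp [hg, rho]
    | succ l ih =>
      intro hl
      have h3 := ih (by omega)
      have h4 : g (l + 1) = g l * (1 + x l) := by
        have := hgx l
        linear_combination this
      have h5 : |1 + x l| ≤ 1 + K := by
        have h6 := hxb 0 (by omega) l (by omega)
        simp only [D, zero_add, pow_one] at h6
        have h7 : |x l| ≤ K := h6.trans (by nlinarith)
        calc |1 + x l| ≤ |(1 : ℝ)| + |x l| := abs_add_le _ _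
          _ ≤ 1 + K := by rw [abs_one]; linarith
      rw [h4, abs_mul, pow_succ]
      exact mul_le_mul h3 h5 (abs_nonneg _) (by positivity)
  have main : ∀ a, ∀ j ≤ a, ∀ l, l + j ≤ 2 * k → |D j g l| ≤ G K k a * ε ^ j := by
    intro a
    induction a with
    | zero =>
      intro j hj l hl
      obtain rfl : j = 0 := by omega
      simp only [D, pow_zero, mul_one, G]
      refine (h0 l (by omega)).trans ?_
      exact pow_le_pow_right₀ (by linarith) (by omega)
    | succ a ih =>
      intro j hj l hl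
      have hG := G_pos K hK0 k a
      have hGle : G K k a ≤ G K k (a + 1) := by
        show G K k a ≤ G K k a * (1 + 2 ^ a * K)
        have : 0 ≤ 2 ^ a * K := by positivity
        nlinarith
      rcases Nat.lt_or_ge j (a + 1) with h | h
      · exact (ih j (by omega) l hl).trans (mul_le_mul_of_nonneg_right hGle (by positivity))
      · obtain rfl : j = a + 1 := by omega
        rw [D_succ', D_congr a _ _ l hgx]
        have h3 := prod_rule ε hε a (2 * k) g x (G K k a) (K * ε) hG.le (by positivity) ih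
          (fun j hj l hl => by
            refine (hxb j (by omega) l (by omega)).trans (le_of_eq ?_)
            rw [hK]; ring) l (by omega)
        refine h3.trans ?_
        show _ ≤ G K k a * (1 + 2 ^ a * K) * ε ^ (a + 1)
        have h4 : 0 ≤ G K k a * ε ^ (a + 1) := by positivity
        calc 2 ^ a * G K k a * (K * ε) * ε ^ a = (G K k a * ε ^ (a + 1)) * (2 ^ a * K) := by ring
          _ ≤ G K k a * (1 + 2 ^ a * K) * ε ^ (a + 1) := by nlinarith
  exact (main k a ha l (by omega))

end Pool.Agent.T6.H92.TG
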