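import Mathlib

/-!
# Toggle systems

Graded finite sets `K n` with partial moves `up : K n → K (n + 1)` and `dn`, labelled by cells,
which do not interact: every class of elements which are connected by moves is a Boolean cube.
-/

set_option autoImplicit false

namespace Pool.Agent.T6.H92.TG

open Finset
open scoped Classical

noncomputable section

/-- toggle systems -/
structure Tog {α ι : Type} (K : ℕ → Finset α) (Fl Bu : α → Finset ι) (up dn : α → ι → α) :
    Prop where
  up_mem : ∀ n, ∀ w ∈ K n, ∀ c ∈ Fl w, up w c ∈ K (n + 1)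
  up_bu : ∀ n, ∀ w ∈ K n, ∀ c ∈ Fl w, Bu (up w c) = insert c (Bu w)
  up_fl : ∀ n, ∀ w ∈ K n, ∀ c ∈ Fl w, Fl (up w c) = (Fl w).erase c
  dn_mem : ∀ n, ∀ w ∈ K (n + 1), ∀ c ∈ Bu w, dn w c ∈ K n
  dn_fl : ∀ n, ∀ w ∈ K (n + 1), ∀ c ∈ Bu w, c ∈ Fl (dn w c)
  dn_up : ∀ n, ∀ w ∈ K n, ∀ c ∈ Fl w, dn (up w c) c = w
  up_dn : ∀ n, ∀ w ∈ K (n + 1), ∀ c ∈ Bu w, up (dn w c) c = w
  disj : ∀ n, ∀ w ∈ K n, Disjoint (Fl w) (Bu w)
  bot : ∀ w ∈ K 0, Bu w = ∅

variable {α ι : Type} {K : ℕ → Finset α} {Fl Bu : α → Finset ι} {up dn : α → ι → α}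

/-- functions which do not change under moves -/
def Inv (K : ℕ → Finset α) (Fl : α → Finset ι) (up : α → ι → α) (h : α → ℝ) : Prop :=
  ∀ n, ∀ w ∈ K n, ∀ c ∈ Fl w, h (up w c) = h w

theorem sum_up (T : Tog K Fl Bu up dn) (n : ℕ) (G : α → ι → ℝ) :
    ∑ w ∈ K n, ∑ c ∈ Fl w, G w c = ∑ w ∈ K (n + 1), ∑ c ∈ Bu w, G (dn w c) c := by
  rw [Finset.sum_sigma', Finset.sum_sigma']
  refine Finset.sum_nbij' (fun x => ⟨up x.1 x.2, x.2⟩) (fun x => ⟨dn x.1 x.2, x.2⟩) ?_ ?_ ?_ ?_ ?_
  · rintro ⟨w, c⟩ h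
    rw [mem_sigma] at h ⊢
    refine ⟨T.up_mem n w h.1 c h.2, ?_⟩
    show c ∈ Bu (up w c)
    rw [T.up_bu n w h.1 c h.2]
    exact mem_insert_self c _
  · rintro ⟨w, c⟩ h
    rw [mem_sigma] at h ⊢
    exact ⟨T.dn_mem n w h.1 c h.2, T.dn_fl n w h.1 c h.2⟩
  · rintro ⟨w, c⟩ h
    rw [mem_sigma] at h
    simp only [T.dn_up n w h.1 c h.2]
  · rintro ⟨w, c⟩ h
    rw [mem_sigma] at h
    simp only [T.up_dn n w h.1 c h.2]
  · rintro ⟨w, c⟩ h
    rw [mem_sigma] at h
    simp only [T.dn_up n w h.1 c h.2]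

theorem sum_up' (T : Tog K Fl Bu up dn) (n : ℕ) (H : α → ι → ℝ) :
    ∑ w ∈ K (n + 1), ∑ c ∈ Bu w, H w c = ∑ w ∈ K n, ∑ c ∈ Fl w, H (up w c) c := by
  rw [sum_up T n (fun w c => H (up w c) c)]
  refine Finset.sum_congr rfl fun w hw => Finset.sum_congr rfl fun c hc => ?_
  rw [T.up_dn n w hw c hc]

theorem card_up_fl (T : Tog K Fl Bu up dn) {n : ℕ} {w : α} (hw : w ∈ K n) {c : ι} (hc : c ∈ Fl w) :
    (Fl (up w c)).card = (Fl w).card - 1 := by
  rw [T.up_fl n w hw c hc, Finset.card_erase_of_mem hc]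

theorem card_up_bu (T : Tog K Fl Bu up dn) {n : ℕ} {w : α} (hw : w ∈ K n) {c : ι} (hc : c ∈ Fl w) :
    (Bu (up w c)).card = (Bu w).card + 1 := by
  rw [T.up_bu n w hw c hc, Finset.card_insert_of_notMem]
  exact Finset.disjoint_left.1 (T.disj n w hw) hc

/-- quotients of binomial coefficients -/
def rho (i f b : ℕ) : ℝ := ∏ l ∈ range i, (((f - l : ℕ) : ℝ) / ((b : ℝ) + 1 + l))

theorem rho_zero (f b : ℕ) : rho 0 f b = 1 := by
  unfold rho
  simp

theorem rho_succ (i f b : ℕ) : rho (i + 1) f b = rho i f b * (((f - i : ℕ) : ℝ) / ((b : ℝ) + 1 + i)) := by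
  unfold rho
  rw [Finset.prod_range_succ]

theorem rho_nonneg (i f b : ℕ) : 0 ≤ rho i f b := by
  unfold rho
  exact Finset.prod_nonneg fun l _ => by positivity

theorem rho_eq_zero {i f b : ℕ} (h : f < i) : rho i f b = 0 := by
  unfold rho
  apply Finset.prod_eq_zero (mem_range.2 h)
  simp

theorem rho_inv (i f b : ℕ) : rho i f b * rho i (b + i) (f - i) = if i ≤ f then 1 else 0 := by
  split_ifs with h
  · obtain ⟨g, rfl⟩ := Nat.exists_eq_add_of_le h
    rw [Nat.add_sub_cancel_left]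
    have h1 : ∀ i g b : ℕ, rho i (i + g) b = ((i + g).factorial : ℝ) * b.factorial /
        ((g.factorial : ℝ) * (b + i).factorial) := by
      intro i
      induction i with
      | zero =>
        intro g b
        rw [rho_zero]
        simp only [zero_add, add_zero]
        have : (g.factorial : ℝ) ≠ 0 := by exact_mod_cast g.factorial_ne_zero
        have : (b.factorial : ℝ) ≠ 0 := by exact_mod_cast b.factorial_ne_zero
        field_simp
      | succ i ih =>
        intro g b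
        rw [rho_succ]
        have e1 : i + 1 + g = i + (g + 1) := by ring
        have e2 : i + (g + 1) - i = g + 1 := by omega
        rw [e1, ih (g + 1) b, e2, show b + (i + 1) = (b + i) + 1 by ring, Nat.factorial_succ (b + i),
          Nat.factorial_succ g]
        push_cast
        have h1 : (g.factorial : ℝ) ≠ 0 := by exact_mod_cast g.factorial_ne_zero
        have h2 : ((b + i).factorial : ℝ) ≠ 0 := by exact_mod_cast (b + i).factorial_ne_zero
        have h3 : (b : ℝ) + i + 1 ≠ 0 := by positivity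
        have h4 : (g : ℝ) + 1 ≠ 0 := by positivity
        have h5 : (b : ℝ) + 1 + i ≠ 0 := by positivity
        field_simp
        ring
    have h2 := h1 i g b
    have h3 := h1 i b g
    rw [h2, show b + i = i + b by ring, h3, show g + i = i + g by ring]
    have a1 : (g.factorial : ℝ) ≠ 0 := by exact_mod_cast g.factorial_ne_zero
    have a2 : (b.factorial : ℝ) ≠ 0 := by exact_mod_cast b.factorial_ne_zero
    have a3 : ((i + b).factorial : ℝ) ≠ 0 := by exact_mod_cast (i + b).factorial_ne_zero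
    have a4 : ((i + g).factorial : ℝ) ≠ 0 := by exact_mod_cast (i + g).factorial_ne_zero
    field_simp
  · rw [rho_eq_zero (by omega), zero_mul]

/-- **counting upwards** -/
theorem count_up (T : Tog K Fl Bu up dn) {h : α → ℝ} (hh : Inv K Fl up h) (n i : ℕ) :
    ∀ Φ : ℕ → ℕ → ℝ,
    ∑ w ∈ K (n + i), (if i ≤ (Bu w).card then h w * Φ (Fl w).card (Bu w).card else 0) =
      ∑ w ∈ K n, h w * (rho i (Fl w).card (Bu w).card *
        Φ ((Fl w).card - i) ((Bu w).card + i)) := by
  induction i with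
  | zero =>
    intro Φ
    refine Finset.sum_congr rfl fun w _ => ?_
    rw [if_pos (Nat.zero_le _), rho_zero]
    simp
  | succ i ih =>
    intro Φ
    have h1 : ∑ w ∈ K (n + (i + 1)), (if i + 1 ≤ (Bu w).card then
        h w * Φ (Fl w).card (Bu w).card else 0) =
        ∑ w ∈ K (n + i + 1), ∑ c ∈ Bu w, (if i + 1 ≤ (Bu w).card then
          h w * Φ (Fl w).card (Bu w).card / (Bu w).card else 0) := by
      refine Finset.sum_congr rfl fun w _ => ?_
      rw [Finset.sum_const, nsmul_eq_mul]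
      split_ifs with h0
      · have : ((Bu w).card : ℝ) ≠ 0 := by
          have : 0 < (Bu w).card := by omega
          positivity
        field_simp
      · simp
    rw [h1, sum_up' T (n + i)]
    have h2 := ih (fun f b => (f : ℝ) / ((b : ℝ) + 1) * Φ (f - 1) (b + 1))
    have h3 : ∑ w ∈ K (n + i), ∑ c ∈ Fl w, (if i + 1 ≤ (Bu (up w c)).card then
          h (up w c) * Φ (Fl (up w c)).card (Bu (up w c)).card / (Bu (up w c)).card else 0) =
        ∑ w ∈ K (n + i), (if i ≤ (Bu w).card then h w * (((Fl w).card : ℝ) /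
          (((Bu w).card : ℝ) + 1) * Φ ((Fl w).card - 1) ((Bu w).card + 1)) else 0) := by
      refine Finset.sum_congr rfl fun w hw => ?_
      have h4 : ∀ c ∈ Fl w, (if i + 1 ≤ (Bu (up w c)).card then
          h (up w c) * Φ (Fl (up w c)).card (Bu (up w c)).card / (Bu (up w c)).card else 0) =
          (if i ≤ (Bu w).card then h w * Φ ((Fl w).card - 1) ((Bu w).card + 1) /
            (((Bu w).card : ℝ) + 1) else 0) := by
        intro c hc
        rw [card_up_bu T hw hc, card_up_fl T hw hc, hh _ w hw c hc]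
        push_cast
        by_cases h5 : i ≤ (Bu w).card
        · rw [if_pos h5]
        · rw [if_neg h5]
      rw [Finset.sum_congr rfl h4, Finset.sum_const, nsmul_eq_mul]
      split_ifs
      · ring
      · simp
    rw [h3, h2]
    refine Finset.sum_congr rfl fun w _ => ?_
    rw [rho_succ]
    have e1 : (Fl w).card - (i + 1) = (Fl w).card - i - 1 := by omega
    have e2 : (Bu w).card + (i + 1) = (Bu w).card + i + 1 := by ring
    rw [e1, e2]
    push_cast
    ring

/-- **counting downwards** -/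
theorem count_dn (T : Tog K Fl Bu up dn) {h : α → ℝ} (hh : Inv K Fl up h) (n i : ℕ)
    (Φ : ℕ → ℕ → ℝ) :
    ∑ w ∈ K (n + i), h w * (rho i (Bu w).card (Fl w).card *
        Φ ((Fl w).card + i) ((Bu w).card - i)) =
      ∑ w ∈ K n, (if i ≤ (Fl w).card then h w * Φ (Fl w).card (Bu w).card else 0) := by
  have h1 := count_up T hh n i (fun f b => rho i b f * Φ (f + i) (b - i))
  have h2 : ∑ w ∈ K (n + i), h w * (rho i (Bu w).card (Fl w).card *
        Φ ((Fl w).card + i) ((Bu w).card - i)) =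
      ∑ w ∈ K (n + i), (if i ≤ (Bu w).card then h w * (rho i (Bu w).card (Fl w).card *
        Φ ((Fl w).card + i) ((Bu w).card - i)) else 0) := by
    refine Finset.sum_congr rfl fun w _ => ?_
    split_ifs with h3
    · rfl
    · rw [rho_eq_zero (by omega)]
      simp
  rw [h2, h1]
  refine Finset.sum_congr rfl fun w _ => ?_
  have h3 := rho_inv i (Fl w).card (Bu w).card
  by_cases h4 : i ≤ (Fl w).card
  · rw [if_pos h4] at h3 ⊢
    have e1 : (Fl w).card - i + i = (Fl w).card := by omega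
    have e2 : (Bu w).card + i - i = (Bu w).card := by omega
    rw [e1, e2]
    calc h w * (rho i (Fl w).card (Bu w).card *
          (rho i ((Bu w).card + i) ((Fl w).card - i) * Φ (Fl w).card (Bu w).card)) =
        h w * (rho i (Fl w).card (Bu w).card * rho i ((Bu w).card + i) ((Fl w).card - i)) *
          Φ (Fl w).card (Bu w).card := by ring
      _ = _ := by rw [h3]; ring
  · rw [if_neg h4, rho_eq_zero (by omega)]
    simp

/-! ### Signs -/

/-- an integer valued function which changes by a sign under a move -/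
structure Sgn (K : ℕ → Finset α) (Fl Bu : α → Finset ι) (up : α → ι → α) (A : α → ℝ)
    (σ : α → ι → ℝ) : Prop where
  up_A : ∀ n, ∀ w ∈ K n, ∀ c ∈ Fl w, A (up w c) = A w + σ w c
  up_σ : ∀ n, ∀ w ∈ K n, ∀ c ∈ Fl w, ∀ d ∈ Fl w ∪ Bu w, σ (up w c) d = σ w d

/-- the value of `A` if all bumps are removed -/
def A0 (Bu : α → Finset ι) (A : α → ℝ) (σ : α → ι → ℝ) (w : α) : ℝ := A w - ∑ c ∈ Bu w, σ w c

/-- the sum of all signs -/
def sg (Fl Bu : α → Finset ι) (σ : α → ι → ℝ) (w : α) : ℝ := ∑ c ∈ Fl w ∪ Bu w, σ w c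

theorem union_up (T : Tog K Fl Bu up dn) {n : ℕ} {w : α} (hw : w ∈ K n) {c : ι} (hc : c ∈ Fl w) :
    Fl (up w c) ∪ Bu (up w c) = Fl w ∪ Bu w := by
  rw [T.up_bu n w hw c hc, T.up_fl n w hw c hc]
  ext d
  simp only [mem_union, mem_erase, mem_insert]
  constructor
  · rintro (h | rfl | h)
    · exact Or.inl h.2
    · exact Or.inl hc
    · exact Or.inr h
  · rintro (h | h)
    · by_cases hd : d = c
      · exact Or.inr (Or.inl hd)
      · exact Or.inl ⟨hd, h⟩
    · exact Or.inr (Or.inr h)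

theorem inv_A0 (T : Tog K Fl Bu up dn) {A : α → ℝ} {σ : α → ι → ℝ} (S : Sgn K Fl Bu up A σ) :
    Inv K Fl up (A0 Bu A σ) := by
  intro n w hw c hc
  unfold A0
  have hcB : c ∉ Bu w := Finset.disjoint_left.1 (T.disj n w hw) hc
  rw [S.up_A n w hw c hc, T.up_bu n w hw c hc, Finset.sum_insert hcB,
    S.up_σ n w hw c hc c (mem_union_left _ hc)]
  have h1 : ∑ d ∈ Bu w, σ (up w c) d = ∑ d ∈ Bu w, σ w d :=
    Finset.sum_congr rfl fun d hd => S.up_σ n w hw c hc d (mem_union_right _ hd)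
  rw [h1]
  ring

theorem inv_sg (T : Tog K Fl Bu up dn) {A : α → ℝ} {σ : α → ι → ℝ} (S : Sgn K Fl Bu up A σ) :
    Inv K Fl up (sg Fl Bu σ) := by
  intro n w hw c hc
  unfold sg
  rw [union_up T hw hc]
  exact Finset.sum_congr rfl fun d hd => S.up_σ n w hw c hc d hd

theorem inv_card (T : Tog K Fl Bu up dn) (Φ : ℕ → ℝ) :
    Inv K Fl up (fun w => Φ ((Fl w).card + (Bu w).card)) := by
  intro n w hw c hc
  simp only
  rw [card_up_bu T hw hc, card_up_fl T hw hc]
  have : 0 < (Fl w).card := Finset.card_pos.2 ⟨c, hc⟩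
  congr 1
  omega

/-- exchange of a bump and a flat cell -/
theorem exch (T : Tog K Fl Bu up dn) {A : α → ℝ} {σ : α → ι → ℝ} (S : Sgn K Fl Bu up A σ)
    {h : α → ℝ} (hh : Inv K Fl up h) (n : ℕ) :
    ∑ w ∈ K n, h w * ((((Fl w).card + (Bu w).card : ℕ) : ℝ) * ∑ c ∈ Bu w, σ w c) =
      ∑ w ∈ K n, h w * (((Bu w).card : ℝ) * sg Fl Bu σ w) := by
  cases n with
  | zero =>
    refine Finset.sum_congr rfl fun w hw => ?_
    rw [T.bot w hw]
    simp
  | succ n =>
    have h1 : ∀ w ∈ K (n + 1), h w * ((((Fl w).card + (Bu w).card : ℕ) : ℝ) * ∑ c ∈ Bu w, σ w c) =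
        h w * (((Bu w).card : ℝ) * sg Fl Bu σ w) +
          ∑ c ∈ Bu w, (h w * ∑ d ∈ Fl w, (σ w c - σ w d)) := by
      intro w hw
      unfold sg
      rw [Finset.sum_union (T.disj _ w hw), ← Finset.mul_sum]
      have e1 : ∑ c ∈ Bu w, ∑ d ∈ Fl w, (σ w c - σ w d) =
          ((Fl w).card : ℝ) * ∑ c ∈ Bu w, σ w c - ((Bu w).card : ℝ) * ∑ d ∈ Fl w, σ w d := by
        simp only [Finset.sum_sub_distrib, Finset.sum_const, nsmul_eq_mul]
        rw [← Finset.mul_sum]
      rw [e1]
      push_cast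
      ring
    rw [Finset.sum_congr rfl h1, Finset.sum_add_distrib, sum_up' T n]
    have h2 : ∀ w ∈ K n, ∑ c ∈ Fl w, (h (up w c) * ∑ d ∈ Fl (up w c), (σ (up w c) c - σ (up w c) d)) = 0 := by
      intro w hw
      have h3 : ∀ c ∈ Fl w, (h (up w c) * ∑ d ∈ Fl (up w c), (σ (up w c) c - σ (up w c) d)) =
          h w * ∑ d ∈ Fl w, (σ w c - σ w d) := by
        intro c hc
        rw [hh n w hw c hc]
        congr 1
        rw [T.up_fl n w hw c hc]
        have h4 : ∑ d ∈ Fl w, (σ w c - σ w d) = ∑ d ∈ (Fl w).erase c, (σ w c - σ w d) := by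
          rw [← Finset.add_sum_erase _ _ hc]
          simp
        rw [h4]
        refine Finset.sum_congr rfl fun d hd => ?_
        rw [S.up_σ n w hw c hc c (mem_union_left _ hc),
          S.up_σ n w hw c hc d (mem_union_left _ (mem_of_mem_erase hd))]
      rw [Finset.sum_congr rfl h3, ← Finset.mul_sum]
      have h5 : ∑ c ∈ Fl w, ∑ d ∈ Fl w, (σ w c - σ w d) = 0 := by
        simp only [Finset.sum_sub_distrib, Finset.sum_const, nsmul_eq_mul]
        rw [← Finset.mul_sum]
        ring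
      rw [h5, mul_zero]
    rw [Finset.sum_congr rfl h2, Finset.sum_const_zero, add_zero]

/-- the mean over the classes -/
theorem sum_A (T : Tog K Fl Bu up dn) {A : α → ℝ} {σ : α → ι → ℝ} (S : Sgn K Fl Bu up A σ) (n : ℕ) :
    ∑ w ∈ K n, A w = ∑ w ∈ K n, (A0 Bu A σ w +
      ((Bu w).card : ℝ) * (sg Fl Bu σ w / (((Fl w).card + (Bu w).card : ℕ) : ℝ))) := by
  have h1 := exch T S (inv_card T (fun m => 1 / (m : ℝ))) n
  have h2 : ∀ w ∈ K n, A w = A0 Bu A σ w + (1 / (((Fl w).card + (Bu w).card : ℕ) : ℝ)) *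
      ((((Fl w).card + (Bu w).card : ℕ) : ℝ) * ∑ c ∈ Bu w, σ w c) := by
    intro w hw
    unfold A0
    by_cases h0 : (((Fl w).card + (Bu w).card : ℕ) : ℝ) = 0
    · have h3 : (Fl w).card + (Bu w).card = 0 := by exact_mod_cast h0
      have h4 : Bu w = ∅ := by rw [← Finset.card_eq_zero]; omega
      rw [h4]
      simp
    · rw [← mul_assoc, one_div_mul_cancel h0]
      ring
  rw [Finset.sum_congr rfl h2, Finset.sum_add_distrib, h1, ← Finset.sum_add_distrib]
  refine Finset.sum_congr rfl fun w _ => ?_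
  ring

end

end Pool.Agent.T6.H92.TG
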