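import Pool.Agent.T6.H92.TG.Defs3

/-! Module QUL of helper92's project TG: the differences of a quotient, local version. -/

set_option autoImplicit false

namespace Pool.Agent.T6.H92.TG.ModQul

open Finset

theorem D_next (j : ℕ) (u : ℕ → ℝ) (n : ℕ) : D j u (n + 1) = D (j + 1) u n + D j u n := by
  show D j u (n + 1) = (D j u (n + 1) - D j u n) + D j u n
  ring

/-- Leibniz rule -/
theorem leib (u v : ℕ → ℝ) : ∀ (a n : ℕ), D a (fun m => u m * v m) n =
    ∑ j ∈ range (a + 1), (a.choose j : ℝ) * (D j u n * D (a - j) v (n + j)) := by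
  intro a
  induction a with
  | zero => intro n; simp [D]
  | succ a ih =>
    intro n
    have h0 : D (a + 1) (fun m => u m * v m) n =
        D a (fun m => u m * v m) (n + 1) - D a (fun m => u m * v m) n := rfl
    have h1 : ∀ j ∈ range (a + 1),
        (a.choose j : ℝ) * (D j u (n + 1) * D (a - j) v (n + 1 + j)) -
          (a.choose j : ℝ) * (D j u n * D (a - j) v (n + j)) =
        (a.choose j : ℝ) * (D (j + 1) u n * D (a + 1 - (j + 1)) v (n + (j + 1))) +
          (a.choose j : ℝ) * (D j u n * D (a + 1 - j) v (n + j)) := by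
      intro j hj
      rw [mem_range] at hj
      have e1 : a + 1 - (j + 1) = a - j := by omega
      have e2 : a + 1 - j = (a - j) + 1 := by omega
      have e3 : n + 1 + j = n + j + 1 := by omega
      have e4 : n + (j + 1) = n + j + 1 := by omega
      have e5 : D (a - j + 1) v (n + j) = D (a - j) v (n + j + 1) - D (a - j) v (n + j) := rfl
      rw [e1, e2, e3, e4, e5, D_next j u n]
      ring
    rw [h0, ih, ih, ← sum_sub_distrib, sum_congr rfl h1, sum_add_distrib]
    -- Pascal
    have h2 : ∑ j ∈ range (a + 1), (a.choose j : ℝ) * (D j u n * D (a + 1 - j) v (n + j)) =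
        (D 0 u n * D (a + 1) v n) +
          ∑ j ∈ range (a + 1), (a.choose (j + 1) : ℝ) *
            (D (j + 1) u n * D (a + 1 - (j + 1)) v (n + (j + 1))) := by
      rw [sum_range_succ' (fun j => (a.choose j : ℝ) * (D j u n * D (a + 1 - j) v (n + j))) a,
        sum_range_succ (fun j => (a.choose (j + 1) : ℝ) *
            (D (j + 1) u n * D (a + 1 - (j + 1)) v (n + (j + 1)))) a]
      simp only [Nat.choose_succ_self, Nat.choose_zero_right, Nat.cast_zero, Nat.cast_one, zero_mul,
        add_zero, Nat.sub_zero, one_mul]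
      ring
    rw [h2, sum_range_succ' (fun j => ((a + 1).choose j : ℝ) *
      (D j u n * D (a + 1 - j) v (n + j))) (a + 1)]
    simp only [Nat.choose_zero_right, Nat.cast_one, Nat.sub_zero, add_zero, one_mul]
    have h3 : ∑ j ∈ range (a + 1), ((a + 1).choose (j + 1) : ℝ) *
        (D (j + 1) u n * D (a + 1 - (j + 1)) v (n + (j + 1))) =
        ∑ j ∈ range (a + 1), (a.choose j : ℝ) *
          (D (j + 1) u n * D (a + 1 - (j + 1)) v (n + (j + 1))) +
        ∑ j ∈ range (a + 1), (a.choose (j + 1) : ℝ) *
          (D (j + 1) u n * D (a + 1 - (j + 1)) v (n + (j + 1))) := by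
      rw [← sum_add_distrib]
      refine sum_congr rfl fun j _ => ?_
      rw [Nat.choose_succ_succ]
      push_cast
      ring
    rw [h3]
    ring

end Pool.Agent.T6.H92.TG.ModQul

namespace Pool.Agent.T6.H92.TG

open Finset ModQul in
/-- **QUL** -/
theorem qul : StmQul := by
  intro k Cv c hc
  -- induction on the order
  have key : ∀ m : ℕ, ∃ C : ℝ, 0 ≤ C ∧ ∀ (u v : ℕ → ℝ) (N : ℕ) (ε B : ℝ),
      0 ≤ ε → 0 ≤ B → 0 < v N → (∀ l ≤ k, c * v N ≤ v (N + l)) →
      (∀ a ≤ k, ∀ l ≤ k, |D a v (N + l)| ≤ Cv * (ε ^ a * v N)) →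
      (∀ a ≤ k, |D a (fun m => u m * v m) N| ≤ Cv * (ε ^ a * (B * v N))) →
      ∀ a ≤ m, a ≤ k → |D a u N| ≤ C * (ε ^ a * B) := by
    intro m
    induction m with
    | zero =>
      refine ⟨|Cv| / c, by positivity, ?_⟩
      intro u v N ε B hε hB hv hl h1 h2 a ha hak
      obtain rfl : a = 0 := by omega
      have h3 := h2 0 (by omega)
      have h4 := hl 0 (by omega)
      simp only [D, pow_zero, one_mul, add_zero] at h3 h4 ⊢
      rw [abs_mul, abs_of_pos hv] at h3
      have h5 : |u N| ≤ Cv * B := by
        have : |u N| * v N ≤ Cv * B * v N := by linarith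
        exact le_of_mul_le_mul_right this hv
      have hc1 : c ≤ 1 := by
        by_contra hcon
        rw [not_le] at hcon
        nlinarith
      calc |u N| ≤ Cv * B := h5
        _ ≤ |Cv| * B := mul_le_mul_of_nonneg_right (le_abs_self _) hB
        _ ≤ |Cv| / c * B := by
            apply mul_le_mul_of_nonneg_right _ hB
            rw [le_div_iff₀ hc]
            nlinarith [abs_nonneg Cv]
    | succ m ih =>
      obtain ⟨C, hC0, hC⟩ := ih
      refine ⟨max C (|Cv| * (1 + C * 2 ^ (m + 1)) / c), le_max_of_le_left hC0, ?_⟩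
      intro u v N ε B hε hB hv hl h1 h2 a ha hak
      have h3 := hC u v N ε B hε hB hv hl h1 h2
      rcases Nat.lt_or_ge a (m + 1) with hlt | hge
      · refine (h3 a (by omega) hak).trans ?_
        exact mul_le_mul_of_nonneg_right (le_max_left _ _) (by positivity)
      obtain rfl : a = m + 1 := by omega
      have h4 := leib u v (m + 1) N
      rw [sum_range_succ] at h4
      simp only [Nat.choose_self, Nat.cast_one, one_mul, Nat.sub_self] at h4
      have h5 : D (m + 1) u N * v (N + (m + 1)) = D (m + 1) (fun m => u m * v m) N -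
          ∑ j ∈ range (m + 1), ((m + 1).choose j : ℝ) * (D j u N * D (m + 1 - j) v (N + j)) := by
        rw [h4]
        simp only [D]
        ring
      have hCv : 0 ≤ |Cv| := abs_nonneg _
      have h6 : |∑ j ∈ range (m + 1), ((m + 1).choose j : ℝ) *
          (D j u N * D (m + 1 - j) v (N + j))| ≤
          |Cv| * (C * 2 ^ (m + 1)) * (ε ^ (m + 1) * (B * v N)) := by
        refine (abs_sum_le_sum_abs _ _).trans ?_
        have h7 : ∀ j ∈ range (m + 1), |((m + 1).choose j : ℝ) *
            (D j u N * D (m + 1 - j) v (N + j))| ≤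
            ((m + 1).choose j : ℝ) * (|Cv| * C * (ε ^ (m + 1) * (B * v N))) := by
          intro j hj
          rw [mem_range] at hj
          rw [abs_mul, abs_mul, Nat.abs_cast]
          apply mul_le_mul_of_nonneg_left _ (Nat.cast_nonneg _)
          have h8 := h3 j (by omega) (by omega)
          have h9 := h1 (m + 1 - j) (by omega) j (by omega)
          have h10 : |D (m + 1 - j) v (N + j)| ≤ |Cv| * (ε ^ (m + 1 - j) * v N) :=
            h9.trans (mul_le_mul_of_nonneg_right (le_abs_self _) (by positivity))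
          have e : ε ^ (m + 1) = ε ^ j * ε ^ (m + 1 - j) := by
            rw [← pow_add]
            congr 1
            omega
          calc |D j u N| * |D (m + 1 - j) v (N + j)|
              ≤ (C * (ε ^ j * B)) * (|Cv| * (ε ^ (m + 1 - j) * v N)) :=
                mul_le_mul h8 h10 (abs_nonneg _) (by positivity)
            _ = |Cv| * C * (ε ^ (m + 1) * (B * v N)) := by rw [e]; ring
        refine (sum_le_sum h7).trans ?_
        rw [← sum_mul]
        have h11 : (∑ j ∈ range (m + 1), ((m + 1).choose j : ℝ)) ≤ 2 ^ (m + 1) := by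
          have h12 := Nat.sum_range_choose (m + 1)
          rw [sum_range_succ] at h12
          have h13 : ∑ j ∈ range (m + 1), (m + 1).choose j ≤ 2 ^ (m + 1) := by omega
          exact_mod_cast h13
        calc (∑ j ∈ range (m + 1), ((m + 1).choose j : ℝ)) *
              (|Cv| * C * (ε ^ (m + 1) * (B * v N)))
            ≤ 2 ^ (m + 1) * (|Cv| * C * (ε ^ (m + 1) * (B * v N))) :=
              mul_le_mul_of_nonneg_right h11 (by positivity)
          _ = _ := by ring
      have h7 : |D (m + 1) (fun m => u m * v m) N| ≤ |Cv| * (ε ^ (m + 1) * (B * v N)) :=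
        (h2 (m + 1) hak).trans (mul_le_mul_of_nonneg_right (le_abs_self _) (by positivity))
      have h8 : |D (m + 1) u N| * v (N + (m + 1)) ≤
          |Cv| * (1 + C * 2 ^ (m + 1)) * (ε ^ (m + 1) * (B * v N)) := by
        have hvp : 0 ≤ v (N + (m + 1)) := le_trans (by positivity) (hl (m + 1) hak)
        rw [← abs_of_nonneg hvp, ← abs_mul, h5]
        refine (abs_sub _ _).trans ?_
        calc _ ≤ |Cv| * (ε ^ (m + 1) * (B * v N)) +
              |Cv| * (C * 2 ^ (m + 1)) * (ε ^ (m + 1) * (B * v N)) := add_le_add h7 h6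
          _ = _ := by ring
      have h9 : |D (m + 1) u N| * (c * v N) ≤
          |Cv| * (1 + C * 2 ^ (m + 1)) * (ε ^ (m + 1) * (B * v N)) :=
        (mul_le_mul_of_nonneg_left (hl (m + 1) hak) (abs_nonneg _)).trans h8
      have h10 : |D (m + 1) u N| ≤ |Cv| * (1 + C * 2 ^ (m + 1)) / c * (ε ^ (m + 1) * B) := by
        rw [div_mul_eq_mul_div, le_div_iff₀ hc]
        have h11 : |D (m + 1) u N| * c * v N ≤
            |Cv| * (1 + C * 2 ^ (m + 1)) * (ε ^ (m + 1) * B) * v N := by
          calc |D (m + 1) u N| * c * v N = |D (m + 1) u N| * (c * v N) := by ring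
            _ ≤ _ := h9
            _ = _ := by ring
        exact le_of_mul_le_mul_right h11 hv
      exact h10.trans (mul_le_mul_of_nonneg_right (le_max_right _ _) (by positivity))
  obtain ⟨C, -, hC⟩ := key k
  exact ⟨C, fun u v N ε B hε hB hv hl h1 h2 a ha => hC u v N ε B hε hB hv hl h1 h2 a ha ha⟩

end Pool.Agent.T6.H92.TG
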