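import Pool.Agent.T6.H92.TG.Defs2

/-!
# All-order smoothness in the length: module ARE
-/

set_option autoImplicit false

namespace Pool.Agent.T6.H92.TG

open Finset Pool.Agent.H976R2 Pool.Agent.H976R2.Lip Pool.Agent.H924P Pool.Agent.H739K
  Pool.Agent.T6.H92.SP Pool.Agent.H739K.AREAx

namespace ModAre

theorem ed_spec (p q c : ℤ × ℤ) : ((((p.1 = c.1 ∧ q.1 = c.1 + 1) ∨ (p.1 = c.1 + 1 ∧ q.1 = c.1)) ∧
    c.2 < p.2) ∧ ed p q c = 1) ∨ (¬ (((p.1 = c.1 ∧ q.1 = c.1 + 1) ∨
    (p.1 = c.1 + 1 ∧ q.1 = c.1)) ∧ c.2 < p.2) ∧ ed p q c = 0) := by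
  by_cases h : Q p q c
  · left
    exact ⟨h, if_pos h⟩
  · right
    exact ⟨h, if_neg h⟩

/-- the parity changes at the cell itself -/
theorem local_flip (P c : ℤ × ℤ) (d e : Dir) (h : perp e d)
    (hc : c = (min P.1 (P.1 + dx e + dx d), min P.2 (P.2 + dy e + dy d))) :
    (ed P (P + dv e) c + (ed (P + dv e) (P + dv e + dv d) c +
      ed (P + dv e + dv d) (P + dv d) c)) % 2 = (ed P (P + dv d) c + 1) % 2 := by
  have s1 := ed_spec P (P + dv e) c
  have s2 := ed_spec (P + dv e) (P + dv e + dv d) c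
  have s3 := ed_spec (P + dv e + dv d) (P + dv d) c
  have s4 := ed_spec P (P + dv d) c
  generalize ed P (P + dv e) c = n1 at s1 ⊢
  generalize ed (P + dv e) (P + dv e + dv d) c = n2 at s2 ⊢
  generalize ed (P + dv e + dv d) (P + dv d) c = n3 at s3 ⊢
  generalize ed P (P + dv d) c = n4 at s4 ⊢
  obtain ⟨x, y⟩ := P
  obtain ⟨a, b⟩ := c
  obtain ⟨ha, hb⟩ := Prod.mk.inj hc
  clear hc
  cases e <;> cases d <;> simp [perp, dx, dy] at h <;>
    simp only [dx, dy] at ha hb <;>
    simp only [dv, dx, dy, Prod.mk_add_mk] at s1 s2 s3 s4 <;>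
    omega

open scoped Classical in
theorem encl_flip (w : List Dir) (i : ℕ) (e : Dir) (hi : i < w.length) (he : perp e (lt w i))
    (c : ℤ × ℤ) (hc : c = (min (PP w i).1 ((PP w i).1 + dx e + dx (lt w i)),
      min (PP w i).2 ((PP w i).2 + dy e + dy (lt w i)))) :
    Encl ((ins w i e).length + 1) (lp ((ins w i e).length + 1) (ins w i e)) c ↔
      ¬ Encl (w.length + 1) (lp (w.length + 1) w) c := by
  rw [encl_iff, encl_iff]
  have hs := split_at w i hi
  set d := lt w i with hd
  have hins : ins w i e = w.take i ++ (e :: d :: opp e :: w.drop (i + 1)) := rfl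
  have hdisp : disp (ins w i e) = disp w := by
    rw [hins]
    conv_rhs => rw [hs]
    unfold disp
    simp only [wX_append, wY_append, wX_cons, wY_cons, dx_opp, dy_opp, Prod.mk.injEq]
    constructor <;> ring
  have hP : (0 : ℤ × ℤ) + disp (w.take i) = PP w i := by rw [zero_add]; rfl
  have h1 : cw c 0 (ins w i e) = cw c 0 (w.take i) + (ed (PP w i) (PP w i + dv e) c +
      (ed (PP w i + dv e) (PP w i + dv e + dv d) c +
      (ed (PP w i + dv e + dv d) (PP w i + dv d) c + cw c (PP w i + dv d) (w.drop (i + 1))))) := by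
    rw [hins, cw_append, hP]
    simp only [cw]
    have h2 : PP w i + dv e + dv d + dv (opp e) = PP w i + dv d := by
      unfold dv
      rw [dx_opp, dy_opp]
      ext
      · simp only [Prod.fst_add]; ring
      · simp only [Prod.snd_add]; ring
    rw [h2]
  have h2 : cw c 0 w = cw c 0 (w.take i) + (ed (PP w i) (PP w i + dv d) c +
      cw c (PP w i + dv d) (w.drop (i + 1))) := by
    conv_lhs => rw [hs]
    rw [cw_append, hP]
    simp only [cw]
  have h3 := local_flip (PP w i) c d e he hc
  rw [hdisp, h1, h2, Nat.not_odd_iff_even, Nat.odd_iff, Nat.even_iff]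
  omega

theorem abs_of_sq (a b : ℤ) (h : a ^ 2 + b ^ 2 = 1) : |0 - a| + |0 - b| = 1 := by
  have a1 : -1 ≤ a := by nlinarith [sq_nonneg b]
  have a2 : a ≤ 1 := by nlinarith [sq_nonneg b]
  have b1 : -1 ≤ b := by nlinarith [sq_nonneg a]
  have b2 : b ≤ 1 := by nlinarith [sq_nonneg a]
  interval_cases a <;> interval_cases b <;> simp_all

theorem steps (w : List Dir) (hsq : sq w = 1) (k : ZMod (w.length + 1)) :
    |(lp (w.length + 1) w (k + 1)).1 - (lp (w.length + 1) w k).1| +
      |(lp (w.length + 1) w (k + 1)).2 - (lp (w.length + 1) w k).2| = 1 := by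
  have hlp : ∀ k : ZMod (w.length + 1), lp (w.length + 1) w k = PP w k.val := fun k => rfl
  rw [hlp, hlp]
  by_cases hk : k.val < w.length
  · have h1 : (k + 1).val = k.val + 1 := by
      have h2 : ((k.val + 1 : ℕ) : ZMod (w.length + 1)) = k + 1 := by
        push_cast
        rw [ZMod.natCast_zmod_val]
      rw [← h2]
      exact ZMod.val_cast_of_lt (by omega)
    rw [h1, PP_succ w k.val hk]
    simp only [Prod.fst_add, Prod.snd_add, add_sub_cancel_left, dv]
    cases lt w k.val <;> simp [dx, dy]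
  · have hk' : k.val = w.length := by
      have := ZMod.val_lt k
      omega
    have h1 : k + 1 = 0 := by
      have h2 : ((k.val : ℕ) : ZMod (w.length + 1)) = k := ZMod.natCast_zmod_val k
      rw [← h2, hk']
      have h3 : ((w.length + 1 : ℕ) : ZMod (w.length + 1)) = 0 := ZMod.natCast_self _
      rw [← h3]
      push_cast
      rfl
    rw [h1, ZMod.val_zero, hk']
    have h4 : PP w 0 = (0, 0) := by simp [PP]
    have h5 : PP w w.length = (wX w, wY w) := by simp [PP]
    rw [h4, h5]
    apply abs_of_sq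
    have h6 : ((wX w : ℝ)) ^ 2 + (wY w : ℝ) ^ 2 = 1 := hsq
    exact_mod_cast h6

theorem fin (w : List Dir) (hsq : sq w = 1) : {c | EN w c}.Finite := by
  have h1 := HORaux.finite_encl (f := lp (w.length + 1) w) (steps w hsq)
  have h2 : Finite {c : ℤ × ℤ // c ∈ {c | EN w c}} := h1
  exact Set.toFinite _

theorem ar_eq (w : List Dir) : ar w = {c | EN w c}.ncard := rfl

end ModAre

open ModAre

theorem are : StmAre := by
  intro w i e hw hsq hadm
  have hadm' := hadm
  rw [Lip.mem_adm hw] at hadm
  obtain ⟨hi, hp, _, _⟩ := hadm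
  have h1 : EN (ins w i e) (acell w i e) ↔ ¬ EN w (acell w i e) :=
    encl_flip w i e hi hp _ rfl
  have h2 : ∀ c : ℤ × ℤ, c ≠ acell w i e → (EN (ins w i e) c ↔ EN w c) :=
    fun c hc => AREAx.encl_same w i e hi hp c hc
  refine ⟨h1, h2, ?_⟩
  have hsq' : sq (ins w i e) = 1 := by
    rw [sq_ins e hi]; exact hsq
  have f1 := fin w hsq
  rw [ar_eq, ar_eq]
  by_cases hE : EN w (acell w i e)
  · rw [if_pos hE]
    have hset : {c | EN (ins w i e) c} = {c | EN w c} \ {acell w i e} := by
      ext c
      by_cases hc : c = acell w i e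
      · subst hc
        simp only [Set.mem_ofPred_eq, Set.mem_sdiff, Set.mem_singleton_iff, not_true_eq_false,
          and_false, iff_false]
        exact fun h => h1.mp h hE
      · simp only [Set.mem_ofPred_eq, Set.mem_sdiff, Set.mem_singleton_iff, hc, not_false_eq_true,
          and_true]
        exact h2 c hc
    have h3 := Set.ncard_sdiff_singleton_add_one (s := {c | EN w c}) (a := acell w i e) hE f1
    rw [hset]
    have h4 : (({c | EN w c} \ {acell w i e}).ncard : ℝ) + 1 = ({c | EN w c}.ncard : ℝ) := by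
      exact_mod_cast h3
    linarith
  · rw [if_neg hE]
    have hset : {c | EN (ins w i e) c} = insert (acell w i e) {c | EN w c} := by
      ext c
      by_cases hc : c = acell w i e
      · subst hc
        simp only [Set.mem_ofPred_eq, Set.mem_insert_iff, true_or, iff_true]
        exact h1.mpr hE
      · simp only [Set.mem_ofPred_eq, Set.mem_insert_iff, hc, false_or]
        exact h2 c hc
    have hE' : acell w i e ∉ {c | EN w c} := hE
    rw [hset, Set.ncard_insert_of_notMem hE' f1]
    push_cast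
    ring

end Pool.Agent.T6.H92.TG
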