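import Pool.Agent.T6.H92.TG.Defs2

/-!
# All-order smoothness in the length: module BXI

An insertion across an inner cell does not change the bounding box.
-/

set_option autoImplicit false

namespace Pool.Agent.T6.H92.TG

open Finset Pool.Agent.H976R2 Pool.Agent.H976R2.Lip Pool.Agent.H924P Pool.Agent.H739K
  Pool.Agent.T6.H92.SP

theorem bxi : StmBxi := by
  intro w i e hw hadm hin
  rw [Lip.mem_adm hw] at hadm
  obtain ⟨hi, he, -, -⟩ := hadm
  obtain ⟨Mx, mx, My, my, hb, h1, h2, h3, h4⟩ := BOXx.exists_box w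
  have h := BOXx.bx_ins w i e hi he Mx mx My my hb h1 h2 h3 h4
  obtain ⟨⟨p1, v1, q1⟩, ⟨p2, v2, q2⟩, ⟨p3, v3, q3⟩, ⟨p4, v4, q4⟩⟩ := hin
  have b1 := hb _ v1
  have b2 := hb _ v2
  have b3 := hb _ v3
  have b4 := hb _ v4
  unfold acell at q1 q2 q3 q4
  simp only at q1 q2 q3 q4
  rw [if_neg] at h
  · omega
  · clear h hb h1 h2 h3 h4
    rintro (⟨rfl, h⟩ | ⟨rfl, h⟩ | ⟨rfl, h⟩ | ⟨rfl, h⟩)
    · have hd : dy (lt w i) = 0 := by
        revert he; cases lt w i <;> simp [perp, dx, dy]
      rw [hd, show dy Dir.N = 1 from rfl] at q4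
      omega
    · have hd : dy (lt w i) = 0 := by
        revert he; cases lt w i <;> simp [perp, dx, dy]
      rw [hd, show dy Dir.S = -1 from rfl] at q3
      omega
    · have hd : dx (lt w i) = 0 := by
        revert he; cases lt w i <;> simp [perp, dx, dy]
      rw [hd, show dx Dir.E = 1 from rfl] at q2
      omega
    · have hd : dx (lt w i) = 0 := by
        revert he; cases lt w i <;> simp [perp, dx, dy]
      rw [hd, show dx Dir.W = -1 from rfl] at q1
      omega

end Pool.Agent.T6.H92.TG
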