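import Pool.Agent.T6.H92.TG.Defs2
import Pool.Agent.T6.H53.WL.Tail
import Pool.Agent.H739K.CONV
import Pool.Agent.H739K.SWAP

/-!
# Module BXT: polygons with a large bounding box are rare
-/

set_option autoImplicit false

namespace Pool.Agent.T6.H92.TG

open Finset Pool.Agent.H976R2 Pool.Agent.H976R2.Lip Pool.Agent.H924P Pool.Agent.H739K
  Pool.Agent.T6.H92.SP
open scoped Classical

noncomputable section

namespace BXTx

open Pool.Agent.T6.H53.WL (Yv wide_bounds one_le_Yv log_inv_nonneg)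
open Pool.Agent.Y981.L2 (pw pw_ceil)

theorem fin_loops {N : ℕ} (hN : 2 ≤ N) :
    {f : ZMod (2 * N) → ℤ × ℤ | IsLoop (2 * N) f}.Finite :=
  Pool.Agent.Y981.L2.loops_finite (by omega)

/-- sums of indicators over the loops -/
theorem ind_sum {N : ℕ} (hN : 2 ≤ N) (P : (ZMod (2 * N) → ℤ × ℤ) → Prop) :
    ∑ᶠ f ∈ {f : ZMod (2 * N) → ℤ × ℤ | IsLoop (2 * N) f}, (if P f then (1 : ℝ) else 0) =
      ({f : ZMod (2 * N) → ℤ × ℤ | IsLoop (2 * N) f ∧ P f}.ncard : ℝ) := by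
  rw [finsum_mem_eq_finite_toFinset_sum _ (fin_loops hN), Finset.sum_boole]
  have h1 : {f : ZMod (2 * N) → ℤ × ℤ | IsLoop (2 * N) f ∧ P f} =
      (((fin_loops hN).toFinset.filter P : Finset (ZMod (2 * N) → ℤ × ℤ)) :
        Set (ZMod (2 * N) → ℤ × ℤ)) := by
    ext f
    simp
  rw [h1, Set.ncard_coe_finset]

/-- words and loops -/
theorem words {N : ℕ} (hN : 2 ≤ N) (P : (ZMod (2 * N) → ℤ × ℤ) → Prop) :
    (((KP (2 * N - 1)).filter (fun w => P (lp (2 * N) w))).card : ℝ) =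
      ({f : ZMod (2 * N) → ℤ × ℤ | IsLoop (2 * N) f ∧ P f}.ncard : ℝ) := by
  obtain ⟨c1, -, -⟩ := CONV_proof N hN
  have h1 := c1 (fun f => if P f then (1 : ℝ) else 0)
  rw [ind_sum hN, Finset.sum_boole] at h1
  exact h1.symm

theorem width_count {N : ℕ} (hN : 2 ≤ N) (r : ℝ) :
    (((KP (2 * N - 1)).filter (fun w => r ≤ (width (2 * N) (lp (2 * N) w) : ℝ))).card : ℝ) =
      pw N r * ((KP (2 * N - 1)).card : ℝ) := by
  rw [words hN (fun f => r ≤ (width (2 * N) f : ℝ))]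
  obtain ⟨-, c2, -⟩ := CONV_proof N hN
  have e : pw N r =
      ({f : ZMod (2 * N) → ℤ × ℤ | IsLoop (2 * N) f ∧ r ≤ (width (2 * N) f : ℝ)}.ncard : ℝ) /
      ({f : ZMod (2 * N) → ℤ × ℤ | IsLoop (2 * N) f}.ncard : ℝ) := rfl
  rw [e, ← c2]
  by_cases h0 : {f : ZMod (2 * N) → ℤ × ℤ | IsLoop (2 * N) f}.ncard = 0
  · have h1 : {f : ZMod (2 * N) → ℤ × ℤ | IsLoop (2 * N) f ∧
        r ≤ (width (2 * N) f : ℝ)}.ncard ≤
        {f : ZMod (2 * N) → ℤ × ℤ | IsLoop (2 * N) f}.ncard :=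
      Set.ncard_le_ncard (fun f hf => hf.1) (fin_loops hN)
    have h2 : {f : ZMod (2 * N) → ℤ × ℤ | IsLoop (2 * N) f ∧
        r ≤ (width (2 * N) f : ℝ)}.ncard = 0 := by omega
    rw [h2, h0]
    simp
  · rw [div_mul_cancel₀]
    exact_mod_cast h0

theorem height_count {N : ℕ} (hN : 2 ≤ N) (r : ℝ) :
    (((KP (2 * N - 1)).filter (fun w => r ≤ (height (2 * N) (lp (2 * N) w) : ℝ))).card : ℝ) =
      pw N r * ((KP (2 * N - 1)).card : ℝ) := by
  rw [← width_count hN, words hN (fun f => r ≤ (width (2 * N) f : ℝ)),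
    words hN (fun f => r ≤ (height (2 * N) f : ℝ)), ← ind_sum hN, ← ind_sum hN]
  exact SWAP_proof (2 * N) (by omega)
    (fun f => if r ≤ (width (2 * N) f : ℝ) then (1 : ℝ) else 0)

theorem Yv_anti {u v : ℝ} (hu : 0 < u) (huv : u ≤ v) (hv : v ≤ 1) : Yv v ≤ Yv u := by
  have h1 : Real.log (1 / v) ≤ Real.log (1 / u) := by
    apply Real.log_le_log (by have := hu.trans_le huv; positivity)
    exact one_div_le_one_div_of_le hu huv
  have h2 := log_inv_nonneg (hu.trans_le huv) hv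
  have h3 : Real.log (1 + Real.log (1 / v)) ≤ Real.log (1 + Real.log (1 / u)) :=
    Real.log_le_log (by linarith) (by linarith)
  have h4 : 0 ≤ Real.log (1 + Real.log (1 / v)) := Real.log_nonneg (by linarith)
  unfold Yv
  apply mul_le_mul (by linarith) (by linarith) (by linarith) (by linarith)

theorem log_sq_le {x : ℝ} (hx : 1 ≤ x) : Real.log x ^ 2 ≤ 16 * Real.sqrt x := by
  have h1 := Real.log_le_rpow_div (show 0 ≤ x by linarith) (show (0 : ℝ) < 1 / 4 by norm_num)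
  have h2 := Real.log_nonneg hx
  have h3 : (x ^ (1 / 4 : ℝ)) ^ 2 = Real.sqrt x := by
    rw [← Real.rpow_natCast, ← Real.rpow_mul (by linarith), Real.sqrt_eq_rpow]
    norm_num
  have h4 : Real.log x ^ 2 ≤ (x ^ (1 / 4 : ℝ) / (1 / 4)) ^ 2 := pow_le_pow_left₀ h2 h1 2
  calc Real.log x ^ 2 ≤ (x ^ (1 / 4 : ℝ) / (1 / 4)) ^ 2 := h4
    _ = 16 * (x ^ (1 / 4 : ℝ)) ^ 2 := by ring
    _ = _ := by rw [h3]

theorem absorb {C κ x : ℝ} (hC : 0 ≤ C) (hκ : 0 < κ) (hx : 1 ≤ x) :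
    C * Real.log x ^ 2 ≤ 64 * C ^ 2 / κ + κ * x := by
  have h1 := log_sq_le hx
  have h2 : Real.sqrt x ^ 2 = x := Real.sq_sqrt (by linarith)
  have h3 : C * Real.log x ^ 2 ≤ C * (16 * Real.sqrt x) := mul_le_mul_of_nonneg_left h1 hC
  refine h3.trans ?_
  rw [div_add' _ _ _ hκ.ne', le_div_iff₀ hκ]
  have h4 := sq_nonneg (κ * Real.sqrt x - 8 * C)
  have h5 : (κ * Real.sqrt x - 8 * C) ^ 2 =
      κ * (Real.sqrt x ^ 2) * κ - C * (16 * Real.sqrt x) * κ + 64 * C ^ 2 := by ring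
  rw [h5, h2] at h4
  linarith

end BXTx

open BXTx in
/-- Module BXT. -/
theorem bxt : StmBxt := by
  intro δ hδ
  obtain ⟨C, hC, hw⟩ := Pool.Agent.T6.H53.WL.wide_bounds
  set d := min δ (1 / 2) with hd
  have hd0 : 0 < d := lt_min hδ (by norm_num)
  have hdδ : d ≤ δ := min_le_left _ _
  have hd1 : d ≤ 1 / 2 := min_le_right _ _
  set κ := Real.exp (-(C * Pool.Agent.T6.H53.WL.Yv (d / 4))) with hκ
  have hκ0 : 0 < κ := Real.exp_pos _
  refine ⟨2 * Real.exp (64 * C ^ 2 / κ), κ, by positivity, hκ0, ?_⟩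
  intro n hn
  have hnr : (1 : ℝ) ≤ n := by exact_mod_cast hn
  set N := n + 1 with hN
  have hN2 : 2 ≤ N := by omega
  have hNr : (N : ℝ) = n + 1 := by rw [hN]; push_cast; ring
  set r : ℝ := d * n / 2 with hr
  have hr0 : 0 < r := by positivity
  set k := ⌈r⌉₊ with hk
  have hk1 : 1 ≤ k := Nat.one_le_iff_ne_zero.2 (by rw [hk]; exact (Nat.ceil_pos.2 hr0).ne')
  have hkN : k < N := by
    have h1 : k ≤ n := by
      rw [hk, Nat.ceil_le, hr]
      nlinarith
    omega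
  have hkr : r ≤ k := Nat.le_ceil r
  -- the bound of the tail
  have hpw : Pool.Agent.Y981.L2.pw N r ≤ Real.exp (64 * C ^ 2 / κ) * Real.exp (-(κ * n)) := by
    rw [Pool.Agent.Y981.L2.pw_ceil, ← hk]
    refine (hw N hN2 k hk1 hkN).2.trans ?_
    rw [← Real.exp_add]
    apply Real.exp_le_exp.2
    have h1 : d / 4 ≤ (k : ℝ) / N := by
      rw [le_div_iff₀ (by rw [hNr]; linarith), hNr]
      refine le_trans ?_ hkr
      rw [hr]
      nlinarith
    have h2 : (k : ℝ) / N ≤ 1 := by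
      rw [div_le_one (by rw [hNr]; linarith)]
      exact_mod_cast hkN.le
    have h3 := Yv_anti (by positivity) h1 h2
    have h4 : κ ≤ Real.exp (-(C * Pool.Agent.T6.H53.WL.Yv ((k : ℝ) / N))) := by
      rw [hκ]
      apply Real.exp_le_exp.2
      apply neg_le_neg
      exact mul_le_mul_of_nonneg_left h3 (by linarith)
    have h5 := absorb (show 0 ≤ C by linarith) hκ0 (show (1 : ℝ) ≤ N by rw [hNr]; linarith)
    have h6 : 2 * (N : ℝ) * κ ≤
        2 * N * Real.exp (-(C * Pool.Agent.T6.H53.WL.Yv ((k : ℝ) / N))) := by gcongr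
    have h7 : κ * n ≤ κ * N := by
      rw [hNr]
      nlinarith
    linarith
  -- the numbers
  have e1 : 2 * n + 1 = 2 * N - 1 := by omega
  have hKK : KK (2 * n + 1) = KP (2 * N - 1) := by
    rw [e1]
    rfl
  rw [hKK]
  have h1 : ((KP (2 * N - 1)).filter (fun w => δ * n ≤ (bx w : ℝ))) ⊆
      ((KP (2 * N - 1)).filter (fun w => r ≤ (width (2 * N) (lp (2 * N) w) : ℝ))) ∪
      ((KP (2 * N - 1)).filter (fun w => r ≤ (height (2 * N) (lp (2 * N) w) : ℝ))) := by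
    intro w hw
    rw [mem_filter] at hw
    rw [mem_union, mem_filter, mem_filter]
    obtain ⟨hw1, hw2⟩ := hw
    have hlen : w.length + 1 = 2 * N := by
      have h2 := (mem_filter.1 hw1).1
      rw [mem_SW] at h2
      omega
    unfold bx at hw2
    rw [hlen] at hw2
    by_contra hcon
    push Not at hcon
    have h6 := hcon.1 hw1
    have h7 := hcon.2 hw1
    push_cast at hw2
    have h8 : d * n ≤ δ * n := by gcongr
    rw [hr] at h6 h7
    linarith
  have h2 : (((KP (2 * N - 1)).filter (fun w => δ * n ≤ (bx w : ℝ))).card : ℝ) ≤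
      2 * (Pool.Agent.Y981.L2.pw N r * ((KP (2 * N - 1)).card : ℝ)) := by
    have h3 := (card_le_card h1).trans (card_union_le _ _)
    have h4 : (((KP (2 * N - 1)).filter (fun w => δ * n ≤ (bx w : ℝ))).card : ℝ) ≤
        (((KP (2 * N - 1)).filter
          (fun w => r ≤ (width (2 * N) (lp (2 * N) w) : ℝ))).card : ℝ) +
        (((KP (2 * N - 1)).filter
          (fun w => r ≤ (height (2 * N) (lp (2 * N) w) : ℝ))).card : ℝ) := by
      exact_mod_cast h3
    rw [width_count hN2, height_count hN2] at h4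
    linarith
  calc (((KP (2 * N - 1)).filter (fun w => δ * n ≤ (bx w : ℝ))).card : ℝ) ≤ _ := h2
    _ ≤ 2 * ((Real.exp (64 * C ^ 2 / κ) * Real.exp (-(κ * n))) * ((KP (2 * N - 1)).card : ℝ)) := by
        gcongr
    _ = _ := by ring

end

end Pool.Agent.T6.H92.TG
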