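import Pool.Agent.T6.H92.TG.Defs2
import Pool.Agent.W387.Q.Poly
import Pool.Agent.TH508.LT.Ex2

/-!
# The numbers of polygons
-/

set_option autoImplicit false

namespace Pool.Agent.T6.H92.TG

open Finset Pool.Agent.H976R2 Pool.Agent.H976R2.Lip Pool.Agent.H924P Pool.Agent.H739K
  Pool.Agent.T6.H92.SP
open scoped Classical

noncomputable section

theorem KK_eq (n : ℕ) : KK n = KP n := rfl

theorem mu_ge' : 2.43 ≤ H981.mu := Pool.Agent.W387.Q.bnd.1

theorem bnd2 : ∃ K : ℝ, 0 ≤ K ∧ ∀ n : ℕ, 1 ≤ n →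
    H981.mu * Real.exp (-(K * Real.log (2 * n + 1 : ℕ) ^ 2)) ≤ zz ^ n * ((KK (2 * n + 1)).card : ℝ) ∧
    zz ^ n * ((KK (2 * n + 1)).card : ℝ) ≤ H981.mu * Real.exp (K * Real.log (2 * n + 1 : ℕ) ^ 2) := by
  obtain ⟨hmu, K, hK, h⟩ := Pool.Agent.W387.Q.bnd
  refine ⟨K, hK, fun n hn => ?_⟩
  have hmu0 : 0 < H981.mu := by linarith
  obtain ⟨h1, h2⟩ := h (2 * n + 1) (by omega) (by omega)
  have hz : 0 < zz ^ n := by unfold zz; positivity
  have e : zz ^ n * H981.mu ^ (2 * n + 1) = H981.mu := by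
    unfold zz
    rw [pow_succ H981.mu (2 * n), pow_mul H981.mu 2 n, inv_pow]
    field_simp
  rw [KK_eq]
  constructor
  · calc H981.mu * Real.exp (-(K * Real.log (2 * n + 1 : ℕ) ^ 2)) =
        zz ^ n * (H981.mu ^ (2 * n + 1) * Real.exp (-(K * Real.log (2 * n + 1 : ℕ) ^ 2))) := by
          rw [← mul_assoc, e]
      _ ≤ _ := mul_le_mul_of_nonneg_left h1 hz.le
  · calc zz ^ n * ((KP (2 * n + 1)).card : ℝ) ≤
        zz ^ n * (H981.mu ^ (2 * n + 1) * Real.exp (K * Real.log (2 * n + 1 : ℕ) ^ 2)) :=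
          mul_le_mul_of_nonneg_left h2 hz.le
      _ = _ := by rw [← mul_assoc, e]

theorem card_KK1 : (KK 1).card ≤ 4 := by
  have h4 : (univ : Finset Dir).card = 4 := rfl
  rw [← h4]
  apply Finset.card_le_card_of_injOn (fun w => lt w 0) (fun _ _ => Finset.mem_univ _)
  intro v hv w hw h
  have h1 : v.length = 1 := (mem_SW.1 (Finset.mem_filter.1 hv).1).1
  have h2 : w.length = 1 := (mem_SW.1 (Finset.mem_filter.1 hw).1).1
  obtain ⟨a, rfl⟩ := List.length_eq_one_iff.1 h1
  obtain ⟨b, rfl⟩ := List.length_eq_one_iff.1 h2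
  have h3 : a = b := h
  rw [h3]

theorem cnt : StmCnt := by
  have hmu := mu_ge'
  have hmu0 : 0 < H981.mu := by linarith
  obtain ⟨K, hK, h⟩ := bnd2
  refine ⟨by unfold zz; positivity, ?_, 72 * K + 2, by positivity, ?_⟩
  · unfold zz
    apply inv_le_one_of_one_le₀
    nlinarith
  · intro N hN n hn
    have hN2 : (2 : ℝ) ≤ N := by exact_mod_cast hN
    have hl2 : 0.6931 ≤ Real.log (N : ℝ) := by
      have h1 : Real.log 2 ≤ Real.log (N : ℝ) := Real.log_le_log (by norm_num) hN2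
      have := Real.log_two_gt_d9
      linarith
    have hlog : ∀ m : ℕ, m ≤ 10 * N → Real.log ((2 * m + 1 : ℕ) : ℝ) ≤ 6 * Real.log N := by
      intro m hm
      have h1 : ((2 * m + 1 : ℕ) : ℝ) ≤ (N : ℝ) ^ 6 := by
        have h2 : (2 * m + 1 : ℕ) ≤ N ^ 6 := by
          have h3 : 32 ≤ N ^ 5 := by
            calc 32 = 2 ^ 5 := by norm_num
              _ ≤ N ^ 5 := Nat.pow_le_pow_left hN 5
          calc 2 * m + 1 ≤ 32 * N := by omega
            _ ≤ N ^ 5 * N := Nat.mul_le_mul_right N h3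
            _ = N ^ 6 := by ring
        exact_mod_cast h2
      have h2 := Real.log_le_log (by positivity) h1
      rw [Real.log_pow] at h2
      exact_mod_cast h2
    have hsq : ∀ m : ℕ, m ≤ 10 * N → K * Real.log ((2 * m + 1 : ℕ) : ℝ) ^ 2 ≤ 36 * K * Real.log N ^ 2 := by
      intro m hm
      have h1 := hlog m hm
      have h2 : 0 ≤ Real.log ((2 * m + 1 : ℕ) : ℝ) := Real.log_natCast_nonneg _
      calc K * Real.log ((2 * m + 1 : ℕ) : ℝ) ^ 2 ≤ K * (6 * Real.log N) ^ 2 := by gcongr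
        _ = _ := by ring
    have hlow : H981.mu * Real.exp (-(36 * K * Real.log N ^ 2)) ≤
        zz ^ N * ((KK (2 * N + 1)).card : ℝ) := by
      refine le_trans ?_ (h N (by omega)).1
      apply mul_le_mul_of_nonneg_left _ hmu0.le
      apply Real.exp_le_exp.2
      have := hsq N (by omega)
      linarith
    have e1 : Real.exp ((72 * K + 2) * Real.log N ^ 2) = Real.exp (2 * Real.log N ^ 2) *
        Real.exp (36 * K * Real.log N ^ 2) * Real.exp (36 * K * Real.log N ^ 2) := by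
      rw [← Real.exp_add, ← Real.exp_add]; congr 1; ring
    have e2 : Real.exp (36 * K * Real.log N ^ 2) * Real.exp (-(36 * K * Real.log N ^ 2)) = 1 := by
      rw [← Real.exp_add]; simp
    have hx : 1 ≤ Real.exp (36 * K * Real.log N ^ 2) := Real.one_le_exp (by positivity)
    have h0 : 1.9 ≤ Real.exp (2 * Real.log N ^ 2) := by
      have := Real.add_one_le_exp (2 * Real.log (N : ℝ) ^ 2)
      nlinarith
    have hR : Real.exp (2 * Real.log N ^ 2) * Real.exp (36 * K * Real.log N ^ 2) * H981.mu ≤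
        Real.exp ((72 * K + 2) * Real.log N ^ 2) * (zz ^ N * ((KK (2 * N + 1)).card : ℝ)) := by
      calc Real.exp (2 * Real.log N ^ 2) * Real.exp (36 * K * Real.log N ^ 2) * H981.mu =
          Real.exp ((72 * K + 2) * Real.log N ^ 2) *
            (H981.mu * Real.exp (-(36 * K * Real.log N ^ 2))) := by
            rw [e1]
            linear_combination (-(Real.exp (2 * Real.log N ^ 2) * Real.exp (36 * K * Real.log N ^ 2) *
              H981.mu)) * e2
        _ ≤ _ := mul_le_mul_of_nonneg_left hlow (Real.exp_pos _).le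
    refine le_trans ?_ hR
    rcases Nat.eq_zero_or_pos n with rfl | hn0
    · have h1 : ((KK (2 * 0 + 1)).card : ℝ) ≤ 4 := by exact_mod_cast card_KK1
      rw [pow_zero, one_mul]
      refine h1.trans ?_
      calc (4 : ℝ) ≤ 1.9 * 1 * 2.43 := by norm_num
        _ ≤ _ := by gcongr
    · refine ((h n hn0).2).trans ?_
      have h1 : Real.exp (K * Real.log ((2 * n + 1 : ℕ) : ℝ) ^ 2) ≤ Real.exp (36 * K * Real.log N ^ 2) :=
        Real.exp_le_exp.2 (hsq n hn)
      calc H981.mu * Real.exp (K * Real.log ((2 * n + 1 : ℕ) : ℝ) ^ 2) ≤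
          H981.mu * Real.exp (36 * K * Real.log N ^ 2) := by gcongr
        _ = 1 * Real.exp (36 * K * Real.log N ^ 2) * H981.mu := by ring
        _ ≤ _ := by
          gcongr
          linarith

theorem KK_pos {n : ℕ} (hn : 1 ≤ n) : (0 : ℝ) < ((KK (2 * n + 1)).card : ℝ) := by
  obtain ⟨K, _, h⟩ := bnd2
  have h1 := (h n hn).1
  have hmu : 0 < H981.mu := by linarith [mu_ge']
  have hz : 0 < zz ^ n := by unfold zz; positivity
  have h2 : 0 < zz ^ n * ((KK (2 * n + 1)).card : ℝ) := lt_of_lt_of_le (by positivity) h1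
  exact (mul_pos_iff_of_pos_left hz).1 h2

end

end Pool.Agent.T6.H92.TG
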