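import Pool.Agent.T6.H92.TG.Core0

/-!
# The main estimate for a system of separated cells
-/

set_option autoImplicit false

namespace Pool.Agent.T6.H92.TG

open Finset Filter Topology
open scoped Classical

noncomputable section

/-! ### Asymptotics -/

theorem log_tend : Tendsto (fun N : ℕ => Real.log (N : ℝ)) atTop atTop :=
  Real.tendsto_log_atTop.comp tendsto_natCast_atTop_atTop

theorem logpow_small (p : ℕ) {δ : ℝ} (hδ : 0 < δ) :
    ∀ᶠ N : ℕ in atTop, Real.log (N : ℝ) ^ p ≤ δ * N := by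
  have h1 : (fun x : ℝ => Real.log x ^ p) =o[atTop] (id : ℝ → ℝ) :=
    Real.isLittleO_pow_log_id_atTop
  have h2 := h1.bound hδ
  have h3 := (tendsto_natCast_atTop_atTop (R := ℝ)).eventually h2
  filter_upwards [h3] with N hN
  rw [Real.norm_eq_abs, Real.norm_eq_abs, id] at hN
  have h4 : |(N : ℝ)| = N := abs_of_nonneg (Nat.cast_nonneg N)
  rw [h4] at hN
  exact (le_abs_self _).trans hN

theorem asy1 (q : ℕ) {A : ℝ} (hA : 0 ≤ A) :
    ∀ᶠ N : ℕ in atTop, A * N ^ q * Real.exp (-(Real.log N ^ 2)) ≤ 1 := by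
  filter_upwards [log_tend.eventually_ge_atTop (q + A + 1), eventually_ge_atTop 1] with N h1 h2
  have hN : (0 : ℝ) < N := by exact_mod_cast h2
  have hq : (0 : ℝ) ≤ q := Nat.cast_nonneg q
  have e1 : A ≤ Real.exp A := by have := Real.add_one_le_exp A; linarith
  have e2 : (N : ℝ) ^ q = Real.exp (q * Real.log N) := by
    rw [Real.exp_nat_mul, Real.exp_log hN]
  calc A * N ^ q * Real.exp (-(Real.log N ^ 2)) ≤
      Real.exp A * Real.exp (q * Real.log N) * Real.exp (-(Real.log N ^ 2)) := by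
        rw [e2]; gcongr
    _ = Real.exp (A + q * Real.log N + -(Real.log N ^ 2)) := by rw [Real.exp_add, Real.exp_add]
    _ ≤ 1 := by
        rw [Real.exp_le_one_iff]
        nlinarith

theorem asy2 (q : ℕ) {A L c : ℝ} (hA : 0 ≤ A) (hL : 0 ≤ L) (hc : 0 < c) :
    ∀ᶠ N : ℕ in atTop, A * N ^ q * (Real.exp (L * Real.log N ^ 2) * Real.exp (-(c * N))) ≤ 1 := by
  have hq : (0 : ℝ) ≤ q := Nat.cast_nonneg q
  have g1 := logpow_small 1 (δ := c / (3 * (q + 1))) (by positivity)
  have g2 := logpow_small 2 (δ := c / (3 * (L + 1))) (by positivity)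
  have g3 : ∀ᶠ N : ℕ in atTop, 3 * A / c ≤ (N : ℝ) :=
    (tendsto_natCast_atTop_atTop (R := ℝ)).eventually_ge_atTop _
  filter_upwards [g1, g2, g3, eventually_ge_atTop 1] with N h1 h2 h3 h4
  have hN : (0 : ℝ) < N := by exact_mod_cast h4
  have e1 : A ≤ Real.exp A := by have := Real.add_one_le_exp A; linarith
  have e2 : (N : ℝ) ^ q = Real.exp (q * Real.log N) := by
    rw [Real.exp_nat_mul, Real.exp_log hN]
  have hl : 0 ≤ Real.log (N : ℝ) := Real.log_natCast_nonneg N
  rw [pow_one] at h1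
  have h1' : q * Real.log N ≤ c * N / 3 := by
    calc q * Real.log N ≤ (q + 1) * Real.log N := by nlinarith
      _ ≤ (q + 1) * (c / (3 * (q + 1)) * N) := by gcongr
      _ = c * N / 3 := by field_simp
  have h2' : L * Real.log N ^ 2 ≤ c * N / 3 := by
    calc L * Real.log N ^ 2 ≤ (L + 1) * Real.log N ^ 2 := by nlinarith [sq_nonneg (Real.log (N : ℝ))]
      _ ≤ (L + 1) * (c / (3 * (L + 1)) * N) := by gcongr
      _ = c * N / 3 := by field_simp
  have h3' : A ≤ c * N / 3 := by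
    rw [div_le_iff₀ hc] at h3
    linarith
  calc A * N ^ q * (Real.exp (L * Real.log N ^ 2) * Real.exp (-(c * N))) ≤
      Real.exp A * Real.exp (q * Real.log N) * (Real.exp (L * Real.log N ^ 2) * Real.exp (-(c * N))) := by
        rw [e2]; gcongr
    _ = Real.exp (A + q * Real.log N + (L * Real.log N ^ 2 + -(c * N))) := by
        rw [Real.exp_add, Real.exp_add, Real.exp_add]
    _ ≤ 1 := by
        rw [Real.exp_le_one_iff]
        linarith

theorem sqrtlog_small {τ δ : ℝ} (hτ : 0 ≤ τ) (hδ : 0 < δ) :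
    ∀ᶠ N : ℕ in atTop, τ * Real.sqrt N * Real.log N ≤ δ * N := by
  have h := logpow_small 2 (δ := (δ / (τ + 1)) ^ 2) (by positivity)
  filter_upwards [h, eventually_ge_atTop 1] with N h1 h2
  have hN : (0 : ℝ) < N := by exact_mod_cast h2
  have hs : 0 < Real.sqrt N := Real.sqrt_pos.2 hN
  have hl : 0 ≤ Real.log (N : ℝ) := Real.log_natCast_nonneg N
  have hss : Real.sqrt N * Real.sqrt N = N := Real.mul_self_sqrt hN.le
  have h3 : Real.log N ≤ δ / (τ + 1) * Real.sqrt N := by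
    apply le_of_sq_le_sq' _ (by positivity)
    rw [mul_pow, Real.sq_sqrt hN.le]
    exact h1
  calc τ * Real.sqrt N * Real.log N ≤ (τ + 1) * Real.sqrt N * (δ / (τ + 1) * Real.sqrt N) := by
        gcongr
        linarith
    _ = δ * (Real.sqrt N * Real.sqrt N) := by field_simp
    _ = δ * N := by rw [hss]
where
  le_of_sq_le_sq' {a b : ℝ} (h : a ^ 2 ≤ b ^ 2) (hb : 0 ≤ b) : a ≤ b := by
    nlinarith [abs_nonneg a, le_abs_self a, sq_abs a, abs_le_of_sq_le_sq h hb]

/-- quotients of binomial coefficients are at most powers -/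
theorem rho_le (i f b B : ℕ) (hf : f ≤ B) (hB : 1 ≤ B) : rho i f b ≤ (B : ℝ) ^ i := by
  unfold rho
  rw [← Finset.card_range i, ← Finset.prod_const, Finset.card_range]
  apply Finset.prod_le_prod
  · intro l _
    positivity
  · intro l _
    have h1 : ((f - l : ℕ) : ℝ) ≤ B := by
      have : f - l ≤ B := by omega
      exact_mod_cast this
    have h2 : (1 : ℝ) ≤ (b : ℝ) + 1 + l := by
      have : (0 : ℝ) ≤ b := Nat.cast_nonneg b
      have : (0 : ℝ) ≤ l := Nat.cast_nonneg l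
      linarith
    rw [div_le_iff₀ (by linarith)]
    have : (0 : ℝ) ≤ B := Nat.cast_nonneg B
    nlinarith

/-- the parameters of a system -/
structure Par (k : ℕ) (z L c₁ C₁ c₂ M : ℝ) (p : ℕ) : Prop where
  z0 : 0 < z
  z1 : z ≤ 1
  L0 : 0 ≤ L
  c₁0 : 0 < c₁
  C₁0 : 0 ≤ C₁
  c₂0 : 0 < c₂
  M0 : 0 ≤ M

/-- the numerical facts -/
structure Num (k : ℕ) (L c₁ C₁ c₂ M : ℝ) (p : ℕ) (τ C₀ : ℝ) (N : ℕ) : Prop where
  n1 : 3 ≤ N
  l1 : 1 ≤ Real.log (N : ℝ)
  n2 : C₀ * ep N ≤ 1
  n3 : 16 ≤ τ * Real.sqrt N * Real.log N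
  n4 : k + τ * Real.sqrt N * Real.log N ≤ c₁ * N
  n6 : (16 ^ k * M * 2) * N ^ (2 * k + p) * Real.exp (-(Real.log N ^ 2)) ≤ 1
  n7 : (16 ^ k * M * C₁) * N ^ (2 * k + p) * (Real.exp (L * Real.log N ^ 2) * Real.exp (-(c₂ * N))) ≤ 1
  n8 : k ≤ N

theorem num (k : ℕ) {L c₁ C₁ c₂ M : ℝ} (p : ℕ) {τ C₀ : ℝ} (hL : 0 ≤ L) (hc₁ : 0 < c₁) (hC₁ : 0 ≤ C₁)
    (hc₂ : 0 < c₂) (hM : 0 ≤ M) (hτ : 1 ≤ τ) (hC₀ : 0 ≤ C₀) :
    ∀ᶠ N : ℕ in atTop, Num k L c₁ C₁ c₂ M p τ C₀ N := by
  have a1 := log_tend.eventually_ge_atTop 16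
  have a2 := asy1 (2 * k + p) (A := 16 ^ k * M * 2) (by positivity)
  have a3 := asy2 (2 * k + p) (A := 16 ^ k * M * C₁) (by positivity) hL hc₂
  have a4 := sqrtlog_small (τ := τ) (by linarith) (δ := c₁ / 2) (by positivity)
  have a5 := sqrtlog_small (τ := C₀) hC₀ (δ := 1) one_pos
  have a6 : ∀ᶠ N : ℕ in atTop, 2 * k / c₁ ≤ (N : ℝ) :=
    (tendsto_natCast_atTop_atTop (R := ℝ)).eventually_ge_atTop _
  filter_upwards [a1, a2, a3, a4, a5, a6, eventually_ge_atTop 3, eventually_ge_atTop k] with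
    N b1 b2 b3 b4 b5 b6 b7 b8
  have hN3 : (3 : ℝ) ≤ N := by exact_mod_cast b7
  have hN : (0 : ℝ) < N := by linarith
  have hs : 0 < Real.sqrt N := Real.sqrt_pos.2 hN
  have hs1 : 1 ≤ Real.sqrt N := by
    rw [Real.one_le_sqrt]; linarith
  have hss : Real.sqrt N * Real.sqrt N = N := Real.mul_self_sqrt hN.le
  refine ⟨b7, by linarith, ?_, ?_, ?_, b2, b3, b8⟩
  · unfold ep
    rw [mul_div_assoc', div_le_one hs]
    have : C₀ * Real.sqrt N * Real.log N ≤ Real.sqrt N * Real.sqrt N := by rw [hss]; linarith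
    have h2 : Real.sqrt N * (C₀ * Real.log N) ≤ Real.sqrt N * Real.sqrt N := by linarith
    exact le_of_mul_le_mul_left h2 hs
  · calc (16 : ℝ) = 1 * 1 * 16 := by norm_num
      _ ≤ τ * Real.sqrt N * Real.log N := by gcongr
  · rw [div_le_iff₀ hc₁] at b6
    linarith

theorem core (hdif : StmDif) (k : ℕ) (z L c₁ C₁ c₂ M : ℝ) (p : ℕ) (P : Par k z L c₁ C₁ c₂ M p) :
    ∃ C : ℝ, ∃ N₀ : ℕ, 0 ≤ C ∧ ∀ N ≥ N₀, ∀ (α ι : Type) (K : ℕ → Finset α) (Fl Bu : α → Finset ι)
      (up dn : α → ι → α) (φ ψ : α → ℝ), Tog K Fl Bu up dn →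
      (∀ w ∈ K N, (Fl w).card ≤ 6 * N + 2 ∧ (Bu w).card ≤ 6 * N) →
      (∀ n ≤ 10 * N, z ^ n * ((K n).card : ℝ) ≤
        Real.exp (L * Real.log N ^ 2) * (z ^ N * ((K N).card : ℝ))) →
      (∀ i ≤ k, (((K (N + i)).filter (fun w => ((Bu w).card : ℝ) < c₁ * N)).card : ℝ) ≤
        C₁ * Real.exp (-(c₂ * N)) * ((K (N + i)).card : ℝ)) →
      (∀ i ≤ k, ∀ w ∈ K (N + i), |φ w| ≤ M * N ^ p) →
      (∀ w ∈ K N, 1 ≤ ψ w) →
      (∀ j ≤ k, ∀ w ∈ K N, k ≤ (Fl w).card → |VV Fl up φ j w| ≤ M * ψ w / N ^ j) →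
      |D k (fun n => z ^ n * ∑ w ∈ K n, φ w) N| ≤ C * (ep N ^ k * (z ^ N * ∑ w ∈ K N, ψ w)) := by
  obtain ⟨hz0, hz1, hL, hc₁, hC₁, hc₂, hM⟩ := P
  obtain ⟨Cd, hCd, hdif⟩ := hdif k
  set τ : ℝ := 1536 * (L + 1) with hτ
  have hτ1 : 1536 ≤ τ := by rw [hτ]; nlinarith
  set C₀ : ℝ := τ / c₁ + 1 / c₁ + 1 with hC₀
  have hC₀1 : 1 ≤ C₀ := by
    have h1 : 0 ≤ τ / c₁ := by positivity
    have h2 : 0 ≤ 1 / c₁ := by positivity
    rw [hC₀]; linarith
  have hC₀a : τ ≤ C₀ * c₁ := by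
    rw [hC₀]
    have : (τ / c₁ + 1 / c₁ + 1) * c₁ = τ + 1 + c₁ := by field_simp
    rw [this]; linarith
  have hC₀b : 1 ≤ C₀ ^ 2 * c₁ := by
    have : 1 ≤ C₀ * c₁ := by linarith
    nlinarith
  obtain ⟨N₀, hN₀⟩ := eventually_atTop.1
    (num k (L := L) (c₁ := c₁) (C₁ := C₁) (c₂ := c₂) (M := M) p (τ := τ) (C₀ := C₀)
      hL hc₁ hC₁ hc₂ hM (by linarith) (by linarith))
  set A₀ : ℝ := 2 ^ k * (Cd * M * C₀ ^ k) with hA₀
  have hA₀0 : 0 ≤ A₀ := by positivity
  refine ⟨A₀ + 3, N₀, by positivity, ?_⟩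
  intro N hN α ι K Fl Bu up dn φ ψ T hcard hcnt hfew hφ hψ hV
  obtain ⟨n1, l1, n2, n3, n4, n6, n7, n8⟩ := hN₀ N hN
  have hN3 : (3 : ℝ) ≤ N := by exact_mod_cast n1
  have hNp : (0 : ℝ) < N := by linarith
  have hs : 0 < Real.sqrt N := Real.sqrt_pos.2 hNp
  have hs1 : 1 ≤ Real.sqrt N := by rw [Real.one_le_sqrt]; linarith
  have hss : Real.sqrt N * Real.sqrt N = N := Real.mul_self_sqrt hNp.le
  have hsN : Real.sqrt N ≤ N := by nlinarith
  set l := Real.log (N : ℝ) with hl
  set s := Real.sqrt (N : ℝ) with hsdef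
  have he : ep N = l / s := rfl
  have he0 : 0 < ep N := by rw [he]; positivity
  have heN : 1 / (N : ℝ) ≤ ep N := by
    rw [he, div_le_div_iff₀ hNp hs]
    nlinarith
  have hek : 1 / (N : ℝ) ^ k ≤ ep N ^ k := by
    rw [← one_div_pow]
    exact pow_le_pow_left₀ (by positivity) heN k
  set ε : ℝ := C₀ * ep N with hε
  have hε0 : 0 < ε := by positivity
  set t : ℝ := τ * s * l with ht
  set q : ℝ := z ^ N * ((K N).card : ℝ) with hq
  have hq0 : 0 ≤ q := by positivity
  have hzN : 0 < z ^ N := by positivity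
  set B : ℕ := 8 * N with hB
  have hBr : (B : ℝ) = 8 * N := by rw [hB]; push_cast; ring
  have hN3' : 3 ≤ N := n1
  -- the tail
  have htail := tail T hz0 hz1 (N := N) (B := B) (by omega)
    (fun w hw => ⟨by have := (hcard w hw).1; omega, by have := (hcard w hw).2; omega,
      by have := (hcard w hw).2; omega⟩)
    (Λ := Real.exp (L * l ^ 2)) (fun n hn => hcnt n (by omega)) (t := t) n3
  have htail2 : (((K N).filter (fun w => t ≤ |z * (Fl w).card - (Bu w).card|)).card : ℝ) ≤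
      2 * Real.exp (-(l ^ 2)) * ((K N).card : ℝ) := by
    refine htail.trans ?_
    apply mul_le_mul_of_nonneg_right _ (Nat.cast_nonneg _)
    rw [mul_assoc, ← Real.exp_add]
    apply mul_le_mul_of_nonneg_left _ (by norm_num)
    apply Real.exp_le_exp.2
    have e1 : t ^ 2 / (192 * (B : ℝ)) = τ ^ 2 * l ^ 2 / 1536 := by
      rw [hBr, ht]
      have : (τ * s * l) ^ 2 = τ ^ 2 * l ^ 2 * N := by rw [← hss]; ring
      rw [this]
      field_simp
      norm_num
    rw [e1]
    have e2 : (L + 1) * l ^ 2 ≤ τ ^ 2 * l ^ 2 / 1536 := by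
      rw [le_div_iff₀ (by norm_num)]
      have e3 : (L + 1) * 1536 ≤ τ ^ 2 := by
        have e4 : (L + 1) * 1536 = τ := by rw [hτ]; ring
        have e5 : 1 ≤ τ := by linarith
        rw [e4, pow_two]
        exact le_mul_of_one_le_left (by linarith) e5
      have e6 := mul_le_mul_of_nonneg_right e3 (sq_nonneg l)
      calc (L + 1) * l ^ 2 * 1536 = (L + 1) * 1536 * l ^ 2 := by ring
        _ ≤ _ := e6
    have e7 : L * l ^ 2 + l ^ 2 = (L + 1) * l ^ 2 := by ring
    linarith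
  have hfew0 := hfew 0 (Nat.zero_le k)
  rw [Nat.add_zero] at hfew0
  -- the bound of the terms
  set M2 : ℝ := 16 ^ k * M * N ^ (k + p) with hM2
  have hM20 : 0 ≤ M2 := by positivity
  have hterm : ∀ w ∈ K N, |D k (fun i => z ^ i * rho i (Fl w).card (Bu w).card *
      (UU Fl up)^[i] φ w) 0| ≤ A₀ * ep N ^ k * ψ w +
      ((if t ≤ |z * (Fl w).card - (Bu w).card| then M2 else 0) +
        (if ((Bu w).card : ℝ) < c₁ * N then M2 else 0)) := by
    intro w hw
    have hψw := hψ w hw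
    have hbad : |D k (fun i => z ^ i * rho i (Fl w).card (Bu w).card *
        (UU Fl up)^[i] φ w) 0| ≤ M2 := by
      have h1 : ∀ i, 0 ≤ i → i ≤ 0 + k → |z ^ i * rho i (Fl w).card (Bu w).card *
          (UU Fl up)^[i] φ w| ≤ 8 ^ k * M * N ^ (k + p) := by
        intro i _ hi
        have g1 : |(UU Fl up)^[i] φ w| ≤ M * N ^ p :=
          UI_bound T (by positivity) i φ (hφ i (by omega)) w hw
        have g2 : rho i (Fl w).card (Bu w).card ≤ (B : ℝ) ^ i :=
          rho_le _ _ _ _ (by have := (hcard w hw).1; omega) (by omega)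
        have g3 : (B : ℝ) ^ i ≤ (B : ℝ) ^ k :=
          pow_le_pow_right₀ (by rw [hBr]; linarith) (by omega)
        have g4 : z ^ i ≤ 1 := pow_le_one₀ hz0.le hz1
        have g5 : 0 ≤ rho i (Fl w).card (Bu w).card := rho_nonneg _ _ _
        rw [abs_mul, abs_of_nonneg (mul_nonneg (pow_nonneg hz0.le i) g5)]
        calc z ^ i * rho i (Fl w).card (Bu w).card * |(UU Fl up)^[i] φ w| ≤
            1 * (B : ℝ) ^ k * (M * N ^ p) := by
              gcongr
              exact g2.trans g3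
          _ = 8 ^ k * M * N ^ (k + p) := by rw [hBr, mul_pow, pow_add]; ring
      refine (D_bound k 0 h1).trans (le_of_eq ?_)
      rw [hM2]
      have : (16 : ℝ) ^ k = 2 ^ k * 8 ^ k := by rw [← mul_pow]; norm_num
      rw [this]
      ring
    have hA : 0 ≤ A₀ * ep N ^ k * ψ w := by
      have : 0 ≤ ep N ^ k := by positivity
      have h2 : 0 ≤ ψ w := by linarith
      positivity
    by_cases hX : t ≤ |z * (Fl w).card - (Bu w).card|
    · rw [if_pos hX]
      split_ifs <;> linarith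
    · by_cases hb : ((Bu w).card : ℝ) < c₁ * N
      · rw [if_pos hb]
        split_ifs <;> linarith
      · rw [if_neg hX, if_neg hb]
        push Not at hX hb
        have hb0 : (0 : ℝ) ≤ (Bu w).card := Nat.cast_nonneg _
        have hf0 : (0 : ℝ) ≤ (Fl w).card := Nat.cast_nonneg _
        have g1 : |z * (Fl w).card - (Bu w).card| ≤ ε * ((Bu w).card + 1) := by
          refine hX.le.trans ?_
          have : t ≤ ε * (c₁ * N) := by
            have e1 : ε * (c₁ * N) = (C₀ * c₁) * s * l := by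
              rw [hε, he, ← hss]
              field_simp
            rw [e1, ht]
            gcongr
          refine this.trans ?_
          apply mul_le_mul_of_nonneg_left _ hε0.le
          linarith
        have g2 : 1 ≤ ε ^ 2 * ((Bu w).card + 1) := by
          have e1 : ε ^ 2 * (c₁ * N) = (C₀ ^ 2 * c₁) * l ^ 2 := by
            rw [hε, he, ← hss]
            field_simp
          have e2 : 1 ≤ ε ^ 2 * (c₁ * N) := by
            rw [e1]
            have : 1 ≤ l ^ 2 := by nlinarith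
            nlinarith
          have e3 : ε ^ 2 * (c₁ * N) ≤ ε ^ 2 * ((Bu w).card + 1) := by
            apply mul_le_mul_of_nonneg_left _ (by positivity)
            linarith
          linarith
        have g3 : k ≤ (Fl w).card := by
          have h1 := (abs_lt.1 hX).1
          have h2 : z * (Fl w).card ≤ (Fl w).card := by nlinarith
          have h3 : (k : ℝ) ≤ (Fl w).card := by linarith
          exact_mod_cast h3
        have g4 := prodD k (fun i => z ^ i * rho i (Fl w).card (Bu w).card)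
          (fun i => (UU Fl up)^[i] φ w) Cd (M * ψ w) ε hCd (by positivity) hε0.le
          (fun a l' hal => hdif z _ _ ε hz0 hz1 hε0 n2 g1 g2 a (by omega) l' (by omega))
          (fun j hj => by
            rw [D_UI]
            refine (hV j hj w hw g3).trans ?_
            rw [mul_div_assoc, mul_assoc]
            apply mul_le_mul_of_nonneg_left _ hM
            rw [div_eq_mul_inv]
            apply mul_le_mul_of_nonneg_left _ (by linarith)
            rw [← inv_pow]
            apply pow_le_pow_left₀ (by positivity)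
            rw [← one_div]
            refine heN.trans ?_
            rw [hε]
            nlinarith)
        refine g4.trans (le_of_eq ?_)
        rw [hA₀, hε, mul_pow]
        ring
  -- the remainder
  have hrem : |D k (fun i => z ^ (N + i) * ∑ w ∈ (K (N + i)).filter (fun w => (Bu w).card < i), φ w) 0| ≤
      2 ^ k * (M * N ^ p * (C₁ * Real.exp (-(c₂ * N))) * (Real.exp (L * l ^ 2) * q)) := by
    apply D_bound
    intro i _ hi
    have h1 : |∑ w ∈ (K (N + i)).filter (fun w => (Bu w).card < i), φ w| ≤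
        M * N ^ p * (C₁ * Real.exp (-(c₂ * N)) * ((K (N + i)).card : ℝ)) := by
      calc |∑ w ∈ (K (N + i)).filter (fun w => (Bu w).card < i), φ w| ≤
          ∑ w ∈ (K (N + i)).filter (fun w => (Bu w).card < i), |φ w| := Finset.abs_sum_le_sum_abs _ _
        _ ≤ ∑ w ∈ (K (N + i)).filter (fun w => (Bu w).card < i), M * N ^ p :=
            Finset.sum_le_sum fun w hw => hφ i (by omega) w (mem_filter.1 hw).1
        _ = (((K (N + i)).filter (fun w => (Bu w).card < i)).card : ℝ) * (M * N ^ p) := by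
            rw [Finset.sum_const, nsmul_eq_mul]
        _ ≤ (((K (N + i)).filter (fun w => ((Bu w).card : ℝ) < c₁ * N)).card : ℝ) * (M * N ^ p) := by
            apply mul_le_mul_of_nonneg_right _ (by positivity)
            have h2 : (K (N + i)).filter (fun w => (Bu w).card < i) ⊆
                (K (N + i)).filter (fun w => ((Bu w).card : ℝ) < c₁ * N) := by
              intro w hw
              rw [mem_filter] at hw ⊢
              refine ⟨hw.1, ?_⟩
              have h3 : ((Bu w).card : ℝ) < i := by exact_mod_cast hw.2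
              have h4 : (i : ℝ) ≤ k := by
                have : i ≤ k := by omega
                exact_mod_cast this
              linarith
            exact_mod_cast Finset.card_le_card h2
        _ ≤ (C₁ * Real.exp (-(c₂ * N)) * ((K (N + i)).card : ℝ)) * (M * N ^ p) := by
            apply mul_le_mul_of_nonneg_right _ (by positivity)
            exact hfew i (by omega)
        _ = _ := by ring
    have h2 : z ^ (N + i) * ((K (N + i)).card : ℝ) ≤ Real.exp (L * l ^ 2) * q := by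
      exact hcnt (N + i) (by omega)
    rw [abs_mul, abs_of_nonneg (pow_nonneg hz0.le _)]
    calc z ^ (N + i) * |∑ w ∈ (K (N + i)).filter (fun w => (Bu w).card < i), φ w| ≤
        z ^ (N + i) * (M * N ^ p * (C₁ * Real.exp (-(c₂ * N)) * ((K (N + i)).card : ℝ))) :=
          mul_le_mul_of_nonneg_left h1 (pow_nonneg hz0.le _)
      _ = M * N ^ p * (C₁ * Real.exp (-(c₂ * N))) * (z ^ (N + i) * ((K (N + i)).card : ℝ)) := by ring
      _ ≤ _ := mul_le_mul_of_nonneg_left h2 (by positivity)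
  -- the numerical bounds
  have hNk : (0 : ℝ) < (N : ℝ) ^ k := by positivity
  have x1 : M2 * (2 * Real.exp (-(l ^ 2))) ≤ ep N ^ k := by
    refine le_trans ?_ hek
    rw [le_div_iff₀ hNk]
    refine le_trans (le_of_eq ?_) n6
    rw [hM2, two_mul k, add_assoc, pow_add (N : ℝ) k (k + p)]
    ring
  have hexp1 : 1 ≤ Real.exp (L * l ^ 2) := Real.one_le_exp (by positivity)
  have x2 : M2 * (C₁ * (Real.exp (L * l ^ 2) * Real.exp (-(c₂ * N)))) ≤ ep N ^ k := by
    refine le_trans ?_ hek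
    rw [le_div_iff₀ hNk]
    refine le_trans (le_of_eq ?_) n7
    rw [hM2, two_mul k, add_assoc, pow_add (N : ℝ) k (k + p)]
    ring
  have x3 : M2 * (C₁ * Real.exp (-(c₂ * N))) ≤ ep N ^ k := by
    refine le_trans ?_ x2
    apply mul_le_mul_of_nonneg_left _ hM20
    apply mul_le_mul_of_nonneg_left _ hC₁
    have := Real.exp_pos (-(c₂ * N))
    nlinarith
  have x4 : 2 ^ k * (M * N ^ p * (C₁ * Real.exp (-(c₂ * N))) * (Real.exp (L * l ^ 2) * q)) ≤
      ep N ^ k * q := by
    have y1 : (2 : ℝ) ^ k * (M * N ^ p) ≤ M2 := by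
      rw [hM2]
      have y2 : (2 : ℝ) ^ k ≤ 16 ^ k := pow_le_pow_left₀ (by norm_num) (by norm_num) k
      have y3 : (N : ℝ) ^ p ≤ N ^ (k + p) := pow_le_pow_right₀ (by linarith) (by omega)
      calc (2 : ℝ) ^ k * (M * N ^ p) ≤ 16 ^ k * (M * N ^ (k + p)) := by gcongr
        _ = _ := by ring
    calc 2 ^ k * (M * N ^ p * (C₁ * Real.exp (-(c₂ * N))) * (Real.exp (L * l ^ 2) * q)) =
        (2 ^ k * (M * N ^ p)) * (C₁ * (Real.exp (L * l ^ 2) * Real.exp (-(c₂ * N)))) * q := by ring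
      _ ≤ M2 * (C₁ * (Real.exp (L * l ^ 2) * Real.exp (-(c₂ * N)))) * q := by gcongr
      _ ≤ ep N ^ k * q := mul_le_mul_of_nonneg_right x2 hq0
  -- the sum
  have hsum : ∑ w ∈ K N, |D k (fun i => z ^ i * rho i (Fl w).card (Bu w).card *
      (UU Fl up)^[i] φ w) 0| ≤ A₀ * ep N ^ k * ∑ w ∈ K N, ψ w +
      (ep N ^ k * ((K N).card : ℝ) + ep N ^ k * ((K N).card : ℝ)) := by
    refine (Finset.sum_le_sum hterm).trans ?_
    rw [Finset.sum_add_distrib, Finset.sum_add_distrib, ← Finset.mul_sum, ← Finset.sum_filter,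
      ← Finset.sum_filter, Finset.sum_const, Finset.sum_const, nsmul_eq_mul, nsmul_eq_mul]
    have hK0 : (0 : ℝ) ≤ ((K N).card : ℝ) := Nat.cast_nonneg _
    have s1 : (((K N).filter (fun w => t ≤ |z * (Fl w).card - (Bu w).card|)).card : ℝ) * M2 ≤
        ep N ^ k * ((K N).card : ℝ) := by
      calc _ ≤ 2 * Real.exp (-(l ^ 2)) * ((K N).card : ℝ) * M2 :=
            mul_le_mul_of_nonneg_right htail2 hM20
        _ = M2 * (2 * Real.exp (-(l ^ 2))) * ((K N).card : ℝ) := by ring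
        _ ≤ _ := mul_le_mul_of_nonneg_right x1 hK0
    have s2 : (((K N).filter (fun w => ((Bu w).card : ℝ) < c₁ * N)).card : ℝ) * M2 ≤
        ep N ^ k * ((K N).card : ℝ) := by
      calc _ ≤ C₁ * Real.exp (-(c₂ * N)) * ((K N).card : ℝ) * M2 :=
            mul_le_mul_of_nonneg_right hfew0 hM20
        _ = M2 * (C₁ * Real.exp (-(c₂ * N))) * ((K N).card : ℝ) := by ring
        _ ≤ _ := mul_le_mul_of_nonneg_right x3 hK0
    linarith
  have hqψ : q ≤ z ^ N * ∑ w ∈ K N, ψ w := by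
    rw [hq]
    apply mul_le_mul_of_nonneg_left _ hzN.le
    calc ((K N).card : ℝ) = ∑ w ∈ K N, (1 : ℝ) := by simp
      _ ≤ _ := Finset.sum_le_sum hψ
  rw [D_main T z N k φ]
  have hek0 : 0 ≤ ep N ^ k := by positivity
  calc |z ^ N * ∑ w ∈ K N, D k (fun i => z ^ i * rho i (Fl w).card (Bu w).card *
        (UU Fl up)^[i] φ w) 0 +
      D k (fun i => z ^ (N + i) * ∑ w ∈ (K (N + i)).filter (fun w => (Bu w).card < i), φ w) 0| ≤
      |z ^ N * ∑ w ∈ K N, D k (fun i => z ^ i * rho i (Fl w).card (Bu w).card *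
        (UU Fl up)^[i] φ w) 0| +
      |D k (fun i => z ^ (N + i) * ∑ w ∈ (K (N + i)).filter (fun w => (Bu w).card < i), φ w) 0| :=
        abs_add_le _ _
    _ ≤ z ^ N * (A₀ * ep N ^ k * ∑ w ∈ K N, ψ w +
      (ep N ^ k * ((K N).card : ℝ) + ep N ^ k * ((K N).card : ℝ))) + ep N ^ k * q := by
        apply add_le_add _ (hrem.trans x4)
        rw [abs_mul, abs_of_pos hzN]
        apply mul_le_mul_of_nonneg_left _ hzN.le
        exact (Finset.abs_sum_le_sum_abs _ _).trans hsum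
    _ = A₀ * (ep N ^ k * (z ^ N * ∑ w ∈ K N, ψ w)) + 3 * (ep N ^ k * q) := by rw [hq]; ring
    _ ≤ A₀ * (ep N ^ k * (z ^ N * ∑ w ∈ K N, ψ w)) + 3 * (ep N ^ k * (z ^ N * ∑ w ∈ K N, ψ w)) := by
        gcongr
    _ = _ := by ring

end

end Pool.Agent.T6.H92.TG
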