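import Pool.Agent.T6.H92.TG.Tail
import Pool.Agent.T6.H92.SP.Pow
import Pool.Agent.H976R2.KLip
import Pool.Agent.H976R2.KDouble

/-!
# All-order smoothness in the length: definitions and statements of the modules (light part)

`KK n` are the words of the rooted self-avoiding polygons with `n + 1` edges.  `R` is a finite set
of unit cells of the plane, no two of which have a common vertex (`Sep R`).  A bump can be inserted
across the flat cells `FL R w` and deleted at the bump cells `BU R w`.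
-/

set_option autoImplicit false

namespace Pool.Agent.T6.H92.TG

open Finset Pool.Agent.H976R2 Pool.Agent.H976R2.Lip Pool.Agent.T6.H92.SP
open scoped Classical

noncomputable section

/-- iterated differences -/
def D : ℕ → (ℕ → ℝ) → ℕ → ℝ
  | 0, u, l => u l
  | k + 1, u, l => D k u (l + 1) - D k u l

/-- the rate `log n / √n` -/
def ep (n : ℕ) : ℝ := Real.log n / Real.sqrt n

/-- words of polygons -/
def KK (n : ℕ) : Finset (List Dir) := (SW n).filter (fun w => sq w = 1)

/-- the cell across which the bump `(i, e)` is inserted -/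
def acell (w : List Dir) (i : ℕ) (e : Dir) : ℤ × ℤ :=
  (min (PP w i).1 ((PP w i).1 + dx e + dx (lt w i)),
    min (PP w i).2 ((PP w i).2 + dy e + dy (lt w i)))

/-- the cell of the bump number `i` -/
def bcell (w : List Dir) (i : ℕ) : ℤ × ℤ :=
  (min (PP w i).1 (PP w (i + 2)).1, min (PP w i).2 (PP w (i + 2)).2)

/-- a bump can be inserted across the cell -/
def IsF (w : List Dir) (c : ℤ × ℤ) : Prop := ∃ p : ℕ × Dir, p ∈ adm w ∧ acell w p.1 p.2 = c

/-- the cell is the cell of a bump -/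
def IsB (w : List Dir) (c : ℤ × ℤ) : Prop := ∃ i : ℕ, i ∈ bumps w ∧ bcell w i = c

/-- the vertices of the cell lie in the interior of the bounding box of the word -/
def inn (w : List Dir) (c : ℤ × ℤ) : Prop :=
  (∃ p, vis w p ∧ p.1 < c.1) ∧ (∃ p, vis w p ∧ c.1 + 1 < p.1) ∧
  (∃ p, vis w p ∧ p.2 < c.2) ∧ (∃ p, vis w p ∧ c.2 + 1 < p.2)

/-- the flat cells in `R` -/
def FL (R : Finset (ℤ × ℤ)) (w : List Dir) : Finset (ℤ × ℤ) := R.filter (fun c => inn w c ∧ IsF w c)

/-- the bump cells in `R` -/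
def BU (R : Finset (ℤ × ℤ)) (w : List Dir) : Finset (ℤ × ℤ) := R.filter (fun c => inn w c ∧ IsB w c)

/-- insertion of a bump across the cell `c` -/
def UP (w : List Dir) (c : ℤ × ℤ) : List Dir :=
  if h : IsF w c then ins w h.choose.1 h.choose.2 else w

/-- deletion of the bump at the cell `c` -/
def DN (w : List Dir) (c : ℤ × ℤ) : List Dir := if h : IsB w c then del w h.choose else w

/-- no two cells of `R` have a common vertex -/
def Sep (R : Finset (ℤ × ℤ)) : Prop := ∀ c ∈ R, ∀ d ∈ R, c ≠ d → ¬ touch c d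

/-- all bump cells in the interior of the bounding box -/
def IB (w : List Dir) : Finset (ℤ × ℤ) := ((bumps w).image (bcell w)).filter (inn w)

/-! ## Module TOG -/

/-- TOG: the words of polygons with the insertions and deletions at separated cells -/
def StmTog : Prop := ∀ R : Finset (ℤ × ℤ), Sep R →
  Tog (fun n => KK (2 * n + 1)) (FL R) (BU R) UP DN

/-- TOG0, local facts (the first half of TOG).  For `(i, e) ∈ adm w` with cell `c`: in
`ins w i e` the cell `c` is a bump cell and not flat; the cells which do not touch `c` are flat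
(bump cells, inner) before if and only if after the insertion. -/
def StmLoc : Prop := ∀ (w : List Dir) (i : ℕ) (e : Dir), Saw w → (i, e) ∈ adm w →
  ¬ IsB w (acell w i e) ∧
  i ∈ bumps (ins w i e) ∧ bcell (ins w i e) i = acell w i e ∧ ¬ IsF (ins w i e) (acell w i e) ∧
  ∀ c : ℤ × ℤ, ¬ touch (acell w i e) c → (IsF (ins w i e) c ↔ IsF w c) ∧ (IsB (ins w i e) c ↔ IsB w c)

/-- TOG1: uniqueness of the position -/
def StmUni : Prop := (∀ (w : List Dir), Saw w → ∀ p ∈ adm w, ∀ q ∈ adm w,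
    acell w p.1 p.2 = acell w q.1 q.2 → p = q) ∧
  ∀ (w : List Dir), Saw w → ∀ i ∈ bumps w, ∀ j ∈ bumps w, bcell w i = bcell w j → i = j

/-- TOG2: inner cells -/
def StmInv : Prop := ∀ (w : List Dir) (i : ℕ) (e : Dir), Saw w → (i, e) ∈ adm w →
  (inn (ins w i e) (acell w i e) → inn w (acell w i e)) ∧
  (inn w (acell w i e) → ∀ c : ℤ × ℤ, inn (ins w i e) c ↔ inn w c)

/-- TOG3: the system from the local facts -/
def StmTog' : Prop := StmLoc → StmUni → StmInv → StmTog

/-! ## Module SEL -/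

/-- all but an exponentially small proportion of the polygons have many inner bumps -/
def StmFewI : Prop := ∃ C c : ℝ, 0 < C ∧ 0 < c ∧ ∀ n : ℕ, 1 ≤ n →
  (((KK (2 * n + 1)).filter (fun w => ((IB w).card : ℝ) < n / 2000)).card : ℝ) ≤
    C * Real.exp (-(c * n)) * ((KK (2 * n + 1)).card : ℝ)

/-- there is a separated set of cells with many inner bumps for most polygons -/
def StmR : Prop := ∀ k : ℕ, ∃ C c c₁ : ℝ, 0 < C ∧ 0 < c ∧ 0 < c₁ ∧ ∀ n : ℕ, 1 ≤ n →
  ∃ R : Finset (ℤ × ℤ), Sep R ∧ ∀ i ≤ k,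
    (((KK (2 * (n + i) + 1)).filter (fun w => ((BU R w).card : ℝ) < c₁ * n)).card : ℝ) ≤
      C * Real.exp (-(c * n)) * ((KK (2 * (n + i) + 1)).card : ℝ)

/-- SEL -/
def StmSel : Prop := StmFewI → StmR

/-! ## Module DIF -/

/-- DIF: the differences of quotients of binomial coefficients -/
def StmDif : Prop := ∀ k : ℕ, ∃ C : ℝ, 0 ≤ C ∧ ∀ (z : ℝ) (f b : ℕ) (ε : ℝ), 0 < z → z ≤ 1 →
  0 < ε → ε ≤ 1 → |z * f - b| ≤ ε * (b + 1) → 1 ≤ ε ^ 2 * (b + 1) → ∀ a ≤ k, ∀ l ≤ k,
  |D a (fun i => z ^ i * rho i f b) l| ≤ C * ε ^ a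

/-! ## Module QUO -/

/-- QUO: the differences of a quotient -/
def StmQuo : Prop := ∀ (u v : ℕ → ℝ), (∀ n, 2 ≤ n → 0 < u n) → (∀ n, 2 ≤ n → 0 < v n) →
  (∀ a : ℕ, ∃ C : ℝ, ∀ n : ℕ, 2 ≤ n → |D a v n| ≤ C * (ep n ^ a * v n)) →
  (∀ a : ℕ, ∃ C : ℝ, ∀ n : ℕ, 2 ≤ n → |D a (fun m => u m * v m) n| ≤ C * (ep n ^ a * (u n * v n))) →
  ∀ a : ℕ, ∃ C : ℝ, ∀ n : ℕ, 2 ≤ n → |D a u n| ≤ C * (ep n ^ a * u n)

end

end Pool.Agent.T6.H92.TG
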