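import Pool.Agent.T6.H92.TG.Defs
import Pool.Agent.H739K.BOX
import Pool.Agent.H739K.AREA
import Pool.Agent.H739K.HOR

/-!
# All-order smoothness in the length: statements of the modules about area and bounding box
-/

set_option autoImplicit false

namespace Pool.Agent.T6.H92.TG

open Finset Pool.Agent.H976R2 Pool.Agent.H976R2.Lip Pool.Agent.H924P Pool.Agent.H739K
  Pool.Agent.T6.H92.SP
open scoped Classical

noncomputable section

/-- the cell is enclosed -/
def EN (w : List Dir) (c : ℤ × ℤ) : Prop := Encl (w.length + 1) (lp (w.length + 1) w) c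

/-- ARE: an insertion across the cell `c` changes the status of `c` only -/
def StmAre : Prop := ∀ (w : List Dir) (i : ℕ) (e : Dir), Saw w → sq w = 1 → (i, e) ∈ adm w →
  (EN (ins w i e) (acell w i e) ↔ ¬ EN w (acell w i e)) ∧
  (∀ c : ℤ × ℤ, c ≠ acell w i e → (EN (ins w i e) c ↔ EN w c)) ∧
  (ar (ins w i e) : ℝ) = ar w + (if EN w (acell w i e) then -1 else 1)

/-- BXI: an insertion across an inner cell does not change the bounding box -/
def StmBxi : Prop := ∀ (w : List Dir) (i : ℕ) (e : Dir), Saw w → (i, e) ∈ adm w →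
  inn w (acell w i e) → bx (ins w i e) = bx w

/-- INN: all but `2 bx w` bumps are inner bumps -/
def StmInn : Prop := ∀ w : List Dir, Saw w → bc w ≤ (IB w).card + 2 * bx w

/-- BXT: polygons with a large bounding box are rare -/
def StmBxt : Prop := ∀ δ : ℝ, 0 < δ → ∃ C c : ℝ, 0 < C ∧ 0 < c ∧ ∀ n : ℕ, 1 ≤ n →
  (((KK (2 * n + 1)).filter (fun w => δ * n ≤ (bx w : ℝ))).card : ℝ) ≤
    C * Real.exp (-(c * n)) * ((KK (2 * n + 1)).card : ℝ)

/-- FEW -/
def StmFew : Prop := StmInn → StmBxt → StmFewI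

/-- the radius of convergence -/
def zz : ℝ := (H981.mu ^ 2)⁻¹

/-- CNT: the numbers of polygons -/
def StmCnt : Prop := 0 < zz ∧ zz ≤ 1 ∧ ∃ L : ℝ, 0 ≤ L ∧ ∀ N : ℕ, 2 ≤ N → ∀ n : ℕ, n ≤ 10 * N →
  zz ^ n * ((KK (2 * n + 1)).card : ℝ) ≤
    Real.exp (L * Real.log N ^ 2) * (zz ^ N * ((KK (2 * N + 1)).card : ℝ))

end

end Pool.Agent.T6.H92.TG
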