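import Pool.Agent.T6.H92.TG.Obs0

/-!
# All-order smoothness: statements of the modules about moments and Taylor expansions
-/

set_option autoImplicit false

namespace Pool.Agent.T6.H92.TG

open Finset
open scoped Classical

noncomputable section

/-- the sign of the majority of the cells -/
def ms {α ι : Type} (Fl Bu : α → Finset ι) (σ : α → ι → ℝ) (w : α) : ℝ :=
  if 0 ≤ sg Fl Bu σ w then 1 else -1

/-- the flat cells with the sign of the majority -/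
def Flm {α ι : Type} (Fl Bu : α → Finset ι) (σ : α → ι → ℝ) (w : α) : Finset ι :=
  (Fl w).filter (fun c => σ w c = ms Fl Bu σ w)

/-- the bump cells with the sign of the majority -/
def Bum {α ι : Type} (Fl Bu : α → Finset ι) (σ : α → ι → ℝ) (w : α) : Finset ι :=
  (Bu w).filter (fun c => σ w c = ms Fl Bu σ w)

/-- MAJ: the restriction of a system to the cells with the sign of the majority -/
def StmMaj : Prop := ∀ (α ι : Type) (K : ℕ → Finset α) (Fl Bu : α → Finset ι) (up dn : α → ι → α)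
  (A : α → ℝ) (σ : α → ι → ℝ), Tog K Fl Bu up dn → Sgn K Fl Bu up A σ →
  (∀ w c, σ w c = 1 ∨ σ w c = -1) →
  Tog K (Flm Fl Bu σ) (Bum Fl Bu σ) up dn ∧
  (∀ n, ∀ w ∈ K n, ∀ c ∈ Flm Fl Bu σ w, A (up w c) = A w + ms Fl Bu σ w ∧
    ms Fl Bu σ (up w c) = ms Fl Bu σ w) ∧
  (∀ n, ∀ w ∈ K n, (Fl w).card + (Bu w).card ≤ 2 * ((Flm Fl Bu σ w).card + (Bum Fl Bu σ w).card))

/-- FEWM: many bumps in a restricted system -/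
def StmFewM : Prop := ∀ (k : ℕ) (z L c₁ C₁ c₂ : ℝ), 0 < z → z ≤ 1 → 0 ≤ L → 0 < c₁ → 0 ≤ C₁ →
  0 < c₂ → ∃ c₁' C₁' c₂' : ℝ, 0 < c₁' ∧ 0 ≤ C₁' ∧ 0 < c₂' ∧ ∃ N₀ : ℕ, ∀ N ≥ N₀, ∀ (α ι : Type)
  (K : ℕ → Finset α) (b : α → ℕ) (Fl' Bu' : α → Finset ι) (up dn : α → ι → α), Tog K Fl' Bu' up dn →
  (∀ n, 1 ≤ n → ∀ w ∈ K n, (Fl' w).card ≤ 6 * n + 2 ∧ (Bu' w).card ≤ 6 * n) →
  (∀ n, ∀ w ∈ K n, b w ≤ 2 * ((Fl' w).card + (Bu' w).card)) →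
  (∀ i ≤ k, ∀ n ≤ 10 * (N + i), z ^ n * ((K n).card : ℝ) ≤
    Real.exp (L * Real.log ((N + i : ℕ) : ℝ) ^ 2) * (z ^ (N + i) * ((K (N + i)).card : ℝ))) →
  (∀ i ≤ k, (((K (N + i)).filter (fun w => (b w : ℝ) < c₁ * N)).card : ℝ) ≤
    C₁ * Real.exp (-(c₂ * N)) * ((K (N + i)).card : ℝ)) →
  ∀ i ≤ k, (((K (N + i)).filter (fun w => ((Bu' w).card : ℝ) < c₁' * N)).card : ℝ) ≤
    C₁' * Real.exp (-(c₂' * N)) * ((K (N + i)).card : ℝ)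

/-- differences with step `s` -/
def EJ : ℕ → ℝ → (ℝ → ℝ) → ℝ → ℝ
  | 0, _, F, x => F x
  | j + 1, s, F, x => EJ j s F (x + s) - EJ j s F x

/-- EJ1: differences of powers -/
def StmEJ1 : Prop := ∀ r k : ℕ, ∃ C : ℝ, 1 ≤ C ∧ ∀ (s x : ℝ) (N : ℕ), (s = 1 ∨ s = -1) → 0 ≤ x →
  1 ≤ N → k ≤ N → ∀ j ≤ k, |EJ j s (fun y => y ^ r) x| ≤ C * (x + N) ^ r / N ^ j

/-- EJ2: differences of smooth functions -/
def StmEJ2 : Prop := ∀ (k : ℕ) (g : ℝ → ℝ) (M : ℝ), ContDiff ℝ k g →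
  (∀ j ≤ k, ∀ y, |iteratedDeriv j g y| ≤ M) → ∀ (s a : ℝ) (N : ℕ), (s = 1 ∨ s = -1) → 1 ≤ N →
  (N : ℝ) ≤ a → ∀ j ≤ k, ∀ x : ℝ, |EJ j s (fun y => g (y / a)) x| ≤ M / N ^ j

/-- TAY: Newton expansion in windows of length `√n / log n` -/
def StmTay : Prop := ∀ u : ℕ → ℝ, (∀ n, 2 ≤ n → 0 < u n) →
  (∀ k : ℕ, ∃ C : ℝ, ∀ n : ℕ, 2 ≤ n → |D k u n| ≤ C * (ep n ^ k * u n)) →
  ∀ k : ℕ, ∃ C : ℝ, ∀ n h : ℕ, 2 ≤ n → h * Real.log n ≤ Real.sqrt n →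
    |u (n + h) - ∑ j ∈ range k, (h.choose j : ℝ) * D j u n| ≤ C * ((h * ep n) ^ k * u n)

/-- QUL: the differences of a quotient, local version -/
def StmQul : Prop := ∀ (k : ℕ) (Cv c : ℝ), 0 < c → ∃ C : ℝ, ∀ (u v : ℕ → ℝ) (N : ℕ) (ε B : ℝ),
  0 ≤ ε → 0 ≤ B → 0 < v N → (∀ l ≤ k, c * v N ≤ v (N + l)) →
  (∀ a ≤ k, ∀ l ≤ k, |D a v (N + l)| ≤ Cv * (ε ^ a * v N)) →
  (∀ a ≤ k, |D a (fun m => u m * v m) N| ≤ Cv * (ε ^ a * (B * v N))) →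
  ∀ a ≤ k, |D a u N| ≤ C * (ε ^ a * B)

end

end Pool.Agent.T6.H92.TG
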