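import Pool.Agent.T6.H92.TG.Defs3

/-!
# All-order smoothness: module EJ1, differences of powers
-/

set_option autoImplicit false

namespace Pool.Agent.T6.H92.TG

open Finset
open scoped Classical

namespace ModEJ1

theorem EJ_succ' (j : ℕ) : ∀ (s : ℝ) (F : ℝ → ℝ) (x : ℝ),
    EJ (j + 1) s F x = EJ j s (fun y => F (y + s) - F y) x := by
  induction j with
  | zero => intro s F x; rfl
  | succ j ih =>
    intro s F x
    show EJ (j + 1) s F (x + s) - EJ (j + 1) s F x = _
    rw [ih, ih]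
    rfl

theorem EJ_sum {β : Type} (t : Finset β) (c : β → ℝ) (G : β → ℝ → ℝ) (j : ℕ) (s : ℝ) :
    ∀ x, EJ j s (fun y => ∑ i ∈ t, c i * G i y) x = ∑ i ∈ t, c i * EJ j s (G i) x := by
  induction j with
  | zero => intro x; rfl
  | succ j ih =>
    intro x
    show EJ j s _ (x + s) - EJ j s _ x = _
    rw [ih, ih, ← Finset.sum_sub_distrib]
    refine Finset.sum_congr rfl fun i _ => ?_
    show _ = c i * (EJ j s (G i) (x + s) - EJ j s (G i) x)
    ring

theorem pow_diff (r : ℕ) (s y : ℝ) :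
    (y + s) ^ r - y ^ r = ∑ i ∈ range r, ((r.choose i : ℝ) * s ^ (r - i)) * y ^ i := by
  rw [add_pow, Finset.sum_range_succ]
  simp only [Nat.sub_self, pow_zero, mul_one, Nat.choose_self, Nat.cast_one]
  rw [add_sub_cancel_right]
  refine Finset.sum_congr rfl fun i _ => ?_
  ring

theorem claim (j : ℕ) : ∀ r : ℕ, ∃ C : ℝ, 0 ≤ C ∧ ∀ s x Y : ℝ, (s = 1 ∨ s = -1) → 1 ≤ Y →
    |x| ≤ Y → |EJ j s (fun y => y ^ r) x| ≤ C * (Y ^ r / Y ^ j) := by
  induction j with
  | zero =>
    intro r
    refine ⟨1, zero_le_one, fun s x Y _ hY hx => ?_⟩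
    show |x ^ r| ≤ 1 * (Y ^ r / Y ^ 0)
    rw [abs_pow, pow_zero, div_one, one_mul]
    exact pow_le_pow_left₀ (abs_nonneg x) hx r
  | succ j ih =>
    intro r
    choose C hC0 hC using ih
    refine ⟨∑ i ∈ range r, (r.choose i : ℝ) * C i,
      Finset.sum_nonneg fun i _ => mul_nonneg (Nat.cast_nonneg _) (hC0 i),
      fun s x Y hs hY hx => ?_⟩
    have hY0 : 0 < Y := by linarith
    have hs1 : |s| = 1 := by rcases hs with h | h <;> rw [h] <;> simp
    rw [EJ_succ']
    have e : (fun y : ℝ => (y + s) ^ r - y ^ r) =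
        fun y => ∑ i ∈ range r, ((r.choose i : ℝ) * s ^ (r - i)) * (fun z : ℝ => z ^ i) y :=
      funext fun y => pow_diff r s y
    rw [e, EJ_sum, Finset.sum_mul]
    refine (Finset.abs_sum_le_sum_abs _ _).trans (Finset.sum_le_sum fun i hi => ?_)
    have hir : i < r := Finset.mem_range.mp hi
    rw [abs_mul, abs_mul, abs_pow, hs1, one_pow, mul_one, Nat.abs_cast, mul_assoc]
    refine mul_le_mul_of_nonneg_left ?_ (Nat.cast_nonneg _)
    refine (hC i s x Y hs hY hx).trans (mul_le_mul_of_nonneg_left ?_ (hC0 i))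
    rw [div_le_div_iff₀ (by positivity) (by positivity), ← pow_add, ← pow_add]
    exact pow_le_pow_right₀ hY (by omega)

end ModEJ1

open ModEJ1

theorem ej1 : StmEJ1 := by
  intro r k
  choose C hC0 hC using fun j => claim j r
  refine ⟨1 + ∑ j ∈ range (k + 1), C j, ?_, fun s x N hs hx hN hkN j hj => ?_⟩
  · have : 0 ≤ ∑ j ∈ range (k + 1), C j := Finset.sum_nonneg fun i _ => hC0 i
    linarith
  have hN' : (1 : ℝ) ≤ N := by exact_mod_cast hN
  have hN0 : (0 : ℝ) < N := by linarith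
  have hY : (N : ℝ) ≤ x + N := by linarith
  have h1 := hC j s x (x + N) hs (by linarith) (by rw [abs_of_nonneg hx]; linarith)
  have h2 : C j ≤ 1 + ∑ j ∈ range (k + 1), C j := by
    have := Finset.single_le_sum (f := C) (fun i _ => hC0 i)
      (Finset.mem_range.mpr (Nat.lt_succ_of_le hj))
    linarith
  refine h1.trans ?_
  rw [mul_div_assoc]
  refine mul_le_mul h2 ?_ (by positivity) (le_trans (hC0 j) h2)
  refine div_le_div_of_nonneg_left (by positivity) (by positivity) ?_
  exact pow_le_pow_left₀ hN0.le hY j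

end Pool.Agent.T6.H92.TG
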