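import Pool.Agent.T6.H92.TG.Defs3

/-!
# All-order smoothness: module EJ2, differences of smooth functions
-/

set_option autoImplicit false

namespace Pool.Agent.T6.H92.TG

open Finset
open scoped Classical

namespace ModEJ2

theorem EJ_succ' (j : ℕ) : ∀ (s : ℝ) (F : ℝ → ℝ) (x : ℝ),
    EJ (j + 1) s F x = EJ j s (fun y => F (y + s) - F y) x := by
  induction j with
  | zero => intro s F x; rfl
  | succ j ih =>
    intro s F x
    show EJ (j + 1) s F (x + s) - EJ (j + 1) s F x = _
    rw [ih, ih]
    rfl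

theorem bound (j : ℕ) : ∀ (F : ℝ → ℝ) (B s : ℝ), (s = 1 ∨ s = -1) → ContDiff ℝ j F →
    (∀ y, |iteratedDeriv j F y| ≤ B) → ∀ x, |EJ j s F x| ≤ B := by
  induction j with
  | zero =>
    intro F B s _ _ h x
    have := h x
    rw [iteratedDeriv_zero] at this
    exact this
  | succ j ih =>
    intro F B s hs hF h x
    have hs1 : |s| = 1 := by rcases hs with h | h <;> rw [h] <;> simp
    have hFj : ContDiff ℝ j F := hF.of_le (by exact_mod_cast Nat.le_succ j)
    have hsh : ContDiff ℝ j (fun y => F (y + s)) := hFj.comp (contDiff_id.add contDiff_const)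
    rw [EJ_succ']
    refine ih _ B s hs (hsh.sub hFj) ?_ x
    intro y
    have e : iteratedDeriv j (fun y => F (y + s) - F y) y =
        iteratedDeriv j F (y + s) - iteratedDeriv j F y := by
      rw [iteratedDeriv_fun_sub hsh.contDiffAt hFj.contDiffAt, iteratedDeriv_comp_add_const]
    rw [e]
    have hd : ∀ z ∈ (Set.univ : Set ℝ), DifferentiableAt ℝ (iteratedDeriv j F) z := by
      intro z _
      exact (hF.differentiable_iteratedDeriv j (by exact_mod_cast Nat.lt_succ_self j)) z
    have hb : ∀ z ∈ (Set.univ : Set ℝ), ‖deriv (iteratedDeriv j F) z‖ ≤ B := by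
      intro z _
      rw [← iteratedDeriv_succ, Real.norm_eq_abs]
      exact h z
    have := Convex.norm_image_sub_le_of_norm_deriv_le hd hb convex_univ (Set.mem_univ y)
      (Set.mem_univ (y + s))
    rw [Real.norm_eq_abs, Real.norm_eq_abs, add_sub_cancel_left, hs1, mul_one] at this
    exact this

end ModEJ2

open ModEJ2

theorem ej2 : StmEJ2 := by
  intro k g M hg hM s a N hs hN hNa j hj x
  have hN' : (1 : ℝ) ≤ N := by exact_mod_cast hN
  have ha : 0 < a := by linarith
  have hM0 : 0 ≤ M := (abs_nonneg _).trans (hM 0 (Nat.zero_le k) 0)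
  have hgj : ContDiff ℝ j g := hg.of_le (by exact_mod_cast hj)
  have hF : ContDiff ℝ j (fun y => g (y / a)) := hgj.comp (contDiff_id.div_const a)
  refine bound j _ (M / N ^ j) s hs hF ?_ x
  intro y
  have e : (fun y => g (y / a)) = fun y => g (a⁻¹ * y) := by
    funext y; rw [div_eq_inv_mul]
  rw [e, iteratedDeriv_comp_const_mul hgj a⁻¹]
  simp only [smul_eq_mul]
  rw [abs_mul, abs_pow, abs_of_pos (inv_pos.mpr ha), inv_pow, div_eq_inv_mul]
  refine mul_le_mul ?_ (hM j hj _) (abs_nonneg _) (by positivity)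
  exact inv_anti₀ (by positivity) (pow_le_pow_left₀ (by positivity) hNa j)

end Pool.Agent.T6.H92.TG
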