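import Pool.Agent.T6.H92.TG.Cnt
import Pool.Agent.H976R2.KFew
import Pool.Agent.H739K.RATIO
import Pool.Agent.H739K.All1

/-!
# Most polygons have many inner bumps
-/

set_option autoImplicit false

namespace Pool.Agent.T6.H92.TG

open Finset Pool.Agent.H976R2 Pool.Agent.H976R2.Lip Pool.Agent.H924P Pool.Agent.H739K
  Pool.Agent.T6.H92.SP Filter Topology
open scoped Classical

noncomputable section

theorem few_exp' : ∃ C c : ℝ, 0 < C ∧ 0 < c ∧ ∀ n : ℕ, 3 ≤ n → n % 2 = 1 →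
    ((few n).card : ℝ) ≤ C * Real.exp (- (c * n)) * ((KP n).card : ℝ) := by
  obtain ⟨C, hC, h1⟩ := Few.few_card
  obtain ⟨hmu, K, hK, h2⟩ := BND_proof CONV_proof
  have hr0 : (0 : ℝ) < 2.428 / 2.429 := by norm_num
  have hr1 : (2.428 / 2.429 : ℝ) < 1 := by norm_num
  have hs0 : (0 : ℝ) < 2.429 / 2.43 := by norm_num
  have hs1 : (2.429 / 2.43 : ℝ) < 1 := by norm_num
  obtain ⟨B, hB0, hB⟩ := RATIO.bounded K hK (2.429 / 2.43) hs0 hs1
  refine ⟨C * B, - Real.log (2.428 / 2.429), by positivity, ?_, fun n hn hodd => ?_⟩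
  · have := Real.log_neg hr0 hr1; linarith
  have h3 := h1 n
  have h4 := (h2 n hn hodd).1
  have h5' := hB n
  have hn1 : (1 : ℝ) ≤ (n : ℝ) ^ 4 := by
    apply one_le_pow₀
    exact_mod_cast (by omega : 1 ≤ n)
  have h5 : (2.429 / 2.43 : ℝ) ^ n * Real.exp (K * (Real.log n) ^ 9) ≤ B := by
    refine le_trans ?_ h5'
    have : 0 ≤ (2.429 / 2.43 : ℝ) ^ n * Real.exp (K * (Real.log n) ^ 9) := by positivity
    nlinarith
  have hmu0 : 0 < H981.mu := by linarith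
  have h7 : (2.43 : ℝ) ^ n ≤ H981.mu ^ n := pow_le_pow_left₀ (by norm_num) hmu n
  have h8 : Real.exp (-(- Real.log (2.428 / 2.429) * n)) = (2.428 / 2.429 : ℝ) ^ n := by
    rw [neg_mul, neg_neg, mul_comm, ← Real.log_pow, Real.exp_log (by positivity)]
  rw [h8]
  have h9 : (2.429 : ℝ) ^ n ≤ B * ((KP n).card : ℝ) := by
    rw [div_pow] at h5
    have e : ((2.429 : ℝ) ^ n / 2.43 ^ n) * Real.exp (K * (Real.log n) ^ 9) =
        2.429 ^ n / (2.43 ^ n * Real.exp (-(K * (Real.log n) ^ 9))) := by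
      rw [Real.exp_neg]; field_simp
    rw [e, div_le_iff₀ (by positivity)] at h5
    refine h5.trans ?_
    gcongr
    refine le_trans ?_ h4
    gcongr
  calc ((few n).card : ℝ) ≤ C * 2.428 ^ n := h3
    _ = C * (2.428 / 2.429) ^ n * 2.429 ^ n := by rw [div_pow]; field_simp
    _ ≤ C * (2.428 / 2.429) ^ n * (B * ((KP n).card : ℝ)) := by gcongr
    _ = _ := by ring

theorem few_bumps : ∃ C c : ℝ, 0 < C ∧ 0 < c ∧ ∀ n : ℕ, 1 ≤ n →
    (((KK (2 * n + 1)).filter (fun w => (bc w : ℝ) < ((2 * n + 1 : ℕ) : ℝ) / 2000)).card : ℝ) ≤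
      C * Real.exp (-(c * n)) * ((KK (2 * n + 1)).card : ℝ) := by
  obtain ⟨C, c, hC, hc, h⟩ := few_exp'
  refine ⟨C, c, hC, hc, fun n hn => ?_⟩
  have h1 : (KK (2 * n + 1)).filter (fun w => (bc w : ℝ) < ((2 * n + 1 : ℕ) : ℝ) / 2000) ⊆
      few (2 * n + 1) := by
    intro w hw
    rw [mem_filter] at hw
    unfold few
    rw [mem_filter]
    exact ⟨(mem_filter.1 hw.1).1, hw.2⟩
  have h2 : (((KK (2 * n + 1)).filter (fun w => (bc w : ℝ) < ((2 * n + 1 : ℕ) : ℝ) / 2000)).card : ℝ) ≤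
      ((few (2 * n + 1)).card : ℝ) := by exact_mod_cast Finset.card_le_card h1
  refine h2.trans ((h (2 * n + 1) (by omega) (by omega)).trans ?_)
  rw [KK_eq]
  apply mul_le_mul_of_nonneg_right _ (Nat.cast_nonneg _)
  apply mul_le_mul_of_nonneg_left _ hC.le
  apply Real.exp_le_exp.2
  have hn' : (0 : ℝ) ≤ n := Nat.cast_nonneg n
  push_cast
  nlinarith

theorem fewI : StmFew := by
  intro hinn hbxt
  obtain ⟨C, c, hC, hc, h⟩ := few_bumps
  obtain ⟨C', c', hC', hc', h'⟩ := hbxt (1 / 4000) (by norm_num)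
  refine ⟨C + C', min c c', by positivity, by positivity, fun n hn => ?_⟩
  have hK : (0 : ℝ) ≤ ((KK (2 * n + 1)).card : ℝ) := Nat.cast_nonneg _
  have hn' : (0 : ℝ) ≤ n := Nat.cast_nonneg n
  have h1 : (KK (2 * n + 1)).filter (fun w => ((IB w).card : ℝ) < n / 2000) ⊆
      (KK (2 * n + 1)).filter (fun w => (bc w : ℝ) < ((2 * n + 1 : ℕ) : ℝ) / 2000) ∪
      (KK (2 * n + 1)).filter (fun w => 1 / 4000 * (n : ℝ) ≤ (bx w : ℝ)) := by
    intro w hw
    rw [mem_filter] at hw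
    rw [mem_union, mem_filter, mem_filter]
    by_contra hcon
    rw [not_or] at hcon
    have h2 : ¬ ((bc w : ℝ) < ((2 * n + 1 : ℕ) : ℝ) / 2000) := fun h => hcon.1 ⟨hw.1, h⟩
    have h3 : ¬ (1 / 4000 * (n : ℝ) ≤ (bx w : ℝ)) := fun h => hcon.2 ⟨hw.1, h⟩
    have h4 : (bc w : ℝ) ≤ (IB w).card + 2 * bx w := by
      exact_mod_cast hinn w (mem_SW.1 (mem_filter.1 hw.1).1).2
    push_cast at h2
    have h5 := hw.2
    push Not at h2 h3
    linarith
  have h2 : (((KK (2 * n + 1)).filter (fun w => ((IB w).card : ℝ) < n / 2000)).card : ℝ) ≤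
      (((KK (2 * n + 1)).filter (fun w => (bc w : ℝ) < ((2 * n + 1 : ℕ) : ℝ) / 2000)).card : ℝ) +
      (((KK (2 * n + 1)).filter (fun w => 1 / 4000 * (n : ℝ) ≤ (bx w : ℝ))).card : ℝ) := by
    exact_mod_cast (Finset.card_le_card h1).trans (Finset.card_union_le _ _)
  have h3 := h n hn
  have h4 := h' n hn
  have h5 : Real.exp (-(c * n)) ≤ Real.exp (-(min c c' * n)) := by
    apply Real.exp_le_exp.2
    have := min_le_left c c'
    nlinarith
  have h6 : Real.exp (-(c' * n)) ≤ Real.exp (-(min c c' * n)) := by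
    apply Real.exp_le_exp.2
    have := min_le_right c c'
    nlinarith
  calc _ ≤ _ := h2
    _ ≤ C * Real.exp (-(c * n)) * ((KK (2 * n + 1)).card : ℝ) +
        C' * Real.exp (-(c' * n)) * ((KK (2 * n + 1)).card : ℝ) := add_le_add h3 h4
    _ ≤ C * Real.exp (-(min c c' * n)) * ((KK (2 * n + 1)).card : ℝ) +
        C' * Real.exp (-(min c c' * n)) * ((KK (2 * n + 1)).card : ℝ) := by gcongr
    _ = _ := by ring

end

end Pool.Agent.T6.H92.TG
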