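import Pool.Agent.T6.H92.TG.Defs3
import Pool.Agent.T6.H92.TG.Core

/-!
# Module FEWM: many bumps in a restricted system
-/

set_option autoImplicit false

namespace Pool.Agent.T6.H92.TG

open Finset Filter
open scoped Classical

noncomputable section

/-- the elements with few bumps have few cells or are unbalanced -/
theorem fewm_sub {α ι : Type} {S : Finset α} {b : α → ℕ} {Fl' Bu' : α → Finset ι} {z c₁ : ℝ}
    {N : ℕ} (hz0 : 0 < z) (hz1 : z ≤ 1) (hc₁ : 0 < c₁)
    (hb : ∀ w ∈ S, b w ≤ 2 * ((Fl' w).card + (Bu' w).card)) :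
    S.filter (fun w => ((Bu' w).card : ℝ) < z * c₁ / 16 * N) ⊆
      S.filter (fun w => (b w : ℝ) < c₁ * N) ∪
      S.filter (fun w => z * c₁ * N / 8 ≤ |z * (Fl' w).card - (Bu' w).card|) := by
  intro w hw
  rw [mem_filter] at hw
  rw [mem_union, mem_filter, mem_filter]
  by_cases h : (b w : ℝ) < c₁ * N
  · exact Or.inl ⟨hw.1, h⟩
  · right
    refine ⟨hw.1, ?_⟩
    push Not at h
    have h1 : ((b w : ℕ) : ℝ) ≤ ((2 * ((Fl' w).card + (Bu' w).card) : ℕ) : ℝ) := by
      exact_mod_cast hb w hw.1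
    push_cast at h1
    have h2 := hw.2
    have hN : (0 : ℝ) ≤ c₁ * N := by positivity
    have h3 : z * (c₁ * N) ≤ c₁ * N := by nlinarith
    have h4 : z * (c₁ * N / 2 - (Bu' w).card) ≤ z * (Fl' w).card := by
      apply mul_le_mul_of_nonneg_left _ hz0.le
      linarith
    have h5 : z * (Bu' w).card ≤ (Bu' w).card := by
      have : (0 : ℝ) ≤ (Bu' w).card := Nat.cast_nonneg _
      nlinarith
    refine le_trans ?_ (le_abs_self _)
    have e1 : z * c₁ / 16 * N = z * (c₁ * N) / 16 := by ring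
    have e2 : z * c₁ * N / 8 = z * (c₁ * N) / 8 := by ring
    have e3 : z * (c₁ * N / 2 - (Bu' w).card) = z * (c₁ * N) / 2 - z * (Bu' w).card := by ring
    rw [e1] at h2
    rw [e2]
    rw [e3] at h4
    have h6 : 0 ≤ z * (c₁ * N) := by positivity
    linarith

/-- module FEWM -/
theorem fewm : StmFewM := by
  intro k z L c₁ C₁ c₂ hz0 hz1 hL hc₁ hC₁ hc₂
  have hzc : 0 < z * c₁ := mul_pos hz0 hc₁
  set c' : ℝ := (z * c₁) ^ 2 / 393216 with hc'
  have hc'0 : 0 < c' := by positivity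
  refine ⟨z * c₁ / 16, C₁ + 1, min c₂ c', by positivity, by linarith, lt_min hc₂ hc'0, ?_⟩
  have a1 := asy2 0 (A := 2) (L := 4 * L) (c := c') (by norm_num) (by positivity) hc'0
  have a2 : ∀ᶠ N : ℕ in atTop, 128 / (z * c₁) ≤ (N : ℝ) :=
    (tendsto_natCast_atTop_atTop (R := ℝ)).eventually_ge_atTop _
  obtain ⟨N₀, hN₀⟩ := eventually_atTop.1 (a1.and (a2.and ((eventually_ge_atTop k).and
    (eventually_ge_atTop 2))))
  refine ⟨N₀, ?_⟩
  intro N hN α ι K b Fl' Bu' up dn T hcard hb hgr hfew i hi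
  obtain ⟨b1, b2, b3, b4⟩ := hN₀ N hN
  have hNr : (2 : ℝ) ≤ N := by exact_mod_cast b4
  have hN0 : (0 : ℝ) < N := by linarith
  have hN'2 : ((N + i : ℕ) : ℝ) ≤ 2 * N := by
    have : N + i ≤ 2 * N := by omega
    exact_mod_cast this
  have hN'1 : (N : ℝ) ≤ ((N + i : ℕ) : ℝ) := by
    exact_mod_cast Nat.le_add_right N i
  have hN'0 : 0 < ((N + i : ℕ) : ℝ) := by linarith
  set t : ℝ := z * c₁ * N / 8 with ht
  have ht16 : 16 ≤ t := by
    rw [div_le_iff₀ hzc] at b2
    rw [ht]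
    nlinarith
  have hK0 : (0 : ℝ) ≤ ((K (N + i)).card : ℝ) := Nat.cast_nonneg _
  have htail := tail T hz0 hz1 (N := N + i) (B := 8 * (N + i)) (by omega)
    (fun w hw => by
      obtain ⟨h1, h2⟩ := hcard (N + i) (by omega) w hw
      exact ⟨by omega, by omega, by omega⟩)
    (Λ := Real.exp (L * Real.log ((N + i : ℕ) : ℝ) ^ 2))
    (fun n hn => hgr i hi n (by omega)) ht16
  -- the two exponentials
  have hlog0 : 0 ≤ Real.log (N : ℝ) := Real.log_natCast_nonneg N
  have hlog : Real.log ((N + i : ℕ) : ℝ) ^ 2 ≤ 4 * Real.log N ^ 2 := by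
    have h1 : Real.log ((N + i : ℕ) : ℝ) ≤ 2 * Real.log N := by
      calc Real.log ((N + i : ℕ) : ℝ) ≤ Real.log (2 * N) := Real.log_le_log hN'0 hN'2
        _ = Real.log 2 + Real.log N := Real.log_mul (by norm_num) hN0.ne'
        _ ≤ Real.log N + Real.log N := by
          have := Real.log_le_log (by norm_num : (0 : ℝ) < 2) hNr
          linarith
        _ = 2 * Real.log N := by ring
    have h2 : 0 ≤ Real.log ((N + i : ℕ) : ℝ) := Real.log_natCast_nonneg _
    nlinarith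
  have hexp : -(t ^ 2 / (192 * ((8 * (N + i) : ℕ) : ℝ))) ≤ -(c' * N) + -(c' * N) := by
    have h1 : ((8 * (N + i) : ℕ) : ℝ) = 8 * ((N + i : ℕ) : ℝ) := by push_cast; ring
    rw [h1]
    have h2 : c' * N + c' * N ≤ t ^ 2 / (192 * (8 * ((N + i : ℕ) : ℝ))) := by
      rw [le_div_iff₀ (by positivity), ht, hc']
      have h3 : ((z * c₁) ^ 2 / 393216 * N + (z * c₁) ^ 2 / 393216 * N) *
          (192 * (8 * ((N + i : ℕ) : ℝ))) ≤
          ((z * c₁) ^ 2 / 393216 * N + (z * c₁) ^ 2 / 393216 * N) * (192 * (8 * (2 * N))) := by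
        gcongr
      refine h3.trans (le_of_eq ?_)
      ring
    linarith
  have hlogL : L * Real.log ((N + i : ℕ) : ℝ) ^ 2 ≤ 4 * L * Real.log N ^ 2 := by
    calc L * Real.log ((N + i : ℕ) : ℝ) ^ 2 ≤ L * (4 * Real.log N ^ 2) :=
          mul_le_mul_of_nonneg_left hlog hL
      _ = 4 * L * Real.log N ^ 2 := by ring
  have hmain : 2 * Real.exp (L * Real.log ((N + i : ℕ) : ℝ) ^ 2) *
      Real.exp (-(t ^ 2 / (192 * ((8 * (N + i) : ℕ) : ℝ)))) ≤ Real.exp (-(c' * N)) := by
    calc 2 * Real.exp (L * Real.log ((N + i : ℕ) : ℝ) ^ 2) *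
        Real.exp (-(t ^ 2 / (192 * ((8 * (N + i) : ℕ) : ℝ)))) ≤
        2 * Real.exp (4 * L * Real.log N ^ 2) * Real.exp (-(c' * N) + -(c' * N)) := by
          apply mul_le_mul _ (Real.exp_le_exp.2 hexp) (Real.exp_pos _).le (by positivity)
          exact mul_le_mul_of_nonneg_left (Real.exp_le_exp.2 hlogL) (by norm_num)
      _ = (2 * (N : ℝ) ^ 0 * (Real.exp (4 * L * Real.log N ^ 2) * Real.exp (-(c' * N)))) *
          Real.exp (-(c' * N)) := by
          rw [Real.exp_add, pow_zero]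
          ring
      _ ≤ 1 * Real.exp (-(c' * N)) := by gcongr
      _ = Real.exp (-(c' * N)) := one_mul _
  have hsub := fewm_sub (S := K (N + i)) (b := b) (Fl' := Fl') (Bu' := Bu') (N := N) hz0 hz1 hc₁
    (fun w hw => hb (N + i) w hw)
  have hcardsub : (((K (N + i)).filter (fun w => ((Bu' w).card : ℝ) < z * c₁ / 16 * N)).card : ℝ) ≤
      (((K (N + i)).filter (fun w => (b w : ℝ) < c₁ * N)).card : ℝ) +
      (((K (N + i)).filter (fun w => z * c₁ * N / 8 ≤
        |z * (Fl' w).card - (Bu' w).card|)).card : ℝ) := by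
    have := (Finset.card_le_card hsub).trans (Finset.card_union_le _ _)
    exact_mod_cast this
  have hf := hfew i hi
  have hm1 : Real.exp (-(c₂ * N)) ≤ Real.exp (-(min c₂ c' * N)) := by
    apply Real.exp_le_exp.2
    apply neg_le_neg
    exact mul_le_mul_of_nonneg_right (min_le_left _ _) hN0.le
  have hm2 : Real.exp (-(c' * N)) ≤ Real.exp (-(min c₂ c' * N)) := by
    apply Real.exp_le_exp.2
    apply neg_le_neg
    exact mul_le_mul_of_nonneg_right (min_le_right _ _) hN0.le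
  calc (((K (N + i)).filter (fun w => ((Bu' w).card : ℝ) < z * c₁ / 16 * N)).card : ℝ) ≤ _ :=
        hcardsub
    _ ≤ C₁ * Real.exp (-(c₂ * N)) * ((K (N + i)).card : ℝ) +
        2 * Real.exp (L * Real.log ((N + i : ℕ) : ℝ) ^ 2) *
        Real.exp (-(t ^ 2 / (192 * ((8 * (N + i) : ℕ) : ℝ)))) * ((K (N + i)).card : ℝ) :=
        add_le_add hf htail
    _ ≤ C₁ * Real.exp (-(min c₂ c' * N)) * ((K (N + i)).card : ℝ) +
        Real.exp (-(min c₂ c' * N)) * ((K (N + i)).card : ℝ) := by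
        apply add_le_add
        · gcongr
        · exact mul_le_mul_of_nonneg_right (hmain.trans hm2) hK0
    _ = (C₁ + 1) * Real.exp (-(min c₂ c' * N)) * ((K (N + i)).card : ℝ) := by ring

end

end Pool.Agent.T6.H92.TG
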