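import Pool.Agent.T6.H92.TG.Defs

/-! Module QUO of helper92's project TG (MP_2250b1_co, MP_c23e5f_co). -/

set_option autoImplicit false

namespace Pool.Agent.T6.H92.TG.ModQuo

/-- values used by `D a u n` -/
theorem D_congr : ∀ (a : ℕ) (u v : ℕ → ℝ) (n : ℕ), (∀ m, n ≤ m → u m = v m) →
    D a u n = D a v n := by
  intro a
  induction a with
  | zero => intro u v n h; exact h n le_rfl
  | succ a ih =>
    intro u v n h
    show D a u (n + 1) - D a u n = D a v (n + 1) - D a v n
    rw [ih u v (n + 1) (fun m hm => h m (by omega)), ih u v n h]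

theorem D_succ' : ∀ (a : ℕ) (u : ℕ → ℝ) (n : ℕ),
    D (a + 1) u n = D a (fun i => u (i + 1) - u i) n := by
  intro a
  induction a with
  | zero => intro u n; rfl
  | succ a ih =>
    intro u n
    show D (a + 1) u (n + 1) - D (a + 1) u n =
      D a (fun i => u (i + 1) - u i) (n + 1) - D a (fun i => u (i + 1) - u i) n
    rw [ih, ih]

theorem D_add : ∀ (a : ℕ) (u v : ℕ → ℝ) (n : ℕ),
    D a (fun i => u i + v i) n = D a u n + D a v n := by
  intro a
  induction a with
  | zero => intro u v n; rfl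
  | succ a ih =>
    intro u v n
    show D a (fun i => u i + v i) (n + 1) - D a (fun i => u i + v i) n =
      (D a u (n + 1) - D a u n) + (D a v (n + 1) - D a v n)
    rw [ih, ih]; ring

theorem D_neg : ∀ (a : ℕ) (u : ℕ → ℝ) (n : ℕ), D a (fun i => - u i) n = - D a u n := by
  intro a
  induction a with
  | zero => intro u n; rfl
  | succ a ih =>
    intro u n
    show D a (fun i => - u i) (n + 1) - D a (fun i => - u i) n = -(D a u (n + 1) - D a u n)
    rw [ih, ih]; ring

theorem D_shift : ∀ (a : ℕ) (u : ℕ → ℝ) (n : ℕ), D a (fun i => u (i + 1)) n = D a u (n + 1) := by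
  intro a
  induction a with
  | zero => intro u n; rfl
  | succ a ih =>
    intro u n
    show D a (fun i => u (i + 1)) (n + 1) - D a (fun i => u (i + 1)) n =
      D a u (n + 1 + 1) - D a u (n + 1)
    rw [ih, ih]

theorem ep_pos {n : ℕ} (hn : 2 ≤ n) : 0 < ep n := by
  unfold ep
  have h1 : (1 : ℝ) < n := by exact_mod_cast hn
  exact div_pos (Real.log_pos h1) (Real.sqrt_pos.2 (by linarith))

theorem ep_succ {n : ℕ} (hn : 2 ≤ n) : ep (n + 1) ≤ 2 * ep n := by
  unfold ep
  have h1 : (2 : ℝ) ≤ n := by exact_mod_cast hn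
  have h2 : Real.log ((n + 1 : ℕ) : ℝ) ≤ 2 * Real.log n := by
    have : 2 * Real.log n = Real.log ((n : ℝ) ^ 2) := by rw [Real.log_pow]; norm_num
    rw [this]
    apply Real.log_le_log (by positivity)
    push_cast
    nlinarith
  have h3 : Real.sqrt n ≤ Real.sqrt ((n + 1 : ℕ) : ℝ) := Real.sqrt_le_sqrt (by push_cast; linarith)
  have h4 : 0 < Real.sqrt n := Real.sqrt_pos.2 (by linarith)
  have h5 : 0 ≤ Real.log n := Real.log_nonneg (by linarith)
  calc Real.log ((n + 1 : ℕ) : ℝ) / Real.sqrt ((n + 1 : ℕ) : ℝ)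
      ≤ (2 * Real.log n) / Real.sqrt n := by gcongr
    _ = 2 * (Real.log n / Real.sqrt n) := by ring

theorem ep_le {n : ℕ} (hn : 2 ≤ n) : ep n ≤ 2 := by
  unfold ep
  have h1 : (2 : ℝ) ≤ n := by exact_mod_cast hn
  have h4 : 0 < Real.sqrt n := Real.sqrt_pos.2 (by linarith)
  rw [div_le_iff₀ h4]
  have h6 : Real.log n = 2 * Real.log (Real.sqrt n) := by
    rw [Real.log_sqrt (by linarith)]; ring
  have h7 := Real.log_le_sub_one_of_pos h4
  rw [h6]; linarith

theorem ep_tendsto : Filter.Tendsto ep Filter.atTop (nhds 0) := by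
  have h := (isLittleO_log_rpow_atTop (r := 1 / 2) (by norm_num)).tendsto_div_nhds_zero
  have h2 := h.comp (tendsto_natCast_atTop_atTop (R := ℝ))
  refine h2.congr fun n => ?_
  simp only [Function.comp, ep, Real.sqrt_eq_rpow]

/-- a positive weight which at most doubles (up to a constant) in one step -/
def Ta (p : ℕ → ℝ) : Prop := (∀ n, 2 ≤ n → 0 < p n) ∧ ∃ K : ℝ, ∀ n, 2 ≤ n → p (n + 1) ≤ K * p n

/-- bound for the difference of order `a` relative to the weight -/
def B (a : ℕ) (u p : ℕ → ℝ) : Prop := ∃ C : ℝ, ∀ n : ℕ, 2 ≤ n → |D a u n| ≤ C * (ep n ^ a * p n)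

theorem B_pos {a : ℕ} {u p : ℕ → ℝ} (hp : ∀ n, 2 ≤ n → 0 < p n) (h : B a u p) :
    ∃ C : ℝ, 0 < C ∧ ∀ n : ℕ, 2 ≤ n → |D a u n| ≤ C * (ep n ^ a * p n) := by
  obtain ⟨C, hC⟩ := h
  refine ⟨|C| + 1, by positivity, fun n hn => (hC n hn).trans ?_⟩
  have : 0 ≤ ep n ^ a * p n := by
    have := ep_pos hn; have := hp n hn; positivity
  exact mul_le_mul_of_nonneg_right (by linarith [le_abs_self C]) this

theorem Ta_pos {p : ℕ → ℝ} (h : Ta p) : ∃ K : ℝ, 0 < K ∧ ∀ n, 2 ≤ n → p (n + 1) ≤ K * p n := by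
  obtain ⟨hp, K, hK⟩ := h
  refine ⟨|K| + 1, by positivity, fun n hn => (hK n hn).trans ?_⟩
  exact mul_le_mul_of_nonneg_right (by linarith [le_abs_self K]) (hp n hn).le

theorem Ta_mul {p q : ℕ → ℝ} (hp : Ta p) (hq : Ta q) : Ta (fun n => p n * q n) := by
  obtain ⟨K, hK, h1⟩ := Ta_pos hp
  obtain ⟨L, hL, h2⟩ := Ta_pos hq
  refine ⟨fun n hn => mul_pos (hp.1 n hn) (hq.1 n hn), K * L, fun n hn => ?_⟩
  have h3 := (hp.1 n hn).le
  have h4 := (hq.1 (n + 1) (by omega)).le
  calc p (n + 1) * q (n + 1) ≤ (K * p n) * (L * q n) := by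
        apply mul_le_mul (h1 n hn) (h2 n hn) h4 (by positivity)
    _ = K * L * (p n * q n) := by ring

theorem Ta_ep : Ta ep := ⟨fun _ hn => ep_pos hn, 2, fun _ hn => ep_succ hn⟩

theorem B_delta {a : ℕ} {u p : ℕ → ℝ} (h : B (a + 1) u p) :
    B a (fun i => u (i + 1) - u i) (fun n => ep n * p n) := by
  obtain ⟨C, hC⟩ := h
  refine ⟨C, fun n hn => ?_⟩
  rw [← D_succ']
  refine (hC n hn).trans (le_of_eq ?_)
  ring

theorem B_shift {a : ℕ} {u p : ℕ → ℝ} (hp : Ta p) (h : B a u p) :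
    B a (fun i => u (i + 1)) p := by
  obtain ⟨C, hC0, hC⟩ := B_pos hp.1 h
  obtain ⟨K, hK0, hK⟩ := Ta_pos hp
  refine ⟨C * (2 ^ a * K), fun n hn => ?_⟩
  rw [D_shift]
  have h1 := ep_pos hn
  have h2 := ep_pos (show 2 ≤ n + 1 by omega)
  have h3 := hp.1 n hn
  have h4 := hp.1 (n + 1) (by omega)
  calc |D a u (n + 1)| ≤ C * (ep (n + 1) ^ a * p (n + 1)) := hC _ (by omega)
    _ ≤ C * ((2 * ep n) ^ a * (K * p n)) := by
        gcongr
        · exact ep_succ hn
        · exact hK n hn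
    _ = C * (2 ^ a * K) * (ep n ^ a * p n) := by rw [mul_pow]; ring

theorem B_add {a : ℕ} {u v p : ℕ → ℝ} (hu : B a u p) (hv : B a v p) :
    B a (fun i => u i + v i) p := by
  obtain ⟨C, hC⟩ := hu
  obtain ⟨E, hE⟩ := hv
  refine ⟨C + E, fun n hn => ?_⟩
  rw [D_add, add_mul]
  exact (abs_add_le _ _).trans (add_le_add (hC n hn) (hE n hn))

theorem B_weight {a : ℕ} {u p q : ℕ → ℝ} (h : ∀ n, 2 ≤ n → p n = q n) (hu : B a u p) :
    B a u q := by
  obtain ⟨C, hC⟩ := hu
  exact ⟨C, fun n hn => by rw [← h n hn]; exact hC n hn⟩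

theorem B_fun {a : ℕ} {u v p : ℕ → ℝ} (h : ∀ n, 2 ≤ n → u n = v n) (hu : B a u p) :
    B a v p := by
  obtain ⟨C, hC⟩ := hu
  refine ⟨C, fun n hn => ?_⟩
  rw [← D_congr a u v n (fun m hm => h m (hn.trans hm))]
  exact hC n hn

theorem B_mul : ∀ (a : ℕ) (u v p q : ℕ → ℝ), Ta p → Ta q → (∀ j ≤ a, B j u p) →
    (∀ j ≤ a, B j v q) → B a (fun n => u n * v n) (fun n => p n * q n) := by
  intro a
  induction a with
  | zero =>
    intro u v p q hp hq hu hv
    obtain ⟨C, hC0, hC⟩ := B_pos hp.1 (hu 0 le_rfl)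
    obtain ⟨E, hE0, hE⟩ := B_pos hq.1 (hv 0 le_rfl)
    refine ⟨C * E, fun n hn => ?_⟩
    have h1 := hC n hn
    have h2 := hE n hn
    simp only [D, pow_zero, one_mul] at h1 h2 ⊢
    rw [abs_mul]
    calc |u n| * |v n| ≤ (C * p n) * (E * q n) :=
          mul_le_mul h1 h2 (abs_nonneg _) ((abs_nonneg _).trans h1)
      _ = C * E * (p n * q n) := by ring
  | succ a ih =>
    intro u v p q hp hq hu hv
    have h1 : B a (fun n => (u (n + 1) - u n) * v (n + 1)) (fun n => (ep n * p n) * q n) :=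
      ih _ _ (fun n => ep n * p n) q (Ta_mul Ta_ep hp) hq
        (fun j hj => B_delta (hu (j + 1) (by omega)))
        (fun j hj => B_shift hq (hv j (by omega)))
    have h2 : B a (fun n => u n * (v (n + 1) - v n)) (fun n => p n * (ep n * q n)) :=
      ih _ _ p (fun n => ep n * q n) hp (Ta_mul Ta_ep hq) (fun j hj => hu j (by omega))
        (fun j hj => B_delta (hv (j + 1) (by omega)))
    have h1' : B a (fun n => (u (n + 1) - u n) * v (n + 1)) (fun n => ep n * (p n * q n)) :=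
      B_weight (fun n _ => by ring) h1
    have h2' : B a (fun n => u n * (v (n + 1) - v n)) (fun n => ep n * (p n * q n)) :=
      B_weight (fun n _ => by ring) h2
    obtain ⟨C, hC⟩ := B_add h1' h2'
    refine ⟨C, fun n hn => ?_⟩
    rw [D_succ']
    have h3 := hC n hn
    rw [D_congr a (fun i => u (i + 1) * v (i + 1) - u i * v i)
      (fun i => (u (i + 1) - u i) * v (i + 1) + u i * (v (i + 1) - v i)) n (fun m _ => by ring)]
    refine h3.trans (le_of_eq ?_)
    ring

theorem ratio_lower {v : ℕ → ℝ} (hv : ∀ n, 2 ≤ n → 0 < v n) (h : B 1 v v) :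
    ∃ c : ℝ, 0 < c ∧ ∀ n, 2 ≤ n → c * v n ≤ v (n + 1) := by
  obtain ⟨C, hC0, hC⟩ := B_pos hv h
  have ht : ∀ᶠ n in Filter.atTop, ep n < 1 / (2 * C) :=
    ep_tendsto.eventually_lt_const (by positivity)
  obtain ⟨N, hN⟩ := Filter.eventually_atTop.1 ht
  -- finitely many ratios
  have hfin : ∀ M : ℕ, ∃ c : ℝ, 0 < c ∧ ∀ n, 2 ≤ n → n < M → c * v n ≤ v (n + 1) := by
    intro M
    induction M with
    | zero => exact ⟨1, one_pos, fun n _ h => absurd h (by omega)⟩
    | succ M ih =>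
      obtain ⟨c, hc, hcM⟩ := ih
      by_cases h2 : 2 ≤ M
      · refine ⟨min c (v (M + 1) / v M), lt_min hc (div_pos (hv _ (by omega)) (hv _ h2)),
          fun n hn hnM => ?_⟩
        rcases Nat.lt_succ_iff_lt_or_eq.1 hnM with h | h
        · exact (mul_le_mul_of_nonneg_right (min_le_left _ _) (hv n hn).le).trans (hcM n hn h)
        · subst h
          refine (mul_le_mul_of_nonneg_right (min_le_right _ _) (hv n hn).le).trans (le_of_eq ?_)
          exact div_mul_cancel₀ _ (hv n hn).ne'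
      · exact ⟨c, hc, fun n hn hnM => absurd hnM (by omega)⟩
  obtain ⟨c, hc, hcN⟩ := hfin N
  refine ⟨min c (1 / 2), lt_min hc (by norm_num), fun n hn => ?_⟩
  have hvn := hv n hn
  by_cases hnN : n < N
  · exact (mul_le_mul_of_nonneg_right (min_le_left _ _) hvn.le).trans (hcN n hn hnN)
  · refine (mul_le_mul_of_nonneg_right (min_le_right _ _) hvn.le).trans ?_
    have h1 := hC n hn
    have h2 := hN n (by omega)
    simp only [D, pow_one] at h1
    have h3 : C * (ep n * v n) ≤ 1 / 2 * v n := by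
      have : C * ep n ≤ 1 / 2 := by
        calc C * ep n ≤ C * (1 / (2 * C)) := by gcongr
          _ = 1 / 2 := by field_simp
      calc C * (ep n * v n) = (C * ep n) * v n := by ring
        _ ≤ _ := by gcongr
    have h4 := (abs_le.1 (h1.trans h3)).1
    linarith

theorem ratio_upper {v : ℕ → ℝ} (hv : ∀ n, 2 ≤ n → 0 < v n) (h : B 1 v v) : Ta v := by
  obtain ⟨C, hC0, hC⟩ := B_pos hv h
  refine ⟨hv, 1 + 2 * C, fun n hn => ?_⟩
  have h1 := hC n hn
  simp only [D, pow_one] at h1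
  have h2 : C * (ep n * v n) ≤ 2 * C * v n := by
    have := ep_le hn
    have := hv n hn
    calc C * (ep n * v n) ≤ C * (2 * v n) := by gcongr
      _ = _ := by ring
  have h4 := (abs_le.1 (h1.trans h2)).2
  linarith

theorem B_inv {v : ℕ → ℝ} (hv : ∀ n, 2 ≤ n → 0 < v n) (h : ∀ a, B a v v) :
    ∀ a, B a (fun n => 1 / v n) (fun n => 1 / v n) := by
  have hTv : Ta v := ratio_upper hv (h 1)
  have hTi : Ta (fun n => 1 / v n) := by
    obtain ⟨c, hc, hcn⟩ := ratio_lower hv (h 1)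
    refine ⟨fun n hn => one_div_pos.2 (hv n hn), 1 / c, fun n hn => ?_⟩
    have h1 := hv n hn
    have h2 : (1 / c) * (1 / v n) = 1 / (c * v n) := by rw [one_div_mul_one_div]
    show 1 / v (n + 1) ≤ 1 / c * (1 / v n)
    rw [h2]
    exact one_div_le_one_div_of_le (by positivity) (hcn n hn)
  intro a
  induction a using Nat.strong_induction_on with
  | _ a ih =>
    rcases a with _ | a
    · refine ⟨1, fun n hn => ?_⟩
      simp only [D, pow_zero, one_mul]
      rw [abs_of_pos (one_div_pos.2 (hv n hn))]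
    · have h1 : B a (fun n => (v (n + 1) - v n) * (1 / v n)) (fun n => (ep n * v n) * (1 / v n)) :=
        B_mul a _ _ (fun n => ep n * v n) (fun n => 1 / v n) (Ta_mul Ta_ep hTv) hTi
          (fun j _ => B_delta (h (j + 1))) (fun j hj => ih j (by omega))
      have h1' : ∀ j ≤ a, B j (fun n => (v (n + 1) - v n) * (1 / v n)) ep := by
        intro j hj
        refine B_weight (p := fun n => (ep n * v n) * (1 / v n)) (fun n hn => ?_)
          (B_mul j _ _ (fun n => ep n * v n) (fun n => 1 / v n) (Ta_mul Ta_ep hTv) hTi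
          (fun j _ => B_delta (h (j + 1))) (fun i hi => ih i (by omega)))
        have := (hv n hn).ne'
        field_simp
      have h2 : B a (fun n => ((v (n + 1) - v n) * (1 / v n)) * (1 / v (n + 1)))
          (fun n => ep n * (1 / v n)) :=
        B_mul a _ _ ep (fun n => 1 / v n) Ta_ep hTi h1'
          (fun j hj => B_shift hTi (ih j (by omega)))
      obtain ⟨C, hC⟩ := h2
      refine ⟨C, fun n hn => ?_⟩
      rw [D_succ', D_congr a (fun i => 1 / v (i + 1) - 1 / v i)
        (fun i => -(((v (i + 1) - v i) * (1 / v i)) * (1 / v (i + 1)))) n ?_, D_neg, abs_neg]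
      · refine (hC n hn).trans (le_of_eq ?_)
        ring
      · intro m hm
        have := (hv m (hn.trans hm)).ne'
        have := (hv (m + 1) (by omega)).ne'
        field_simp
        ring

end Pool.Agent.T6.H92.TG.ModQuo

namespace Pool.Agent.T6.H92.TG

open ModQuo in
theorem quo : StmQuo := by
  intro u v hu hv h1 h2 a
  have hB : ∀ a, B a v v := h1
  have hp : ∀ n, 2 ≤ n → 0 < u n * v n := fun n hn => mul_pos (hu n hn) (hv n hn)
  have hBw : ∀ a, B a (fun m => u m * v m) (fun m => u m * v m) := h2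
  have hTi : Ta (fun n => 1 / v n) := by
    obtain ⟨c, hc, hcn⟩ := ratio_lower hv (hB 1)
    refine ⟨fun n hn => one_div_pos.2 (hv n hn), 1 / c, fun n hn => ?_⟩
    have h1 := hv n hn
    have h2 : (1 / c) * (1 / v n) = 1 / (c * v n) := by rw [one_div_mul_one_div]
    show 1 / v (n + 1) ≤ 1 / c * (1 / v n)
    rw [h2]
    exact one_div_le_one_div_of_le (by positivity) (hcn n hn)
  have h3 : B a (fun n => (u n * v n) * (1 / v n)) (fun n => (u n * v n) * (1 / v n)) :=
    B_mul a _ _ (fun n => u n * v n) (fun n => 1 / v n) (ratio_upper hp (hBw 1)) hTi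
      (fun j _ => hBw j) (fun j _ => B_inv hv hB j)
  have h4 : ∀ n, 2 ≤ n → (u n * v n) * (1 / v n) = u n := fun n hn => by
    have := (hv n hn).ne'
    field_simp
  exact B_weight h4 (B_fun h4 h3)

end Pool.Agent.T6.H92.TG
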