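import Pool.Agent.T6.H92.TG.Defs

/-!
# Module SEL: a separated set of cells with many inner bumps for most polygons
-/

set_option autoImplicit false

namespace Pool.Agent.T6.H92.TG

open Finset Pool.Agent.H976R2 Pool.Agent.H976R2.Lip Pool.Agent.T6.H92.SP
open scoped Classical

noncomputable section

theorem wX_leS (w : List Dir) : |wX w| ≤ w.length := by
  induction w with
  | nil => simp [wX]
  | cons d w ih =>
    rw [wX_cons, List.length_cons]
    have h1 : |dx d| ≤ 1 := by cases d <;> simp [dx]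
    have h2 := abs_add_le (dx d) (wX w)
    push_cast
    linarith

theorem wY_leS (w : List Dir) : |wY w| ≤ w.length := by
  induction w with
  | nil => simp [wY]
  | cons d w ih =>
    rw [wY_cons, List.length_cons]
    have h1 : |dy d| ≤ 1 := by cases d <;> simp [dy]
    have h2 := abs_add_le (dy d) (wY w)
    push_cast
    linarith

theorem PP_leS (w : List Dir) (i : ℕ) : |(PP w i).1| ≤ w.length ∧ |(PP w i).2| ≤ w.length := by
  have h : ((w.take i).length : ℤ) ≤ w.length := by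
    rw [List.length_take]; omega
  exact ⟨(wX_leS _).trans h, (wY_leS _).trans h⟩

/-- the box -/
def boxS (L : ℕ) : Finset (ℤ × ℤ) := Icc (-((L : ℤ) + 1)) ((L : ℤ) + 1) ×ˢ Icc (-((L : ℤ) + 1)) ((L : ℤ) + 1)

theorem blk_boxS (w : List Dir) (i L : ℕ) (hL : w.length ≤ L) : blk (bcell w i) ⊆ boxS L := by
  intro d hd
  rw [mem_blk] at hd
  unfold touch at hd
  have h1 := PP_leS w i
  have h2 := PP_leS w (i + 2)
  unfold boxS
  rw [mem_product, mem_Icc, mem_Icc]
  have h3 : (bcell w i).1 = min (PP w i).1 (PP w (i + 2)).1 := rfl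
  have h4 : (bcell w i).2 = min (PP w i).2 (PP w (i + 2)).2 := rfl
  rw [h3, h4, abs_le, abs_le] at hd
  rw [abs_le, abs_le] at h1 h2
  refine ⟨⟨?_, ?_⟩, ?_, ?_⟩ <;> omega

/-- the class modulo three -/
def clsS (c : ℤ × ℤ) : ℤ × ℤ := (c.1 % 3, c.2 % 3)

theorem cls_sepS {c d : ℤ × ℤ} (h : clsS c = clsS d) (hne : c ≠ d) : Disjoint (blk c) (blk d) := by
  rw [Finset.disjoint_left]
  intro x hx hy
  rw [mem_blk] at hx hy
  unfold touch at hx hy
  unfold clsS at h
  simp only [Prod.mk.injEq] at h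
  rw [abs_le, abs_le] at hx hy
  apply hne
  apply Prod.ext <;> omega

/-- a large class -/
theorem big_classS (A : Finset (ℤ × ℤ)) : ∃ T ⊆ A, A.card ≤ 9 * T.card + 8 ∧
    ∀ c ∈ T, ∀ d ∈ T, c ≠ d → Disjoint (blk c) (blk d) := by
  have h1 : ∀ c ∈ A, clsS c ∈ (Icc (0 : ℤ) 2 ×ˢ Icc (0 : ℤ) 2) := by
    intro c _
    unfold clsS
    rw [mem_product, mem_Icc, mem_Icc]
    refine ⟨⟨?_, ?_⟩, ?_, ?_⟩ <;> simp only <;> omega
  have h2 : (Icc (0 : ℤ) 2 ×ˢ Icc (0 : ℤ) 2).card = 9 := by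
    rw [card_product, Int.card_Icc]; rfl
  have h3 : (Icc (0 : ℤ) 2 ×ˢ Icc (0 : ℤ) 2).card * (A.card / 9) ≤ A.card := by
    rw [h2]; omega
  obtain ⟨y, _, hy⟩ := Finset.exists_le_card_fiber_of_mul_le_card_of_maps_to h1
    (by rw [← Finset.card_pos, h2]; norm_num) h3
  refine ⟨A.filter (fun c => clsS c = y), Finset.filter_subset _ _, by omega, ?_⟩
  intro c hc d hd hne
  rw [mem_filter] at hc hd
  exact cls_sepS (by rw [hc.2, hd.2]) hne

/-- the exponential bound -/
theorem pow_boundS (n t T : ℕ) (ht : (t : ℝ) ≤ n / 100000000 + 1) (hT : (n : ℝ) / 2000 ≤ 9 * T + 8) :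
    (2 : ℝ) ^ t * (1023 / 1024) ^ T ≤ 8 * Real.exp (-(n / 100000000 : ℝ)) := by
  have h1 : (2 : ℝ) ^ t ≤ Real.exp (t : ℝ) := by
    rw [← Real.exp_one_pow]
    exact pow_le_pow_left₀ (by norm_num) (by have := Real.exp_one_gt_d9; linarith) _
  have h2 : ((1023 : ℝ) / 1024) ^ T ≤ Real.exp (-(T / 1024 : ℝ)) := by
    have h3 : ((1023 : ℝ) / 1024) ≤ Real.exp (-(1 / 1024)) := by
      have := Real.add_one_le_exp (-(1 / 1024 : ℝ))
      linarith
    have h4 : Real.exp (-(T / 1024 : ℝ)) = Real.exp (-(1 / 1024)) ^ T := by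
      rw [← Real.exp_nat_mul]; congr 1; ring
    rw [h4]
    exact pow_le_pow_left₀ (by norm_num) h3 _
  have h7 : Real.exp 2 ≤ 8 := by
    have h8 := Real.exp_one_lt_d9
    have h9 : Real.exp 1 ^ 2 = Real.exp 2 := by
      rw [← Real.exp_nat_mul]; congr 1; norm_num
    nlinarith [Real.exp_pos 1]
  have hn : (0 : ℝ) ≤ n := Nat.cast_nonneg n
  calc (2 : ℝ) ^ t * (1023 / 1024) ^ T ≤ Real.exp (t : ℝ) * Real.exp (-(T / 1024 : ℝ)) := by
        gcongr
    _ = Real.exp ((t : ℝ) - T / 1024) := by rw [← Real.exp_add]; ring_nf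
    _ ≤ Real.exp (2 + -(n / 100000000 : ℝ)) := by
        apply Real.exp_le_exp.2
        linarith
    _ = Real.exp 2 * Real.exp (-(n / 100000000 : ℝ)) := Real.exp_add _ _
    _ ≤ _ := by gcongr

/-- few families are bad for a word with many inner bumps -/
theorem few_badS (n L : ℕ) (w : List Dir) (hL : w.length ≤ L)
    (hw : (n : ℝ) / 2000 ≤ ((IB w).card : ℝ)) :
    (((boxS L).powerset.filter (fun Q => ((BU (sel Q) w).card : ℝ) < 1 / 100000000 * n)).card : ℝ) ≤
      2 ^ (boxS L).card * (8 * Real.exp (-(n / 100000000 : ℝ))) := by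
  obtain ⟨T, hT, hcard, hsep⟩ := big_classS (IB w)
  have hIB : ∀ c ∈ IB w, ∃ i ∈ bumps w, bcell w i = c ∧ inn w c := by
    intro c hc
    unfold IB at hc
    rw [mem_filter, mem_image] at hc
    obtain ⟨⟨i, hi, hic⟩, hin⟩ := hc
    exact ⟨i, hi, hic, hin⟩
  have hbox : ∀ c ∈ T, blk c ⊆ boxS L := by
    intro c hc
    obtain ⟨i, _, rfl, _⟩ := hIB c (hT hc)
    exact blk_boxS w i L hL
  set t : ℕ := ⌈(1 / 100000000 * n : ℝ)⌉₊ with ht
  have h1 := few_sel T (boxS L) hbox hsep t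
  have h2 : (boxS L).powerset.filter (fun Q => ((BU (sel Q) w).card : ℝ) < 1 / 100000000 * n) ⊆
      (boxS L).powerset.filter (fun Q => (T.filter (fun c => c ∈ sel Q)).card < t) := by
    intro Q hQ
    rw [mem_filter] at hQ ⊢
    refine ⟨hQ.1, ?_⟩
    have h3 : (T.filter (fun c => c ∈ sel Q)).card ≤ (BU (sel Q) w).card := by
      apply Finset.card_le_card
      intro c hc
      rw [mem_filter] at hc
      obtain ⟨i, hi, hic, hin⟩ := hIB c (hT hc.1)
      unfold BU
      rw [mem_filter]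
      exact ⟨hc.2, hin, i, hi, hic⟩
    have h4 : ((T.filter (fun c => c ∈ sel Q)).card : ℝ) < t := by
      have h5 : ((T.filter (fun c => c ∈ sel Q)).card : ℝ) ≤ (BU (sel Q) w).card := by
        exact_mod_cast h3
      have h6 := Nat.le_ceil (1 / 100000000 * n : ℝ)
      linarith [hQ.2]
    exact_mod_cast h4
  have h3 : (((boxS L).powerset.filter
      (fun Q => ((BU (sel Q) w).card : ℝ) < 1 / 100000000 * n)).card : ℝ) ≤
      (((boxS L).powerset.filter (fun Q => (T.filter (fun c => c ∈ sel Q)).card < t)).card : ℝ) := by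
    exact_mod_cast Finset.card_le_card h2
  refine h3.trans (h1.trans ?_)
  apply mul_le_mul_of_nonneg_left _ (by positivity)
  apply pow_boundS
  · have h4 : (t : ℝ) < 1 / 100000000 * n + 1 := Nat.ceil_lt_add_one (by positivity)
    linarith
  · have h4 : ((IB w).card : ℝ) ≤ 9 * T.card + 8 := by exact_mod_cast hcard
    linarith

/-- the words with many inner bumps for which the family is bad -/
def gd (Q : Finset (ℤ × ℤ)) (n m : ℕ) : Finset (List Dir) :=
  (KK (2 * m + 1)).filter (fun w => ((m : ℝ) / 2000 ≤ ((IB w).card : ℝ)) ∧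
    ((BU (sel Q) w).card : ℝ) < 1 / 100000000 * n)

theorem sum_gd (n k i : ℕ) (hi : i ≤ k) :
    ∑ Q ∈ (boxS (2 * (n + k) + 1)).powerset, ((gd Q n (n + i)).card : ℝ) ≤
      ((KK (2 * (n + i) + 1)).card : ℝ) *
        (2 ^ (boxS (2 * (n + k) + 1)).card * (8 * Real.exp (-(n / 100000000 : ℝ)))) := by
  have e1 : ∀ Q ∈ (boxS (2 * (n + k) + 1)).powerset, ((gd Q n (n + i)).card : ℝ) =
      ∑ w ∈ KK (2 * (n + i) + 1), if ((((n + i : ℕ) : ℝ) / 2000 ≤ ((IB w).card : ℝ)) ∧
        ((BU (sel Q) w).card : ℝ) < 1 / 100000000 * n) then (1 : ℝ) else 0 := by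
    intro Q _
    unfold gd
    rw [Finset.sum_ite, Finset.sum_const_zero, add_zero, Finset.sum_const, nsmul_eq_mul, mul_one]
  rw [Finset.sum_congr rfl e1, Finset.sum_comm]
  have e2 : ∀ w ∈ KK (2 * (n + i) + 1), ∑ Q ∈ (boxS (2 * (n + k) + 1)).powerset,
      (if ((((n + i : ℕ) : ℝ) / 2000 ≤ ((IB w).card : ℝ)) ∧
        ((BU (sel Q) w).card : ℝ) < 1 / 100000000 * n) then (1 : ℝ) else 0) ≤
      2 ^ (boxS (2 * (n + k) + 1)).card * (8 * Real.exp (-(n / 100000000 : ℝ))) := by
    intro w hw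
    by_cases hgood : (((n + i : ℕ) : ℝ) / 2000 ≤ ((IB w).card : ℝ))
    · have hlen : w.length ≤ 2 * (n + k) + 1 := by
        unfold KK at hw
        rw [mem_filter, mem_SW] at hw
        omega
      have hn : (n : ℝ) / 2000 ≤ ((IB w).card : ℝ) := by
        push_cast at hgood
        have : (0 : ℝ) ≤ i := Nat.cast_nonneg i
        linarith
      refine le_trans (le_of_eq ?_) (few_badS n (2 * (n + k) + 1) w hlen hn)
      rw [Finset.sum_ite, Finset.sum_const_zero, add_zero, Finset.sum_const, nsmul_eq_mul, mul_one]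
      congr 2
      apply Finset.filter_congr
      intro Q _
      exact ⟨fun h => h.2, fun h => ⟨hgood, h⟩⟩
    · have e3 : ∑ Q ∈ (boxS (2 * (n + k) + 1)).powerset,
          (if ((((n + i : ℕ) : ℝ) / 2000 ≤ ((IB w).card : ℝ)) ∧
            ((BU (sel Q) w).card : ℝ) < 1 / 100000000 * n) then (1 : ℝ) else 0) = 0 := by
        apply Finset.sum_eq_zero
        intro Q _
        rw [if_neg (fun h => hgood h.1)]
      rw [e3]
      positivity
  refine (Finset.sum_le_sum e2).trans ?_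
  rw [Finset.sum_const, nsmul_eq_mul]

/-- **SEL** -/
theorem selR : StmSel := by
  intro hfew k
  obtain ⟨C, c, hC, hc, hfew⟩ := hfew
  refine ⟨C + 8 * (k + 1), min c (1 / 100000000), 1 / 100000000, by positivity, by positivity,
    by norm_num, fun n hn => ?_⟩
  set S := boxS (2 * (n + k) + 1) with hS
  set x : ℝ := 8 * Real.exp (-(n / 100000000 : ℝ)) with hx
  have hx0 : 0 < x := by positivity
  -- averaging
  have hex : ∃ Q ∈ S.powerset, ∑ i ∈ range (k + 1),
      ((gd Q n (n + i)).card : ℝ) / ((KK (2 * (n + i) + 1)).card : ℝ) ≤ (k + 1) * x := by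
    by_contra hcon
    push Not at hcon
    have h1 : ∑ Q ∈ S.powerset, ((k + 1 : ℝ) * x) < ∑ Q ∈ S.powerset, ∑ i ∈ range (k + 1),
        ((gd Q n (n + i)).card : ℝ) / ((KK (2 * (n + i) + 1)).card : ℝ) := by
      apply Finset.sum_lt_sum_of_nonempty
      · exact ⟨∅, Finset.empty_mem_powerset S⟩
      · exact hcon
    rw [Finset.sum_comm, Finset.sum_const, Finset.card_powerset, nsmul_eq_mul] at h1
    have h2 : ∀ i ∈ range (k + 1), ∑ Q ∈ S.powerset,
        ((gd Q n (n + i)).card : ℝ) / ((KK (2 * (n + i) + 1)).card : ℝ) ≤ 2 ^ S.card * x := by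
      intro i hi
      rw [← Finset.sum_div]
      have h3 := sum_gd n k i (by rw [mem_range] at hi; omega)
      rcases Nat.eq_zero_or_pos (KK (2 * (n + i) + 1)).card with h0 | h0
      · rw [h0, Nat.cast_zero, div_zero]
        positivity
      · have h4 : (0 : ℝ) < ((KK (2 * (n + i) + 1)).card : ℝ) := by exact_mod_cast h0
        rw [div_le_iff₀ h4, mul_comm]
        exact h3
    have h3 := Finset.sum_le_sum h2
    rw [Finset.sum_const, card_range, nsmul_eq_mul] at h3
    push_cast at h1 h3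
    have h4 := lt_of_lt_of_le h1 h3
    have h5 : (2 : ℝ) ^ S.card * ((k + 1 : ℝ) * x) = (k + 1) * (2 ^ S.card * x) := by ring
    rw [h5] at h4
    exact lt_irrefl _ h4
  obtain ⟨Q, hQ, hsum⟩ := hex
  refine ⟨sel Q, fun c hc d hd hne => sel_sep Q hc hd hne, fun i hi => ?_⟩
  have hsingle : ((gd Q n (n + i)).card : ℝ) / ((KK (2 * (n + i) + 1)).card : ℝ) ≤ (k + 1) * x := by
    refine le_trans ?_ hsum
    exact Finset.single_le_sum
      (f := fun i => ((gd Q n (n + i)).card : ℝ) / ((KK (2 * (n + i) + 1)).card : ℝ))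
      (fun j _ => by positivity) (mem_range.2 (by omega))
  have hgd : ((gd Q n (n + i)).card : ℝ) ≤ (k + 1) * x * ((KK (2 * (n + i) + 1)).card : ℝ) := by
    rcases Nat.eq_zero_or_pos (KK (2 * (n + i) + 1)).card with h0 | h0
    · have h1 : (gd Q n (n + i)).card ≤ (KK (2 * (n + i) + 1)).card := by
        unfold gd
        exact Finset.card_filter_le _ _
      have h2 : (gd Q n (n + i)).card = 0 := by omega
      rw [h2, h0]
      simp
    · have h4 : (0 : ℝ) < ((KK (2 * (n + i) + 1)).card : ℝ) := by exact_mod_cast h0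
      rwa [div_le_iff₀ h4] at hsingle
  have hcover : (KK (2 * (n + i) + 1)).filter
      (fun w => ((BU (sel Q) w).card : ℝ) < 1 / 100000000 * n) ⊆
      gd Q n (n + i) ∪ (KK (2 * (n + i) + 1)).filter
        (fun w => ((IB w).card : ℝ) < ((n + i : ℕ) : ℝ) / 2000) := by
    intro w hw
    rw [mem_filter] at hw
    rw [mem_union]
    unfold gd
    rw [mem_filter, mem_filter]
    by_cases h : (((n + i : ℕ) : ℝ) / 2000 ≤ ((IB w).card : ℝ))
    · exact Or.inl ⟨hw.1, h, hw.2⟩
    · exact Or.inr ⟨hw.1, lt_of_not_ge h⟩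
  have h5 : (((KK (2 * (n + i) + 1)).filter
      (fun w => ((BU (sel Q) w).card : ℝ) < 1 / 100000000 * n)).card : ℝ) ≤
      ((gd Q n (n + i)).card : ℝ) + (((KK (2 * (n + i) + 1)).filter
        (fun w => ((IB w).card : ℝ) < ((n + i : ℕ) : ℝ) / 2000)).card : ℝ) := by
    exact_mod_cast (Finset.card_le_card hcover).trans (Finset.card_union_le _ _)
  have h6 := hfew (n + i) (by omega)
  set X : ℝ := Real.exp (-(min c (1 / 100000000) * n)) with hX
  have hX0 : 0 < X := Real.exp_pos _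
  set K : ℝ := ((KK (2 * (n + i) + 1)).card : ℝ) with hK
  have hK0 : 0 ≤ K := Nat.cast_nonneg _
  have hn0 : (0 : ℝ) ≤ n := Nat.cast_nonneg n
  have hi0 : (0 : ℝ) ≤ i := Nat.cast_nonneg i
  have h7 : Real.exp (-(c * ((n + i : ℕ) : ℝ))) ≤ X := by
    apply Real.exp_le_exp.2
    have h8 : min c (1 / 100000000) ≤ c := min_le_left _ _
    push_cast
    nlinarith [mul_nonneg hc.le hi0]
  have h8 : x ≤ 8 * X := by
    rw [hx]
    apply mul_le_mul_of_nonneg_left _ (by norm_num)
    apply Real.exp_le_exp.2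
    have h9 : min c (1 / 100000000) ≤ 1 / 100000000 := min_le_right _ _
    nlinarith
  have h9 : C * Real.exp (-(c * ((n + i : ℕ) : ℝ))) * K ≤ C * X * K := by gcongr
  have h10 : (k + 1 : ℝ) * x * K ≤ (k + 1) * (8 * X) * K := by gcongr
  have h11 : (C + 8 * (k + 1 : ℝ)) * X * K = C * X * K + (k + 1) * (8 * X) * K := by ring
  rw [h11]
  linarith

end

end Pool.Agent.T6.H92.TG
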