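import Pool.Agent.T6.H92.TG.Obs
import Pool.Agent.T6.H92.TG.Core
import Pool.Agent.T6.H92.TG.Few
import Pool.Agent.T6.H92.TG.Sel
import Pool.Agent.T6.H92.TG.Dif
import Pool.Agent.T6.H92.TG.Quo
import Pool.Agent.H739K.All2

/-!
# All-order smoothness
-/

set_option autoImplicit false

namespace Pool.Agent.T6.H92.TG

open Finset Pool.Agent.H976R2 Pool.Agent.H976R2.Lip Pool.Agent.H924P Pool.Agent.H739K
  Pool.Agent.T6.H92.SP
open scoped Classical

noncomputable section

/-- weighted sums over the polygons -/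
def wsum (φ : List Dir → ℝ) (n : ℕ) : ℝ := zz ^ n * ∑ w ∈ KK (2 * n + 1), φ w

/-- **main theorem** for observables of words -/
theorem main_ob (hR : StmR) (k : ℕ) (φ : List Dir → ℝ) (Ψ : ℕ → List Dir → ℝ) (M : ℝ) (p : ℕ)
    (hM : 1 ≤ M) (hφ : ∀ n, 1 ≤ n → ∀ w ∈ KK (2 * n + 1), |φ w| ≤ M * n ^ p)
    (hΨ : ∀ n, 1 ≤ n → ∀ w ∈ KK (2 * n + 1), 1 ≤ Ψ n w)
    (hV : ∀ R, Sep R → ∀ N, 1 ≤ N → ∀ j ≤ k, ∀ w ∈ KK (2 * N + 1), k ≤ (FL R w).card →
      |VV (FL R) UP φ j w| ≤ M * Ψ N w / N ^ j) :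
    ∃ (C : ℝ) (N₀ : ℕ), ∀ N ≥ N₀, |D k (wsum φ) N| ≤ C * (ep N ^ k * wsum (Ψ N) N) := by
  obtain ⟨hz0, hz1, L, hL, hcnt⟩ := cnt
  obtain ⟨C₁, c₂, c₁, hC₁, hc₂, hc₁, hsel⟩ := hR k
  obtain ⟨C, N₀, hC, h⟩ := core dif k zz L c₁ C₁ c₂ (M * 2 ^ p) p
    ⟨hz0, hz1, hL, hc₁, hC₁.le, hc₂, by positivity⟩
  refine ⟨C, N₀ + k + 2, fun N hN => ?_⟩
  obtain ⟨R, hRs, hfew⟩ := hsel N (by omega)
  have hNr : (1 : ℝ) ≤ N := by exact_mod_cast (by omega : 1 ≤ N)
  have h2p : (1 : ℝ) ≤ 2 ^ p := one_le_pow₀ (by norm_num)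
  have h1 := h N (by omega) (List Dir) (ℤ × ℤ) (fun n => KK (2 * n + 1)) (FL R) (BU R) UP DN φ (Ψ N)
    (tog R hRs) ?_ (hcnt N (by omega)) hfew ?_ (hΨ N (by omega)) ?_
  · exact h1
  · intro w hw
    obtain ⟨hl, _, _⟩ := mem_KK.1 hw
    have h1 := card_FL R w
    have h2 := card_BU R w
    constructor <;> omega
  · intro i hi w hw
    refine (hφ (N + i) (by omega) w hw).trans ?_
    have h3 : ((N + i : ℕ) : ℝ) ≤ 2 * N := by
      have : N + i ≤ 2 * N := by omega
      exact_mod_cast this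
    calc M * ((N + i : ℕ) : ℝ) ^ p ≤ M * (2 * N) ^ p := by gcongr
      _ = M * 2 ^ p * N ^ p := by rw [mul_pow]; ring
  · intro j hj w hw hf
    refine (hV R hRs N (by omega) j hj w hw hf).trans ?_
    have h4 := hΨ N (by omega) w hw
    apply div_le_div_of_nonneg_right _ (by positivity)
    apply mul_le_mul_of_nonneg_right _ (by linarith)
    nlinarith

/-- from large `n` to all `n ≥ 2` -/
theorem ext_all {x w : ℕ → ℝ} (hw : ∀ n, 2 ≤ n → 0 < w n)
    (h : ∃ (C : ℝ) (N₀ : ℕ), ∀ N ≥ N₀, |x N| ≤ C * w N) :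
    ∃ C : ℝ, ∀ n : ℕ, 2 ≤ n → |x n| ≤ C * w n := by
  obtain ⟨C, N₀, h⟩ := h
  refine ⟨max C 0 + ∑ m ∈ range N₀, |x m| / |w m|, fun n hn => ?_⟩
  have hwn := hw n hn
  have hs : 0 ≤ ∑ m ∈ range N₀, |x m| / |w m| := Finset.sum_nonneg fun m _ => by positivity
  by_cases hN : N₀ ≤ n
  · refine (h n hN).trans ?_
    apply mul_le_mul_of_nonneg_right _ hwn.le
    have := le_max_left C 0
    linarith
  · have h1 : |x n| / |w n| ≤ ∑ m ∈ range N₀, |x m| / |w m| :=
      Finset.single_le_sum (f := fun m => |x m| / |w m|) (fun m _ => by positivity)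
        (mem_range.2 (by omega))
    have h2 : |x n| = |x n| / |w n| * w n := by
      rw [abs_of_pos hwn]; field_simp
    rw [h2]
    apply mul_le_mul_of_nonneg_right _ hwn.le
    have := le_max_right C 0
    linarith

theorem ep_pos {n : ℕ} (hn : 2 ≤ n) : 0 < ep n := by
  have h1 : (2 : ℝ) ≤ n := by exact_mod_cast hn
  unfold ep
  have h2 : 0 < Real.log (n : ℝ) := Real.log_pos (by linarith)
  have h3 : 0 < Real.sqrt (n : ℝ) := Real.sqrt_pos.2 (by linarith)
  positivity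

/-! ### The three sequences -/

/-- normalised numbers of polygons -/
def vv (n : ℕ) : ℝ := zz ^ n * ((KK (2 * n + 1)).card : ℝ)

theorem wsum_one : wsum (fun _ => 1) = vv := by
  funext n
  unfold wsum vv
  simp

theorem vv_pos {n : ℕ} (hn : 1 ≤ n) : 0 < vv n := by
  have := KK_pos hn
  have hz : 0 < zz := cnt.1
  unfold vv
  positivity

theorem vv_smooth (hR : StmR) (k : ℕ) : ∃ C : ℝ, ∀ n : ℕ, 2 ≤ n → |D k vv n| ≤ C * (ep n ^ k * vv n) := by
  apply ext_all
  · intro n hn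
    have := ep_pos hn
    have := vv_pos (show 1 ≤ n by omega)
    positivity
  · obtain ⟨C, N₀, h⟩ := main_ob hR k (fun _ => 1) (fun _ _ => 1) 1 0 le_rfl
      (by intro n _ w _; simp) (by intro n _ w _; exact le_rfl)
      (by
        intro R hRs N hN
        exact hV_inv (tog R hRs) (φ := fun _ => (1 : ℝ)) (fun _ _ _ _ _ => rfl)
          (fun _ _ _ => zero_le_one) le_rfl k N)
    rw [wsum_one] at h
    exact ⟨C, N₀, h⟩

theorem me_sum {n : ℕ} (hn : 1 ≤ n) (F : (ZMod (2 * (n + 1)) → ℤ × ℤ) → ℝ) :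
    me (n + 1) F = (∑ w ∈ KK (2 * n + 1), F (lp (2 * (n + 1)) w)) / ((KK (2 * n + 1)).card : ℝ) := by
  rw [F3x.me_eq CONV_proof (by omega)]
  rfl

theorem MA_sum {n : ℕ} (hn : 1 ≤ n) :
    MA (n + 1) * vv n = wsum (fun w => (ar w : ℝ)) n := by
  have h1 : MA (n + 1) = (∑ w ∈ KK (2 * n + 1), (ar w : ℝ)) / ((KK (2 * n + 1)).card : ℝ) := by
    unfold MA
    rw [me_sum hn]
    congr 1
    refine Finset.sum_congr rfl fun w hw => ?_
    have h2 := (mem_KK.1 hw).1
    unfold ar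
    have e : w.length + 1 = 2 * (n + 1) := by omega
    rw [e]
  have h2 := KK_pos hn
  rw [h1]
  unfold vv wsum
  field_simp

theorem MW_sum {n : ℕ} (hn : 1 ≤ n) :
    2 * MW (n + 1) * vv n = wsum (fun w => (bx w : ℝ)) n := by
  have h1 := F3x.mean_eq CONV_proof SWAP_proof (N := n + 1) (by omega)
  have h2 := KK_pos hn
  have e : 2 * (n + 1) - 1 = 2 * n + 1 := by omega
  rw [e] at h1
  rw [← h1]
  unfold vv wsum mm
  rw [KK_eq] at h2 ⊢
  field_simp

theorem MA_ge (n : ℕ) (hn : 1 ≤ n) : (n : ℝ) / 2 ≤ MA (n + 1) := by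
  have h := f2a (n + 1) (by omega)
  push_cast at h
  linarith

theorem area_smooth' (hR : StmR) (are : StmAre) (k : ℕ) : ∃ C : ℝ, ∀ n : ℕ, 2 ≤ n →
    |D k (fun m => MA (m + 1) * vv m) n| ≤ C * (ep n ^ k * (MA (n + 1) * vv n)) := by
  apply ext_all
  · intro n hn
    have := ep_pos hn
    have := vv_pos (show 1 ≤ n by omega)
    have h1 := MA_ge n (by omega)
    have h2 : (2 : ℝ) ≤ n := by exact_mod_cast hn
    have h3 : 0 < MA (n + 1) := by linarith
    positivity
  · obtain ⟨C, N₀, h⟩ := main_ob hR k (fun w => (ar w : ℝ)) (fun N w => (ar w : ℝ) + N) 64 2 (by norm_num)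
      (fun n hn w hw => ar_bd hn hw)
      (by
        intro n hn w _
        have h1 : (0 : ℝ) ≤ ar w := Nat.cast_nonneg _
        have h2 : (1 : ℝ) ≤ n := by exact_mod_cast hn
        linarith)
      (by
        intro R hRs N hN
        exact hV_sgn (tog R hRs) (sgnR are R hRs) SG_abs (fun _ _ _ => Nat.cast_nonneg _)
          (by norm_num) k N hN)
    refine ⟨3 * |C|, N₀ + 1, fun N hN => ?_⟩
    have hN1 : 1 ≤ N := by omega
    have e1 : D k (fun m => MA (m + 1) * vv m) N = D k (wsum (fun w => (ar w : ℝ))) N := by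
      apply D_congr
      intro i hi _
      exact MA_sum (by omega)
    rw [e1]
    refine (h N (by omega)).trans ?_
    have hv := vv_pos hN1
    have h1 := MA_ge N hN1
    have e2 : wsum (fun w => (ar w : ℝ) + N) N = MA (N + 1) * vv N + N * vv N := by
      rw [MA_sum hN1]
      unfold wsum vv
      rw [Finset.sum_add_distrib, Finset.sum_const, nsmul_eq_mul]
      ring
    have e3 : wsum (fun w => (ar w : ℝ) + N) N ≤ 3 * (MA (N + 1) * vv N) := by
      rw [e2]
      nlinarith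
    have he : 0 ≤ ep N ^ k := by
      rcases Nat.lt_or_ge N 2 with h2 | h2
      · have : N = 1 := by omega
        rw [this]
        unfold ep
        simp
      · have := ep_pos h2
        positivity
    have e0 : 0 ≤ wsum (fun w => (ar w : ℝ) + N) N := by
      rw [e2]
      have : (0 : ℝ) ≤ N := Nat.cast_nonneg N
      have : 0 ≤ MA (N + 1) := by linarith
      positivity
    calc C * (ep N ^ k * wsum (fun w => (ar w : ℝ) + N) N) ≤
        |C| * (ep N ^ k * wsum (fun w => (ar w : ℝ) + N) N) :=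
          mul_le_mul_of_nonneg_right (le_abs_self C) (mul_nonneg he e0)
      _ ≤ |C| * (ep N ^ k * (3 * (MA (N + 1) * vv N))) := by
          apply mul_le_mul_of_nonneg_left _ (abs_nonneg C)
          exact mul_le_mul_of_nonneg_left e3 he
      _ = _ := by ring

theorem width_smooth' (hR : StmR) (bxi : StmBxi) (k : ℕ) : ∃ C : ℝ, ∀ n : ℕ, 2 ≤ n →
    |D k (fun m => 2 * MW (m + 1) * vv m) n| ≤ C * (ep n ^ k * (2 * MW (n + 1) * vv n)) := by
  apply ext_all
  · intro n hn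
    have := ep_pos hn
    have := vv_pos (show 1 ≤ n by omega)
    have h1 := MW_pos (N := n + 1) (by omega)
    positivity
  · obtain ⟨C, N₀, h⟩ := main_ob hR k (fun w => (bx w : ℝ)) (fun _ w => (bx w : ℝ)) 64 2 (by norm_num)
      (fun n hn w hw => (bx_bd hn hw).1) (fun n hn w hw => (bx_bd hn hw).2)
      (by
        intro R hRs N hN
        exact hV_inv (tog R hRs) (bx_inv bxi R) (fun _ _ _ => Nat.cast_nonneg _)
          (by norm_num) k N)
    refine ⟨C, N₀ + 1, fun N hN => ?_⟩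
    have e1 : D k (fun m => 2 * MW (m + 1) * vv m) N = D k (wsum (fun w => (bx w : ℝ))) N := by
      apply D_congr
      intro i hi _
      exact MW_sum (by omega)
    rw [e1, MW_sum (by omega)]
    exact h N (by omega)

/-- the shift by one -/
theorem shift_ep (u : ℕ → ℝ) (hu : ∀ n, 2 ≤ n → 0 < u n) (k : ℕ)
    (h : ∃ C : ℝ, ∀ n : ℕ, 2 ≤ n → |D k (fun m => u (m + 1)) n| ≤ C * (ep n ^ k * u (n + 1))) :
    ∃ C : ℝ, ∀ n : ℕ, 2 ≤ n → |D k u n| ≤ C * (ep n ^ k * u n) := by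
  apply ext_all
  · intro n hn
    have := ep_pos hn
    have := hu n hn
    positivity
  · obtain ⟨C, h⟩ := h
    refine ⟨|C| * 2 ^ k, 3, fun N hN => ?_⟩
    obtain ⟨n, rfl⟩ : ∃ n, N = n + 1 := ⟨N - 1, by omega⟩
    have hn : 2 ≤ n := by omega
    have e1 : D k (fun m => u (m + 1)) n = D k u (n + 1) := by
      have := D_shift k u 1 n
      rw [add_comm 1 n] at this
      rw [← this]
      apply D_congr
      intro i _ _
      rw [add_comm]
    have h1 := h n hn
    rw [e1] at h1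
    have hn2 : (2 : ℝ) ≤ n := by exact_mod_cast hn
    have hun := hu (n + 1) (by omega)
    have hep : ep n ≤ 2 * ep (n + 1) := by
      unfold ep
      have hs : 0 < Real.sqrt n := Real.sqrt_pos.2 (by linarith)
      have hs' : 0 < Real.sqrt ((n + 1 : ℕ) : ℝ) := Real.sqrt_pos.2 (by push_cast; linarith)
      rw [mul_div_assoc', div_le_div_iff₀ hs hs']
      have h2 : Real.log n ≤ Real.log ((n + 1 : ℕ) : ℝ) :=
        Real.log_le_log (by linarith) (by push_cast; linarith)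
      have h3 : Real.sqrt ((n + 1 : ℕ) : ℝ) ≤ 2 * Real.sqrt n := by
        have e : 2 * Real.sqrt n = Real.sqrt (2 ^ 2 * n) := by
          rw [Real.sqrt_mul (by norm_num), Real.sqrt_sq (by norm_num)]
        rw [e]
        apply Real.sqrt_le_sqrt
        push_cast
        linarith
      have h4 : 0 ≤ Real.log (n : ℝ) := Real.log_natCast_nonneg n
      calc Real.log n * Real.sqrt ((n + 1 : ℕ) : ℝ) ≤ Real.log n * (2 * Real.sqrt n) := by gcongr
        _ = 2 * Real.log n * Real.sqrt n := by ring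
        _ ≤ 2 * Real.log ((n + 1 : ℕ) : ℝ) * Real.sqrt n := by gcongr
    have hp := ep_pos hn
    have hp' := ep_pos (show 2 ≤ n + 1 by omega)
    calc |D k u (n + 1)| ≤ C * (ep n ^ k * u (n + 1)) := h1
      _ ≤ |C| * (ep n ^ k * u (n + 1)) :=
          mul_le_mul_of_nonneg_right (le_abs_self C) (by positivity)
      _ ≤ |C| * ((2 * ep (n + 1)) ^ k * u (n + 1)) := by gcongr
      _ = _ := by rw [mul_pow]; ring

theorem area_smooth (hR : StmR) (are : StmAre) (k : ℕ) : ∃ C : ℝ, ∀ n : ℕ, 2 ≤ n →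
    |D k MA n| ≤ C * (ep n ^ k * MA n) := by
  apply shift_ep MA (fun n hn => MA_pos hn) k
  exact quo (fun m => MA (m + 1)) vv (fun n hn => MA_pos (by omega)) (fun n hn => vv_pos (by omega))
    (vv_smooth hR) (area_smooth' hR are) k

theorem width_smooth (hR : StmR) (bxi : StmBxi) (k : ℕ) : ∃ C : ℝ, ∀ n : ℕ, 2 ≤ n →
    |D k MW n| ≤ C * (ep n ^ k * MW n) := by
  apply shift_ep MW (fun n hn => MW_pos hn) k
  obtain ⟨C, h⟩ := quo (fun m => 2 * MW (m + 1)) vv
    (fun n hn => by have := MW_pos (N := n + 1) (by omega); positivity)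
    (fun n hn => vv_pos (by omega)) (vv_smooth hR) (width_smooth' hR bxi) k
  refine ⟨C, fun n hn => ?_⟩
  have h1 := h n hn
  rw [D_mul k 2 (fun m => MW (m + 1)), abs_mul, abs_of_pos (by norm_num : (0 : ℝ) < 2)] at h1
  linarith

end

end Pool.Agent.T6.H92.TG
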