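import Pool.Agent.T6.H92.TG.Fin
import Pool.Agent.T6.H92.TG.Defs3

/-!
# All-order smoothness: functions of the area
-/

set_option autoImplicit false

namespace Pool.Agent.T6.H92.TG

open Finset Pool.Agent.H976R2 Pool.Agent.H976R2.Lip Pool.Agent.H924P Pool.Agent.H739K
  Pool.Agent.T6.H92.SP
open scoped Classical

noncomputable section

theorem VVm {α ι : Type} {K : ℕ → Finset α} {Fl Bu : α → Finset ι} {up dn : α → ι → α}
    (T : Tog K Fl Bu up dn) {A m : α → ℝ}
    (h : ∀ n, ∀ w ∈ K n, ∀ c ∈ Fl w, A (up w c) = A w + m w ∧ m (up w c) = m w) (F : ℝ → ℝ) (j : ℕ) :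
    ∀ n, ∀ w ∈ K n, j ≤ (Fl w).card → VV Fl up (fun w => F (A w)) j w = EJ j (m w) F (A w) := by
  induction j with
  | zero => intro n w _ _; rfl
  | succ j ih =>
    intro n w hw hf
    rw [VV_succ, ih n w hw (by omega)]
    show _ = EJ j (m w) F (A w + m w) - EJ j (m w) F (A w)
    congr 1
    apply UU_const (by omega)
    intro c hc
    rw [ih (n + 1) _ (T.up_mem n w hw c hc) (by rw [card_up_fl T hw hc]; omega),
      (h n w hw c hc).1, (h n w hw c hc).2]

theorem SG_pm (w : List Dir) (c : ℤ × ℤ) : SG w c = 1 ∨ SG w c = -1 := by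
  unfold SG
  split_ifs <;> simp

theorem ms_pm {α ι : Type} (Fl Bu : α → Finset ι) (σ : α → ι → ℝ) (w : α) :
    ms Fl Bu σ w = 1 ∨ ms Fl Bu σ w = -1 := by
  unfold ms
  split_ifs <;> simp

/-- **main theorem** for functions of the area -/
theorem main_m (hR : StmR) (are : StmAre) (maj : StmMaj) (fewm : StmFewM) (k : ℕ) (M : ℝ) (p : ℕ)
    (hM : 1 ≤ M) : ∃ (C : ℝ) (N₀ : ℕ), 0 ≤ C ∧ ∀ N ≥ N₀, ∀ F Ψ : ℝ → ℝ,
      (∀ x, 0 ≤ x → x ≤ 256 * (N : ℝ) ^ 2 → |F x| ≤ M * N ^ p) →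
      (∀ x, 0 ≤ x → 1 ≤ Ψ x) →
      (∀ j ≤ k, ∀ s x : ℝ, (s = 1 ∨ s = -1) → 0 ≤ x → |EJ j s F x| ≤ M * Ψ x / N ^ j) →
      |D k (wsum (fun w => F (ar w))) N| ≤ C * (ep N ^ k * wsum (fun w => Ψ (ar w)) N) := by
  obtain ⟨hz0, hz1, L, hL, hcnt⟩ := cnt
  obtain ⟨C₁, c₂, c₁, hC₁, hc₂, hc₁, hsel⟩ := hR k
  obtain ⟨c₁', C₁', c₂', hc₁', hC₁', hc₂', N₁, hfewm⟩ := fewm k zz L c₁ C₁ c₂ hz0 hz1 hL hc₁ hC₁.le hc₂
  obtain ⟨C, N₀, hC, h⟩ := core dif k zz L c₁' C₁' c₂' M p
    ⟨hz0, hz1, hL, hc₁', hC₁', hc₂', by linarith⟩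
  refine ⟨C, N₀ + N₁ + k + 2, hC, fun N hN F Ψ hF hΨ hV => ?_⟩
  obtain ⟨R, hRs, hfew⟩ := hsel N (by omega)
  have T := tog R hRs
  have S := sgnR are R hRs
  obtain ⟨T', hA, hmaj⟩ := maj (List Dir) (ℤ × ℤ) (fun n => KK (2 * n + 1)) (FL R) (BU R) UP DN _ SG
    T S SG_pm
  have hcard : ∀ n, 1 ≤ n → ∀ w ∈ KK (2 * n + 1), (Flm (FL R) (BU R) SG w).card ≤ 6 * n + 2 ∧
      (Bum (FL R) (BU R) SG w).card ≤ 6 * n := by
    intro n hn w hw
    obtain ⟨hl, _, _⟩ := mem_KK.1 hw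
    have h1 := card_FL R w
    have h2 := card_BU R w
    have h3 : (Flm (FL R) (BU R) SG w).card ≤ (FL R w).card := Finset.card_filter_le _ _
    have h4 : (Bum (FL R) (BU R) SG w).card ≤ (BU R w).card := Finset.card_filter_le _ _
    constructor <;> omega
  have hfew' := hfewm N (by omega) (List Dir) (ℤ × ℤ) (fun n => KK (2 * n + 1))
    (fun w => (BU R w).card) _ _ UP DN T' hcard
    (fun n w hw => by have := hmaj n w hw; omega)
    (fun i hi n hn => hcnt (N + i) (by omega) n hn) hfew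
  have h1 := h N (by omega) (List Dir) (ℤ × ℤ) (fun n => KK (2 * n + 1)) _ _ UP DN
    (fun w => F (ar w)) (fun w => Ψ (ar w)) T' (hcard N (by omega)) (hcnt N (by omega)) hfew' ?_
    (fun w _ => hΨ _ (Nat.cast_nonneg _)) ?_
  · exact h1
  · intro i hi w hw
    apply hF _ (Nat.cast_nonneg _)
    have h2 := ar_bd (show 1 ≤ N + i by omega) hw
    rw [abs_of_nonneg (Nat.cast_nonneg _)] at h2
    refine h2.trans ?_
    have h3 : ((N + i : ℕ) : ℝ) ≤ 2 * N := by
      have : N + i ≤ 2 * N := by omega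
      exact_mod_cast this
    calc 64 * ((N + i : ℕ) : ℝ) ^ 2 ≤ 64 * (2 * N) ^ 2 := by gcongr
      _ = 256 * (N : ℝ) ^ 2 := by ring
  · intro j hj w hw hf
    have h2 := VVm T' (A := fun w => (ar w : ℝ)) (m := ms (FL R) (BU R) SG) hA F j N w hw (by omega)
    rw [h2]
    exact hV j hj _ _ (ms_pm _ _ _ _) (Nat.cast_nonneg _)

/-- moments of the area -/
def MR (r n : ℕ) : ℝ := me n (fun f => (area (2 * n) f : ℝ) ^ r)

theorem MF_sum {n : ℕ} (hn : 1 ≤ n) (F : ℝ → ℝ) :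
    me (n + 1) (fun f => F (area (2 * (n + 1)) f)) * vv n = wsum (fun w => F (ar w)) n := by
  have h1 : me (n + 1) (fun f => F (area (2 * (n + 1)) f)) =
      (∑ w ∈ KK (2 * n + 1), F (ar w)) / ((KK (2 * n + 1)).card : ℝ) := by
    rw [me_sum hn]
    congr 1
    refine Finset.sum_congr rfl fun w hw => ?_
    have h2 := (mem_KK.1 hw).1
    unfold ar
    have e : w.length + 1 = 2 * (n + 1) := by omega
    rw [e]
  have h2 := KK_pos hn
  rw [h1]
  unfold vv wsum
  field_simp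

theorem jensen {n : ℕ} (hn : 1 ≤ n) (r : ℕ) : MA (n + 1) ^ r ≤ MR r (n + 1) := by
  have h2 := KK_pos hn
  have h1 : MA (n + 1) = ∑ w ∈ KK (2 * n + 1), (1 / ((KK (2 * n + 1)).card : ℝ)) * (ar w : ℝ) := by
    have h3 := MA_sum hn
    unfold vv wsum at h3
    have hz : 0 < zz ^ n := pow_pos cnt.1 n
    rw [← Finset.mul_sum]
    have h4 : MA (n + 1) * ((KK (2 * n + 1)).card : ℝ) = ∑ w ∈ KK (2 * n + 1), (ar w : ℝ) := by
      have h5 : zz ^ n * (MA (n + 1) * ((KK (2 * n + 1)).card : ℝ)) =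
          zz ^ n * ∑ w ∈ KK (2 * n + 1), (ar w : ℝ) := by rw [← h3]; ring
      exact mul_left_cancel₀ hz.ne' h5
    rw [← h4]
    field_simp
  have h5 : MR r (n + 1) = ∑ w ∈ KK (2 * n + 1), (1 / ((KK (2 * n + 1)).card : ℝ)) * (ar w : ℝ) ^ r := by
    have h3 := MF_sum hn (fun x => x ^ r)
    unfold vv wsum at h3
    have hz : 0 < zz ^ n := pow_pos cnt.1 n
    rw [← Finset.mul_sum]
    have h4 : MR r (n + 1) * ((KK (2 * n + 1)).card : ℝ) = ∑ w ∈ KK (2 * n + 1), (ar w : ℝ) ^ r := by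
      have h5 : zz ^ n * (MR r (n + 1) * ((KK (2 * n + 1)).card : ℝ)) =
          zz ^ n * ∑ w ∈ KK (2 * n + 1), (ar w : ℝ) ^ r := by rw [← h3]; unfold MR; ring
      exact mul_left_cancel₀ hz.ne' h5
    rw [← h4]
    field_simp
  rw [h1, h5]
  apply Real.pow_arith_mean_le_arith_mean_pow
  · intro w _; positivity
  · rw [Finset.sum_const, nsmul_eq_mul]; field_simp
  · intro w _; exact Nat.cast_nonneg _

theorem MR_pos (r : ℕ) {n : ℕ} (hn : 2 ≤ n) : 0 < MR r n := by
  obtain ⟨m, rfl⟩ : ∃ m, n = m + 1 := ⟨n - 1, by omega⟩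
  exact lt_of_lt_of_le (pow_pos (MA_pos hn) r) (jensen (by omega) r)

theorem moment_smooth' (hR : StmR) (are : StmAre) (maj : StmMaj) (fewm : StmFewM) (ej1 : StmEJ1)
    (r k : ℕ) : ∃ C : ℝ, ∀ n : ℕ, 2 ≤ n →
    |D k (fun m => MR r (m + 1) * vv m) n| ≤ C * (ep n ^ k * (MR r (n + 1) * vv n)) := by
  apply ext_all
  · intro n hn
    have := ep_pos hn
    have := vv_pos (show 1 ≤ n by omega)
    have h1 := MR_pos r (show 2 ≤ n + 1 by omega)
    positivity
  · obtain ⟨C1, hC1, hej⟩ := ej1 r k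
    obtain ⟨C, N₀, hC, h⟩ := main_m hR are maj fewm k (C1 * 256 ^ r) (2 * r)
      (by nlinarith [one_le_pow₀ (M₀ := ℝ) (a := 256) (n := r) (by norm_num)])
    refine ⟨C * (4 ^ r * 2), N₀ + k + 1, fun N hN => ?_⟩
    have hN1 : 1 ≤ N := by omega
    have hNr : (1 : ℝ) ≤ N := by exact_mod_cast hN1
    have e1 : D k (fun m => MR r (m + 1) * vv m) N = D k (wsum (fun w => (ar w : ℝ) ^ r)) N := by
      apply D_congr
      intro i hi _
      exact MF_sum (show 1 ≤ i by omega) (fun x => x ^ r)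
    rw [e1]
    have h256 : (1 : ℝ) ≤ 256 ^ r := one_le_pow₀ (by norm_num)
    have g := h N (by omega) (fun x => x ^ r) (fun x => (x + N) ^ r) ?_ ?_ ?_
    · refine g.trans ?_
      rw [mul_assoc]
      apply mul_le_mul_of_nonneg_left _ hC
      have he : 0 ≤ ep N ^ k := by
        rcases Nat.lt_or_ge N 2 with h2 | h2
        · have : N = 1 := by omega
          rw [this]
          unfold ep
          simp
        · have := ep_pos h2
          positivity
      have hv := vv_pos hN1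
      have k1 : wsum (fun w => ((ar w : ℝ) + N) ^ r) N ≤ 2 ^ r * (MR r (N + 1) * vv N + N ^ r * vv N) := by
        have e2 : MR r (N + 1) * vv N = wsum (fun w => (ar w : ℝ) ^ r) N := MF_sum hN1 (fun x => x ^ r)
        rw [e2]
        have e3 : (N : ℝ) ^ r * vv N = wsum (fun _ => (N : ℝ) ^ r) N := by
          unfold vv wsum
          rw [Finset.sum_const, nsmul_eq_mul]; ring
        rw [e3]
        unfold wsum
        rw [← mul_add, ← Finset.sum_add_distrib, mul_left_comm, Finset.mul_sum (a := (2 : ℝ) ^ r)]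
        apply mul_le_mul_of_nonneg_left _ (pow_nonneg cnt.1.le _)
        refine Finset.sum_le_sum fun w _ => ?_
        have ha : (0 : ℝ) ≤ ar w := Nat.cast_nonneg _
        have hn0 : (0 : ℝ) ≤ N := Nat.cast_nonneg _
        have k2 : ((ar w : ℝ) + N) ^ r ≤ (2 * max (ar w : ℝ) N) ^ r := by
          apply pow_le_pow_left₀ (by positivity)
          have := le_max_left (ar w : ℝ) N
          have := le_max_right (ar w : ℝ) N
          linarith
        refine k2.trans ?_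
        rw [mul_pow]
        apply mul_le_mul_of_nonneg_left _ (by positivity)
        rcases max_cases (ar w : ℝ) (N : ℝ) with h3 | h3
        · rw [h3.1]
          have : (0 : ℝ) ≤ (N : ℝ) ^ r := by positivity
          linarith
        · rw [h3.1]
          have : (0 : ℝ) ≤ (ar w : ℝ) ^ r := by positivity
          linarith
      have k3 : (N : ℝ) ^ r ≤ 2 ^ r * MR r (N + 1) := by
        have k4 := jensen hN1 r
        have k5 := MA_ge N hN1
        calc (N : ℝ) ^ r ≤ (2 * MA (N + 1)) ^ r := pow_le_pow_left₀ (by positivity) (by linarith) r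
          _ = 2 ^ r * MA (N + 1) ^ r := by rw [mul_pow]
          _ ≤ _ := mul_le_mul_of_nonneg_left k4 (by positivity)
      have hM0 := MR_pos r (show 2 ≤ N + 1 by omega)
      have h2r : (1 : ℝ) ≤ 2 ^ r := one_le_pow₀ (by norm_num)
      have k6 : wsum (fun w => ((ar w : ℝ) + N) ^ r) N ≤ 4 ^ r * 2 * (MR r (N + 1) * vv N) := by
        refine k1.trans ?_
        have e4 : (4 : ℝ) ^ r = 2 ^ r * 2 ^ r := by rw [← mul_pow]; norm_num
        rw [e4]
        have k7 : (N : ℝ) ^ r * vv N ≤ 2 ^ r * MR r (N + 1) * vv N := mul_le_mul_of_nonneg_right k3 hv.le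
        have k8 : MR r (N + 1) * vv N ≤ 2 ^ r * MR r (N + 1) * vv N := by
          apply mul_le_mul_of_nonneg_right _ hv.le
          nlinarith
        calc 2 ^ r * (MR r (N + 1) * vv N + N ^ r * vv N) ≤
            2 ^ r * (2 ^ r * MR r (N + 1) * vv N + 2 ^ r * MR r (N + 1) * vv N) := by gcongr
          _ = _ := by ring
      calc ep N ^ k * wsum (fun w => ((ar w : ℝ) + N) ^ r) N ≤
          ep N ^ k * (4 ^ r * 2 * (MR r (N + 1) * vv N)) := mul_le_mul_of_nonneg_left k6 he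
        _ = _ := by ring
    · intro x hx0 hx
      rw [abs_of_nonneg (pow_nonneg hx0 r)]
      calc x ^ r ≤ (256 * (N : ℝ) ^ 2) ^ r := pow_le_pow_left₀ hx0 hx r
        _ = 1 * 256 ^ r * N ^ (2 * r) := by rw [mul_pow, pow_mul]; ring
        _ ≤ _ := by gcongr
    · intro x hx
      apply one_le_pow₀
      linarith
    · intro j hj s x hs hx
      refine (hej s x N hs hx hN1 (by omega) j hj).trans ?_
      apply div_le_div_of_nonneg_right _ (by positivity)
      apply mul_le_mul_of_nonneg_right _ (by positivity)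
      nlinarith

theorem moment_smooth (hR : StmR) (are : StmAre) (maj : StmMaj) (fewm : StmFewM) (ej1 : StmEJ1)
    (r k : ℕ) : ∃ C : ℝ, ∀ n : ℕ, 2 ≤ n → |D k (MR r) n| ≤ C * (ep n ^ k * MR r n) := by
  apply shift_ep (MR r) (fun n hn => MR_pos r hn) k
  exact quo (fun m => MR r (m + 1)) vv (fun n hn => MR_pos r (by omega)) (fun n hn => vv_pos (by omega))
    (vv_smooth hR) (moment_smooth' hR are maj fewm ej1 r) k

end

end Pool.Agent.T6.H92.TG
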