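import Pool.Agent.T6.H92.TG.Fin2

/-!
# All-order smoothness: smooth functions of the area
-/

set_option autoImplicit false

namespace Pool.Agent.T6.H92.TG

open Finset Pool.Agent.H976R2 Pool.Agent.H976R2.Lip Pool.Agent.H924P Pool.Agent.H739K
  Pool.Agent.T6.H92.SP
open scoped Classical

noncomputable section

theorem ep_two {n : ℕ} (hn : 1 ≤ n) : 0 ≤ ep n := by
  unfold ep
  exact div_nonneg (Real.log_natCast_nonneg n) (Real.sqrt_nonneg _)

theorem ep_tend : Filter.Tendsto ep Filter.atTop (nhds 0) := by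
  rw [Metric.tendsto_atTop]
  intro δ hδ
  obtain ⟨N₀, h⟩ := Filter.eventually_atTop.1 (sqrtlog_small (τ := 1) zero_le_one (δ := δ / 2) (by positivity))
  refine ⟨N₀ + 2, fun n hn => ?_⟩
  have h1 := h n (by omega)
  have hn2 : (2 : ℝ) ≤ n := by exact_mod_cast (by omega : 2 ≤ n)
  have hn0 : (0 : ℝ) < n := by linarith
  have hs : 0 < Real.sqrt n := Real.sqrt_pos.2 hn0
  have hss : Real.sqrt n * Real.sqrt n = n := Real.mul_self_sqrt hn0.le
  have hp := ep_pos (show 2 ≤ n by omega)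
  rw [Real.dist_eq, sub_zero, abs_of_pos hp]
  have h2 : ep n ≤ δ / 2 := by
    unfold ep
    rw [div_le_iff₀ hs]
    rw [one_mul] at h1
    have h3 : Real.sqrt n * Real.log n ≤ Real.sqrt n * (δ / 2 * Real.sqrt n) := by
      calc Real.sqrt n * Real.log n ≤ δ / 2 * n := h1
        _ = δ / 2 * (Real.sqrt n * Real.sqrt n) := by rw [hss]
        _ = Real.sqrt n * (δ / 2 * Real.sqrt n) := by ring
    exact le_of_mul_le_mul_left h3 hs
  linarith

/-- the weights `v` in a window -/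
theorem vv_window (hR : StmR) (k : ℕ) : ∃ (Cv c : ℝ) (N₀ : ℕ), 0 < c ∧ 0 ≤ Cv ∧ ∀ N ≥ N₀,
    (∀ l ≤ k, c * vv N ≤ vv (N + l)) ∧
    (∀ a ≤ k, ∀ l ≤ k, |D a vv (N + l)| ≤ Cv * (ep N ^ a * vv N)) := by
  choose Cd hCd using vv_smooth hR
  -- ratio bounds
  have hlow : ∃ N₁ : ℕ, ∀ n ≥ N₁, vv n / 2 ≤ vv (n + 1) ∧ vv (n + 1) ≤ 2 * vv n := by
    have h1 := ep_tend
    rw [Metric.tendsto_atTop] at h1
    obtain ⟨N₁, h2⟩ := h1 (1 / (2 * (|Cd 1| + 1))) (by positivity)
    refine ⟨N₁ + 2, fun n hn => ?_⟩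
    have h3 := h2 n (by omega)
    have hp := ep_pos (show 2 ≤ n by omega)
    rw [Real.dist_eq, sub_zero, abs_of_pos hp, lt_div_iff₀ (by positivity)] at h3
    have h4 := hCd 1 n (by omega)
    have hv := vv_pos (show 1 ≤ n by omega)
    have h5 : D 1 vv n = vv (n + 1) - vv n := rfl
    rw [h5, pow_one] at h4
    have h6 : Cd 1 * (ep n * vv n) ≤ vv n / 2 := by
      have h7 : Cd 1 ≤ |Cd 1| := le_abs_self _
      have h8 : Cd 1 * ep n ≤ 1 / 2 := by nlinarith [abs_nonneg (Cd 1)]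
      nlinarith
    have h9 := abs_le.1 (h4.trans h6)
    constructor <;> linarith [h9.1, h9.2]
  obtain ⟨N₁, hN₁⟩ := hlow
  have hit : ∀ l : ℕ, ∀ n ≥ N₁, (1 / 2) ^ l * vv n ≤ vv (n + l) ∧ vv (n + l) ≤ 2 ^ l * vv n := by
    intro l
    induction l with
    | zero => intro n _; simp
    | succ l ih =>
      intro n hn
      obtain ⟨a1, a2⟩ := ih n hn
      obtain ⟨b1, b2⟩ := hN₁ (n + l) (by omega)
      rw [← Nat.add_assoc, pow_succ, pow_succ]
      constructor <;> nlinarith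
  have hepl : ∀ l : ℕ, ∀ n ≥ 2, ep (n + l) ≤ 2 ^ l * ep n := by
    intro l
    induction l with
    | zero => intro n _; simp
    | succ l ih =>
      intro n hn
      have h1 := ih n hn
      have h2 : ep (n + l + 1) ≤ 2 * ep (n + l) := by
        have hm : 2 ≤ n + l := by omega
        have hm2 : (2 : ℝ) ≤ (n + l : ℕ) := by exact_mod_cast hm
        unfold ep
        have hs : 0 < Real.sqrt ((n + l : ℕ) : ℝ) := Real.sqrt_pos.2 (by linarith)
        have hs' : Real.sqrt ((n + l : ℕ) : ℝ) ≤ Real.sqrt ((n + l + 1 : ℕ) : ℝ) :=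
          Real.sqrt_le_sqrt (by push_cast; linarith)
        have h3 : Real.log ((n + l + 1 : ℕ) : ℝ) ≤ 2 * Real.log ((n + l : ℕ) : ℝ) := by
          have h4 : ((n + l + 1 : ℕ) : ℝ) ≤ ((n + l : ℕ) : ℝ) ^ 2 := by
            have e : ((n + l + 1 : ℕ) : ℝ) = ((n + l : ℕ) : ℝ) + 1 := by push_cast; ring
            rw [e]
            nlinarith
          have h5 := Real.log_le_log (by positivity) h4
          rw [Real.log_pow] at h5
          exact_mod_cast h5
        have h6 : 0 ≤ Real.log ((n + l : ℕ) : ℝ) := Real.log_natCast_nonneg _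
        rw [div_le_iff₀ (by linarith)]
        calc Real.log ((n + l + 1 : ℕ) : ℝ) ≤ 2 * Real.log ((n + l : ℕ) : ℝ) := h3
          _ = 2 * (Real.log ((n + l : ℕ) : ℝ) / Real.sqrt ((n + l : ℕ) : ℝ)) *
              Real.sqrt ((n + l : ℕ) : ℝ) := by field_simp
          _ ≤ _ := by gcongr
      rw [← Nat.add_assoc, pow_succ]
      linarith
  set S : ℝ := ∑ a ∈ range (k + 1), |Cd a| with hS
  have hS0 : 0 ≤ S := Finset.sum_nonneg fun _ _ => abs_nonneg _
  refine ⟨S * (2 ^ k) ^ k * 2 ^ k, (1 / 2) ^ k, N₁ + 2, by positivity, by positivity,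
    fun N hN => ⟨fun l hl => ?_, fun a ha l hl => ?_⟩⟩
  · have hv := vv_pos (show 1 ≤ N by omega)
    refine le_trans ?_ (hit l N (by omega)).1
    apply mul_le_mul_of_nonneg_right _ hv.le
    exact pow_le_pow_of_le_one (by norm_num) (by norm_num) hl
  · have hv := vv_pos (show 1 ≤ N by omega)
    have hv' := vv_pos (show 1 ≤ N + l by omega)
    have hp := ep_pos (show 2 ≤ N by omega)
    have hp' := ep_pos (show 2 ≤ N + l by omega)
    have h1 : |Cd a| ≤ S := Finset.single_le_sum (f := fun a => |Cd a|) (fun _ _ => abs_nonneg _)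
      (mem_range.2 (by omega))
    have h2 : (ep (N + l)) ^ a ≤ (2 ^ k) ^ k * ep N ^ a := by
      calc (ep (N + l)) ^ a ≤ (2 ^ l * ep N) ^ a := pow_le_pow_left₀ hp'.le (hepl l N (by omega)) a
        _ = (2 ^ l) ^ a * ep N ^ a := by rw [mul_pow]
        _ ≤ (2 ^ k) ^ k * ep N ^ a := by
          apply mul_le_mul_of_nonneg_right _ (by positivity)
          have h3 : (2 : ℝ) ^ l ≤ 2 ^ k := pow_le_pow_right₀ (by norm_num) hl
          have h4 : (1 : ℝ) ≤ 2 ^ k := one_le_pow₀ (by norm_num)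
          calc ((2 : ℝ) ^ l) ^ a ≤ (2 ^ k) ^ a := pow_le_pow_left₀ (by positivity) h3 a
            _ ≤ (2 ^ k) ^ k := pow_le_pow_right₀ h4 ha
    have h5 : vv (N + l) ≤ 2 ^ k * vv N := by
      refine (hit l N (by omega)).2.trans ?_
      apply mul_le_mul_of_nonneg_right _ hv.le
      exact pow_le_pow_right₀ (by norm_num) hl
    calc |D a vv (N + l)| ≤ Cd a * (ep (N + l) ^ a * vv (N + l)) := hCd a (N + l) (by omega)
      _ ≤ S * ((2 ^ k) ^ k * ep N ^ a * (2 ^ k * vv N)) := by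
        have h6 : Cd a ≤ S := (le_abs_self _).trans h1
        have h7 : 0 ≤ ep (N + l) ^ a * vv (N + l) := by positivity
        calc Cd a * (ep (N + l) ^ a * vv (N + l)) ≤ S * (ep (N + l) ^ a * vv (N + l)) :=
              mul_le_mul_of_nonneg_right h6 h7
          _ ≤ _ := by gcongr
      _ = _ := by ring

theorem fun_smooth' (hR : StmR) (are : StmAre) (maj : StmMaj) (fewm : StmFewM) (ej2 : StmEJ2)
    (qul : StmQul) (k : ℕ) : ∃ (C : ℝ) (N₀ : ℕ), ∀ N ≥ N₀, ∀ (g : ℝ → ℝ) (a : ℝ), ContDiff ℝ k g →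
      (∀ j ≤ k, ∀ y, |iteratedDeriv j g y| ≤ 1) → (N : ℝ) ≤ a →
      |D k (fun m => me (m + 1) (fun f => g ((area (2 * (m + 1)) f : ℝ) / a))) N| ≤ C * ep N ^ k := by
  obtain ⟨Cv, c, N₁, hc, hCv, hw⟩ := vv_window hR k
  have hm := fun a => main_m hR are maj fewm a 1 0 le_rfl
  choose Cm Nm hCm hmain using hm
  set S : ℝ := ∑ a ∈ range (k + 1), Cm a with hS
  have hS0 : 0 ≤ S := Finset.sum_nonneg fun a _ => hCm a
  set N₂ : ℕ := ∑ a ∈ range (k + 1), Nm a with hN₂
  obtain ⟨C, hC⟩ := qul k (Cv + S) c hc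
  refine ⟨C, N₁ + N₂ + 2, fun N hN g a hg hder hNa => ?_⟩
  obtain ⟨w1, w2⟩ := hw N (by omega)
  have hv := vv_pos (show 1 ≤ N by omega)
  have hp := ep_pos (show 2 ≤ N by omega)
  have h1 := hC (fun m => me (m + 1) (fun f => g ((area (2 * (m + 1)) f : ℝ) / a))) vv N (ep N) 1
    hp.le zero_le_one hv w1
    (fun b hb l hl => (w2 b hb l hl).trans (by
      have : 0 ≤ ep N ^ b * vv N := by positivity
      nlinarith))
    (fun b hb => by
      have e1 : D b (fun m => me (m + 1) (fun f => g ((area (2 * (m + 1)) f : ℝ) / a)) * vv m) N =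
          D b (wsum (fun w => g ((ar w : ℝ) / a))) N := by
        apply D_congr
        intro i hi _
        exact MF_sum (show 1 ≤ i by omega) (fun x => g (x / a))
      rw [e1]
      have hNb : Nm b ≤ N₂ := Finset.single_le_sum (f := Nm) (fun _ _ => Nat.zero_le _)
        (mem_range.2 (by omega))
      have h2 := hmain b N (by omega) (fun x => g (x / a)) (fun _ => 1)
        (fun x _ _ => by
          have := hder 0 (Nat.zero_le k) (x / a)
          rw [iteratedDeriv_zero] at this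
          simpa using this)
        (fun _ _ => le_rfl)
        (fun j hj s x hs _ => by
          have h3 := ej2 b g 1 (hg.of_le (by exact_mod_cast hb)) (fun j hj => hder j (by omega)) s a N hs
            (by omega) hNa j hj x
          simpa using h3)
      refine h2.trans ?_
      rw [wsum_one, one_mul]
      have h4 : Cm b ≤ S := Finset.single_le_sum (f := Cm) (fun a _ => hCm a) (mem_range.2 (by omega))
      apply mul_le_mul_of_nonneg_right _ (by positivity)
      linarith)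
    k le_rfl
  rw [mul_one] at h1
  exact h1

theorem me_abs {n : ℕ} (hn : 1 ≤ n) (F : ℝ → ℝ) (hF : ∀ x, |F x| ≤ 1) :
    |me (n + 1) (fun f => F (area (2 * (n + 1)) f))| ≤ 1 := by
  have hK := KK_pos hn
  rw [me_sum hn, abs_div, abs_of_pos hK, div_le_one hK]
  calc |∑ w ∈ KK (2 * n + 1), F (area (2 * (n + 1)) (lp (2 * (n + 1)) w))| ≤
      ∑ w ∈ KK (2 * n + 1), |F (area (2 * (n + 1)) (lp (2 * (n + 1)) w))| :=
        Finset.abs_sum_le_sum_abs _ _
    _ ≤ ∑ w ∈ KK (2 * n + 1), (1 : ℝ) := Finset.sum_le_sum fun w _ => hF _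
    _ = _ := by simp

theorem fun_smooth (hR : StmR) (are : StmAre) (maj : StmMaj) (fewm : StmFewM) (ej2 : StmEJ2)
    (qul : StmQul) (k : ℕ) : ∃ C : ℝ, ∀ n : ℕ, 2 ≤ n → ∀ (g : ℝ → ℝ) (a : ℝ), ContDiff ℝ k g →
      (∀ j ≤ k, ∀ y, |iteratedDeriv j g y| ≤ 1) → (n : ℝ) ≤ a →
      |D k (fun m => me m (fun f => g ((area (2 * m) f : ℝ) / a))) n| ≤ C * ep n ^ k := by
  obtain ⟨C, N₀, h⟩ := fun_smooth' hR are maj fewm ej2 qul k
  -- a lower bound for `ep` on a finite set
  obtain ⟨δ, hδ, hep⟩ : ∃ δ : ℝ, 0 < δ ∧ ∀ n : ℕ, 2 ≤ n → n < N₀ + 4 → δ ≤ ep n ^ k := by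
    have hne : (Finset.Ico 2 (N₀ + 4)).Nonempty := ⟨2, by simp⟩
    obtain ⟨m, hm, hmin⟩ := Finset.exists_min_image (Finset.Ico 2 (N₀ + 4)) (fun n => ep n ^ k) hne
    rw [Finset.mem_Ico] at hm
    exact ⟨ep m ^ k, pow_pos (ep_pos hm.1) k, fun n h1 h2 => hmin n (Finset.mem_Ico.2 ⟨h1, h2⟩)⟩
  refine ⟨|C| * 2 ^ k + 2 ^ k / δ, fun n hn g a hg hder hna => ?_⟩
  have hp := ep_pos hn
  by_cases hN : N₀ + 4 ≤ n
  · obtain ⟨m, rfl⟩ : ∃ m, n = m + 1 := ⟨n - 1, by omega⟩
    have hm := h m (by omega) g a hg hder (by push_cast at hna; linarith)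
    have e1 : D k (fun m => me (m + 1) (fun f => g ((area (2 * (m + 1)) f : ℝ) / a))) m =
        D k (fun m => me m (fun f => g ((area (2 * m) f : ℝ) / a))) (m + 1) := by
      have := D_shift k (fun m => me m (fun f => g ((area (2 * m) f : ℝ) / a))) 1 m
      rw [add_comm 1 m] at this
      rw [← this]
      apply D_congr
      intro i _ _
      rw [add_comm 1 i]
    rw [e1] at hm
    have hep2 : ep m ≤ 2 * ep (m + 1) := by
      have hm2 : (2 : ℝ) ≤ m := by exact_mod_cast (by omega : 2 ≤ m)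
      unfold ep
      have hs : 0 < Real.sqrt m := Real.sqrt_pos.2 (by linarith)
      have hs' : 0 < Real.sqrt ((m + 1 : ℕ) : ℝ) := Real.sqrt_pos.2 (by push_cast; linarith)
      rw [mul_div_assoc', div_le_div_iff₀ hs hs']
      have h2 : Real.log m ≤ Real.log ((m + 1 : ℕ) : ℝ) :=
        Real.log_le_log (by linarith) (by push_cast; linarith)
      have h3 : Real.sqrt ((m + 1 : ℕ) : ℝ) ≤ 2 * Real.sqrt m := by
        have e : 2 * Real.sqrt m = Real.sqrt (2 ^ 2 * m) := by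
          rw [Real.sqrt_mul (by norm_num), Real.sqrt_sq (by norm_num)]
        rw [e]
        apply Real.sqrt_le_sqrt
        push_cast
        linarith
      have h4 : 0 ≤ Real.log (m : ℝ) := Real.log_natCast_nonneg m
      calc Real.log m * Real.sqrt ((m + 1 : ℕ) : ℝ) ≤ Real.log m * (2 * Real.sqrt m) := by gcongr
        _ = 2 * Real.log m * Real.sqrt m := by ring
        _ ≤ 2 * Real.log ((m + 1 : ℕ) : ℝ) * Real.sqrt m := by gcongr
    have hpm := ep_pos (show 2 ≤ m by omega)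
    refine hm.trans ?_
    have h5 : ep m ^ k ≤ 2 ^ k * ep (m + 1) ^ k := by
      rw [← mul_pow]
      exact pow_le_pow_left₀ hpm.le hep2 k
    calc C * ep m ^ k ≤ |C| * ep m ^ k := mul_le_mul_of_nonneg_right (le_abs_self C) (by positivity)
      _ ≤ |C| * (2 ^ k * ep (m + 1) ^ k) := mul_le_mul_of_nonneg_left h5 (abs_nonneg C)
      _ ≤ _ := by
        have : 0 ≤ 2 ^ k / δ * ep (m + 1) ^ k := by positivity
        nlinarith
  · have h1 : |D k (fun m => me m (fun f => g ((area (2 * m) f : ℝ) / a))) n| ≤ 2 ^ k * 1 := by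
      apply D_bound
      intro i hi _
      obtain ⟨m, rfl⟩ : ∃ m, i = m + 1 := ⟨i - 1, by omega⟩
      exact me_abs (by omega) (fun x => g (x / a)) (fun x => by
        have := hder 0 (Nat.zero_le k) (x / a)
        rwa [iteratedDeriv_zero] at this)
    refine h1.trans ?_
    have h2 := hep n hn (by omega)
    have h3 : (2 : ℝ) ^ k * 1 ≤ 2 ^ k / δ * ep n ^ k := by
      rw [mul_one, div_mul_eq_mul_div, le_div_iff₀ hδ]
      apply mul_le_mul_of_nonneg_left h2 (by positivity)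
    refine h3.trans ?_
    apply mul_le_mul_of_nonneg_right _ (by positivity)
    have : 0 ≤ |C| * 2 ^ k := by positivity
    linarith

end

end Pool.Agent.T6.H92.TG
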