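import Pool.Agent.T6.H92.TG.Defs2

/-!
# All-order smoothness in the length: module INN

All but `2 bx w` bumps are inner bumps.
-/

set_option autoImplicit false

namespace Pool.Agent.T6.H92.TG

open Finset Pool.Agent.H976R2 Pool.Agent.H976R2.Lip Pool.Agent.H924P Pool.Agent.H739K
  Pool.Agent.T6.H92.SP

/-- the four points of a bump are the vertices of its cell -/
theorem bump_pts (w : List Dir) (i : ℕ) (hi : i ∈ bumps w) :
    (∀ a : ℕ, a ≤ 3 → (bcell w i).1 ≤ (PP w (i + a)).1 ∧ (PP w (i + a)).1 ≤ (bcell w i).1 + 1 ∧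
      (bcell w i).2 ≤ (PP w (i + a)).2 ∧ (PP w (i + a)).2 ≤ (bcell w i).2 + 1) ∧
    (∀ p : ℤ × ℤ, (bcell w i).1 ≤ p.1 → p.1 ≤ (bcell w i).1 + 1 → (bcell w i).2 ≤ p.2 →
      p.2 ≤ (bcell w i).2 + 1 → ∃ a : ℕ, a ≤ 3 ∧ p = PP w (i + a)) := by
  rw [Lip.mem_bumps] at hi
  obtain ⟨hl, ho, hp⟩ := hi
  have e1 := PP_succ w i (by omega)
  have e2 := PP_succ w (i + 1) (by omega)
  have e3 := PP_succ w (i + 2) (by omega)
  rw [e1] at e2
  rw [show i + 1 + 1 = i + 2 by ring] at e2
  rw [e2, ho] at e3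
  rw [show i + 2 + 1 = i + 3 by ring] at e3
  have hc : bcell w i = (min (PP w i).1 (PP w (i + 2)).1, min (PP w i).2 (PP w (i + 2)).2) := rfl
  rw [e2] at hc
  revert e1 e2 e3 hc hp
  generalize bcell w i = c
  generalize h0 : PP w i = P
  generalize h1 : PP w (i + 1) = P1
  generalize h2 : PP w (i + 2) = P2
  generalize h3 : PP w (i + 3) = P3
  generalize lt w i = e
  generalize lt w (i + 1) = d
  intro hp e1 e2 e3 hc
  have hfour : ∀ a : ℕ, a ≤ 3 → PP w (i + a) = P ∨ PP w (i + a) = P1 ∨ PP w (i + a) = P2 ∨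
      PP w (i + a) = P3 := by
    intro a ha
    interval_cases a
    · left; exact h0
    · right; left; exact h1
    · right; right; left; exact h2
    · right; right; right; exact h3
  obtain ⟨x, y⟩ := P
  constructor
  · intro a ha
    rcases hfour a ha with h | h | h | h <;> rw [h] <;> subst e1 e2 e3 hc <;>
      cases e <;> cases d <;> simp [perp, dx, dy, dv, opp] at hp ⊢
  · rintro ⟨u, v⟩ q1 q2 q3 q4
    have hex : (u, v) = (x, y) ∨ (u, v) = P1 ∨ (u, v) = P2 ∨ (u, v) = P3 := by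
      subst e1 e2 e3 hc
      cases e <;> cases d <;> simp [perp, dx, dy, dv, opp] at hp q1 q2 q3 q4 ⊢ <;> omega
    rcases hex with h | h | h | h
    · exact ⟨0, by omega, by rw [h, ← h0]; rfl⟩
    · exact ⟨1, by omega, by rw [h, ← h1]⟩
    · exact ⟨2, by omega, by rw [h, ← h2]⟩
    · exact ⟨3, by omega, by rw [h, ← h3]⟩

theorem bcell_inj (w : List Dir) (hw : Saw w) (i : ℕ) (hi : i ∈ bumps w) (j : ℕ)
    (hj : j ∈ bumps w) (h : bcell w i = bcell w j) : i = j := by
  have li : i + 2 < w.length := ((Lip.mem_bumps w i).mp hi).1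
  have lj : j + 2 < w.length := ((Lip.mem_bumps w j).mp hj).1
  have pi := (bump_pts w i hi).1 0 (by omega)
  have pj := (bump_pts w j hj).1 0 (by omega)
  rw [h] at pi
  rw [← h] at pj
  obtain ⟨a, ha, e1⟩ := (bump_pts w j hj).2 _ pi.1 pi.2.1 pi.2.2.1 pi.2.2.2
  obtain ⟨b, hb, e2⟩ := (bump_pts w i hi).2 _ pj.1 pj.2.1 pj.2.2.1 pj.2.2.2
  have h1 := PP_inj hw (by omega) (by omega) e1
  have h2 := PP_inj hw (by omega) (by omega) e2
  omega

theorem inn_few : StmInn := by
  classical
  intro w hw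
  obtain ⟨Mx, mx, My, my, hb, h1, h2, h3, h4⟩ := BOXx.exists_box w
  have hbx := BOXx.bx_of w Mx mx My my hb h1 h2 h3 h4
  have hcard : bc w = ((bumps w).image (bcell w)).card := by
    unfold bc
    rw [Finset.card_image_of_injOn]
    intro i hi j hj hij
    exact bcell_inj w hw i hi j hj hij
  rw [hcard]
  have hsplit := Finset.card_filter_add_card_filter_not (s := (bumps w).image (bcell w)) (inn w)
  have hIB : (IB w).card = (((bumps w).image (bcell w)).filter (inn w)).card := by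
    unfold IB
    apply congrArg
    ext c
    simp only [mem_filter, mem_image]
  have hm1 : mx ≤ Mx := by
    obtain ⟨p, hp, -⟩ := h1
    have := hb p hp
    omega
  have hm2 : my ≤ My := by
    obtain ⟨p, hp, -⟩ := h1
    have := hb p hp
    omega
  have hnon : (((bumps w).image (bcell w)).filter (fun c => ¬ inn w c)).card ≤ 2 * bx w := by
    have hsub : ((bumps w).image (bcell w)).filter (fun c => ¬ inn w c) ⊆
        (({mx, Mx - 1} : Finset ℤ) ×ˢ Finset.Ico my My) ∪
          (Finset.Ico mx Mx ×ˢ ({my, My - 1} : Finset ℤ)) := by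
      intro c hc
      rw [mem_filter, mem_image] at hc
      obtain ⟨⟨i, hi, hic⟩, hni⟩ := hc
      obtain ⟨-, hv⟩ := bump_pts w i hi
      rw [hic] at hv
      obtain ⟨a, -, ea⟩ := hv (c.1, c.2) (by simp) (by simp) (by simp) (by simp)
      obtain ⟨b, -, eb⟩ := hv (c.1 + 1, c.2 + 1) (by simp) (by simp) (by simp) (by simp)
      have va := hb _ (BOXx.vis_PP w (i + a))
      have vb := hb _ (BOXx.vis_PP w (i + b))
      rw [← ea] at va
      rw [← eb] at vb
      simp only at va vb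
      rw [mem_union, mem_product, mem_product, mem_insert, mem_singleton, mem_Ico, mem_insert,
        mem_singleton, mem_Ico]
      by_contra hcon
      apply hni
      obtain ⟨p1, v1, q1⟩ := h1
      obtain ⟨p2, v2, q2⟩ := h2
      obtain ⟨p3, v3, q3⟩ := h3
      obtain ⟨p4, v4, q4⟩ := h4
      exact ⟨⟨p2, v2, by omega⟩, ⟨p1, v1, by omega⟩, ⟨p4, v4, by omega⟩, ⟨p3, v3, by omega⟩⟩
    refine (card_le_card hsub).trans ((card_union_le _ _).trans ?_)
    rw [card_product, card_product, Int.card_Ico, Int.card_Ico]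
    have c1 : ({mx, Mx - 1} : Finset ℤ).card ≤ 2 := card_le_two
    have c2 : ({my, My - 1} : Finset ℤ).card ≤ 2 := card_le_two
    have c3 : ({mx, Mx - 1} : Finset ℤ).card * (My - my).toNat ≤ 2 * (My - my).toNat :=
      Nat.mul_le_mul_right _ c1
    have c4 : (Mx - mx).toNat * ({my, My - 1} : Finset ℤ).card ≤ (Mx - mx).toNat * 2 :=
      Nat.mul_le_mul_left _ c2
    omega
  omega

end Pool.Agent.T6.H92.TG
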