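import Pool.Agent.T6.H92.TG.Defs

/-!
# Module INV: inner cells do not change under the insertion of an inner bump
-/

set_option autoImplicit false

namespace Pool.Agent.T6.H92.TG

open Finset Pool.Agent.H976R2 Pool.Agent.H976R2.Lip Pool.Agent.T6.H92.SP
open scoped Classical

theorem inv_new (w : List Dir) (i : ℕ) (e : Dir) (hp : perp e (lt w i)) (p : ℤ × ℤ)
    (h : p = PP w i + dv e ∨ p = PP w i + dv e + dv (lt w i)) :
    (acell w i e).1 ≤ p.1 ∧ p.1 ≤ (acell w i e).1 + 1 ∧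
      (acell w i e).2 ≤ p.2 ∧ p.2 ≤ (acell w i e).2 + 1 := by
  unfold acell
  revert hp h
  generalize lt w i = d
  generalize PP w i = P
  intro hp h
  cases e <;> cases d <;> first
    | (exfalso; revert hp; unfold perp; simp [dx, dy]; done)
    | (rcases h with rfl | rfl <;> simp [dv, dx, dy])

theorem inv : StmInv := by
  intro w i e hw hadm
  obtain ⟨hi, hp, hs⟩ := Pool.Agent.H976R2.mem_adm.mp hadm
  have hv := vis_ins w i e hi
  have hn := inv_new w i e hp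
  have hmono : ∀ p, vis w p → vis (ins w i e) p := fun p h => (hv p).2 (Or.inl h)
  constructor
  · rintro ⟨⟨p, hp1, hp2⟩, ⟨q, hq1, hq2⟩, ⟨r, hr1, hr2⟩, ⟨s, hs1, hs2⟩⟩
    refine ⟨⟨p, ?_, hp2⟩, ⟨q, ?_, hq2⟩, ⟨r, ?_, hr2⟩, ⟨s, ?_, hs2⟩⟩
    · rcases (hv p).1 hp1 with h | h
      · exact h
      · have := hn p h; omega
    · rcases (hv q).1 hq1 with h | h
      · exact h
      · have := hn q h; omega
    · rcases (hv r).1 hr1 with h | h
      · exact h
      · have := hn r h; omega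
    · rcases (hv s).1 hs1 with h | h
      · exact h
      · have := hn s h; omega
  · rintro ⟨⟨p0, hp1, hp2⟩, ⟨q0, hq1, hq2⟩, ⟨r0, hr1, hr2⟩, ⟨s0, hs1, hs2⟩⟩ c
    constructor
    · rintro ⟨⟨p, h1, h2⟩, ⟨q, h3, h4⟩, ⟨r, h5, h6⟩, ⟨s, h7, h8⟩⟩
      refine ⟨?_, ?_, ?_, ?_⟩
      · rcases (hv p).1 h1 with h | h
        · exact ⟨p, h, h2⟩
        · have := hn p h
          exact ⟨p0, hp1, by omega⟩
      · rcases (hv q).1 h3 with h | h
        · exact ⟨q, h, h4⟩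
        · have := hn q h
          exact ⟨q0, hq1, by omega⟩
      · rcases (hv r).1 h5 with h | h
        · exact ⟨r, h, h6⟩
        · have := hn r h
          exact ⟨r0, hr1, by omega⟩
      · rcases (hv s).1 h7 with h | h
        · exact ⟨s, h, h8⟩
        · have := hn s h
          exact ⟨s0, hs1, by omega⟩
    · rintro ⟨⟨p, h1, h2⟩, ⟨q, h3, h4⟩, ⟨r, h5, h6⟩, ⟨s, h7, h8⟩⟩
      exact ⟨⟨p, hmono p h1, h2⟩, ⟨q, hmono q h3, h4⟩, ⟨r, hmono r h5, h6⟩, ⟨s, hmono s h7, h8⟩⟩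

end Pool.Agent.T6.H92.TG
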