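import Pool.Agent.T6.H92.TG.Uni

/-!
# LOC: flat cells and bump cells after the insertion of a bump
-/

set_option autoImplicit false

namespace Pool.Agent.T6.H92.TG

open Finset Pool.Agent.H976R2 Pool.Agent.H976R2.Lip Pool.Agent.T6.H92.SP
open scoped Classical

noncomputable section

namespace ModLoc

open ModUni

variable {w : List Dir} {i : ℕ} {e : Dir}

theorem lt_sh (hi : i < w.length) {j : ℕ} (hj : j ≠ i) : lt (ins w i e) (sh i j) = lt w j := by
  unfold sh
  split_ifs with h
  · exact Lip.lt_ins_lt w i j e hi h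
  · exact Lip.lt_ins_gt w i j e hi (by omega)

theorem PP_sh (hi : i < w.length) {j : ℕ} (hj : j ≠ i) : PP (ins w i e) (sh i j) = PP w j := by
  unfold sh
  split_ifs with h
  · exact PP_ins_le w i j e hi (by omega)
  · exact PP_ins_gt w i j e hi (by omega)

theorem acell_sh (hi : i < w.length) {j : ℕ} (hj : j ≠ i) (f : Dir) :
    acell (ins w i e) (sh i j) f = acell w j f := by
  unfold acell
  rw [lt_sh hi hj, PP_sh hi hj]

theorem PP1 (hi : i < w.length) : PP (ins w i e) (i + 1) = PP w i + dv e := by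
  rw [PP_succ _ _ (by rw [ins_length w i e hi]; omega), PP_ins_le w i i e hi le_rfl,
    Lip.lt_ins_0 w i e hi]

theorem PP2 (hi : i < w.length) : PP (ins w i e) (i + 2) = PP w i + dv e + dv (lt w i) := by
  rw [show i + 2 = i + 1 + 1 from rfl, PP_succ _ _ (by rw [ins_length w i e hi]; omega), PP1 hi,
    Lip.lt_ins_1 w i e hi]

theorem PP3 (hi : i < w.length) : PP (ins w i e) (i + 3) = PP w (i + 1) := by
  rw [show i + 3 = (i + 1) + 2 from rfl, PP_ins_gt w i (i + 1) e hi (by omega)]

/-- the four vertices of the new bump -/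
theorem onc_new (hi : i < w.length) (hp : perp e (lt w i)) {k : ℕ} (hk : k ≤ 3) :
    onc (acell w i e) (PP (ins w i e) (i + k)) := by
  rw [onc_acell hp hi]
  have : k = 0 ∨ k = 1 ∨ k = 2 ∨ k = 3 := by omega
  rcases this with rfl | rfl | rfl | rfl
  · exact Or.inl (PP_ins_le w i i e hi le_rfl)
  · exact Or.inr (Or.inl (PP1 hi))
  · exact Or.inr (Or.inr (Or.inl (PP2 hi)))
  · exact Or.inr (Or.inr (Or.inr (PP3 hi)))

theorem new_bump (hi : i < w.length) (hp : perp e (lt w i)) : i ∈ bumps (ins w i e) := by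
  rw [Lip.mem_bumps, ins_length w i e hi, Lip.lt_ins_0 w i e hi, Lip.lt_ins_1 w i e hi,
    Lip.lt_ins_2 w i e hi]
  exact ⟨by omega, rfl, hp⟩

theorem new_cell (hi : i < w.length) : bcell (ins w i e) i = acell w i e := by
  rw [bcell_eq (by rw [ins_length w i e hi]; omega), acell_eq, PP_ins_le w i i e hi le_rfl,
    Lip.lt_ins_0 w i e hi, Lip.lt_ins_1 w i e hi]

end ModLoc

open ModUni ModLoc

theorem loc : StmLoc := by
  intro w i e hw h
  obtain ⟨hi, hp, hn1, hn2⟩ := (mem_adm hw i e).1 h
  have hw' : Saw (ins w i e) := by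
    unfold adm at h
    rw [mem_filter] at h
    exact h.2.2
  have hbl := ins_length w i e hi
  refine ⟨?_, new_bump hi hp, new_cell hi, ?_, ?_⟩
  · rintro ⟨j, hj, hc⟩
    have h1 : onc (acell w i e) (PP w i + dv e) := (onc_acell hp hi _).2 (Or.inr (Or.inl rfl))
    rw [← hc, onc_bcell hj] at h1
    obtain ⟨k, hk, h2⟩ := h1
    exact hn1 (h2 ▸ vis_PP w (j + k))
  · rintro ⟨⟨j, f⟩, hj, hc⟩
    simp only at hc
    obtain ⟨j1, j2, j3, j4⟩ := (mem_adm hw' j f).1 hj
    have h1 : onc (acell (ins w i e) j f) (PP (ins w i e) j + dv f) :=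
      (onc_acell j2 j1 _).2 (Or.inr (Or.inl rfl))
    rw [hc, onc_acell hp hi] at h1
    apply j3
    rw [vis_ins w i e hi]
    rcases h1 with h1 | h1 | h1 | h1
    · exact Or.inl (h1 ▸ vis_PP w i)
    · exact Or.inr (Or.inl h1)
    · exact Or.inr (Or.inr h1)
    · exact Or.inl (h1 ▸ vis_PP w (i + 1))
  · intro c hc
    have hcc : ∀ p, onc (acell w i e) p → onc c p → False := fun p h1 h2 => hc (touch_of h1 h2)
    constructor
    · constructor
      · rintro ⟨⟨j', f⟩, hj, hcj⟩
        simp only at hcj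
        obtain ⟨j1, j2, j3, j4⟩ := (mem_adm hw' j' f).1 hj
        have h1 : onc c (PP (ins w i e) j') := by
          rw [← hcj]
          exact (onc_acell j2 j1 _).2 (Or.inl rfl)
        have h2 : j' < i ∨ i + 2 < j' := by
          by_contra hcon
          obtain ⟨k, hk, rfl⟩ : ∃ k, k ≤ 3 ∧ j' = i + k := ⟨j' - i, by omega, by omega⟩
          exact hcc _ (onc_new hi hp hk) h1
        obtain ⟨j, hji, rfl⟩ : ∃ j, j ≠ i ∧ j' = sh i j := by
          rcases h2 with h2 | h2
          · exact ⟨j', by omega, by unfold sh; rw [if_pos h2]⟩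
          · exact ⟨j' - 2, by omega, by unfold sh; rw [if_neg (by omega)]; omega⟩
        refine ⟨(j, f), ((mem_adm_sh hw i e hi hw' j hji f).1 hj).1, ?_⟩
        show acell w j f = c
        rw [← acell_sh hi hji f]
        exact hcj
      · rintro ⟨⟨j, f⟩, hj, hcj⟩
        simp only at hcj
        obtain ⟨j1, j2, j3, j4⟩ := (mem_adm hw j f).1 hj
        have o1 : onc c (PP w j) := by
          rw [← hcj]; exact (onc_acell j2 j1 _).2 (Or.inl rfl)
        have o2 : onc c (PP w j + dv f) := by
          rw [← hcj]; exact (onc_acell j2 j1 _).2 (Or.inr (Or.inl rfl))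
        have o3 : onc c (PP w j + dv f + dv (lt w j)) := by
          rw [← hcj]; exact (onc_acell j2 j1 _).2 (Or.inr (Or.inr (Or.inl rfl)))
        have a1 : onc (acell w i e) (PP w i) := (onc_acell hp hi _).2 (Or.inl rfl)
        have a2 : onc (acell w i e) (PP w i + dv e) := (onc_acell hp hi _).2 (Or.inr (Or.inl rfl))
        have a3 : onc (acell w i e) (PP w i + dv e + dv (lt w i)) :=
          (onc_acell hp hi _).2 (Or.inr (Or.inr (Or.inl rfl)))
        have hji : j ≠ i := by
          rintro rfl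
          exact hcc _ a1 o1
        refine ⟨(sh i j, f), (mem_adm_sh hw i e hi hw' j hji f).2 ⟨hj, ⟨?_, ?_⟩, ?_, ?_⟩, ?_⟩
        · intro h'; exact hcc _ a2 (h' ▸ o2)
        · intro h'; exact hcc _ a3 (h' ▸ o2)
        · intro h'; exact hcc _ a2 (h' ▸ o3)
        · intro h'; exact hcc _ a3 (h' ▸ o3)
        · show acell (ins w i e) (sh i j) f = c
          rw [acell_sh hi hji f]
          exact hcj
    · constructor
      · rintro ⟨j', hj, hcj⟩
        have hl := ((Lip.mem_bumps _ j').1 hj).1
        have h2 : j' + 3 < i ∨ i + 3 < j' := by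
          by_contra hcon
          obtain ⟨k, k', hk, hk', hkk⟩ : ∃ k k', k ≤ 3 ∧ k' ≤ 3 ∧ j' + k = i + k' := by
            rcases le_total j' i with h3 | h3
            · exact ⟨i - j', 0, by omega, by omega, by omega⟩
            · exact ⟨0, j' - i, by omega, by omega, by omega⟩
          refine hcc _ (onc_new hi hp hk') ?_
          rw [← hkk, ← hcj]
          exact (onc_bcell hj _).2 ⟨k, hk, rfl⟩
        rcases h2 with h2 | h2
        · have hb : j' ∈ bumps w := (bumps_lt w i j' e hi (by omega)).1 hj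
          refine ⟨j', hb, ?_⟩
          rw [← hcj]
          unfold bcell
          rw [PP_ins_le w i j' e hi (by omega), PP_ins_le w i (j' + 2) e hi (by omega)]
        · obtain ⟨j, rfl⟩ : ∃ j, j' = j + 2 := ⟨j' - 2, by omega⟩
          have hb : j ∈ bumps w := (bumps_gt w i j e hi (by omega)).1 hj
          refine ⟨j, hb, ?_⟩
          rw [← hcj]
          unfold bcell
          rw [PP_ins_gt w i j e hi (by omega), PP_ins_gt w i (j + 2) e hi (by omega)]
      · rintro ⟨j, hj, hcj⟩
        have h2 : j + 2 < i ∨ i < j := by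
          by_contra hcon
          obtain ⟨k, hk, hkk⟩ : ∃ k, k ≤ 3 ∧ i = j + k := ⟨i - j, by omega, by omega⟩
          have a1 : onc (acell w i e) (PP w i) := (onc_acell hp hi _).2 (Or.inl rfl)
          refine hcc _ a1 ?_
          rw [← hcj]
          exact (onc_bcell hj _).2 ⟨k, hk, by rw [← hkk]⟩
        rcases h2 with h2 | h2
        · refine ⟨j, (bumps_lt w i j e hi h2).2 hj, ?_⟩
          rw [← hcj]
          unfold bcell
          rw [PP_ins_le w i j e hi (by omega), PP_ins_le w i (j + 2) e hi (by omega)]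
        · refine ⟨j + 2, (bumps_gt w i j e hi h2).2 hj, ?_⟩
          rw [← hcj]
          unfold bcell
          rw [PP_ins_gt w i j e hi (by omega), PP_ins_gt w i (j + 2) e hi (by omega)]

end

end Pool.Agent.T6.H92.TG
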