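import Pool.Agent.T6.H92.TG.Defs3

/-!
# Module MAJ: the restriction of a system to the cells with the sign of the majority
-/

set_option autoImplicit false

namespace Pool.Agent.T6.H92.TG

open Finset
open scoped Classical

noncomputable section

variable {α ι : Type} {K : ℕ → Finset α} {Fl Bu : α → Finset ι} {up dn : α → ι → α} {A : α → ℝ}
  {σ : α → ι → ℝ}

theorem maj_ms_up (T : Tog K Fl Bu up dn) (S : Sgn K Fl Bu up A σ) {n : ℕ} {w : α} (hw : w ∈ K n)
    {c : ι} (hc : c ∈ Fl w) : ms Fl Bu σ (up w c) = ms Fl Bu σ w := by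
  unfold ms
  rw [inv_sg T S n w hw c hc]

theorem maj_mem_Flm {w : α} {c : ι} :
    c ∈ Flm Fl Bu σ w ↔ c ∈ Fl w ∧ σ w c = ms Fl Bu σ w := by
  unfold Flm
  rw [mem_filter]

theorem maj_mem_Bum {w : α} {c : ι} :
    c ∈ Bum Fl Bu σ w ↔ c ∈ Bu w ∧ σ w c = ms Fl Bu σ w := by
  unfold Bum
  rw [mem_filter]

theorem maj_tog (T : Tog K Fl Bu up dn) (S : Sgn K Fl Bu up A σ) :
    Tog K (Flm Fl Bu σ) (Bum Fl Bu σ) up dn where
  up_mem := by
    intro n w hw c hc
    exact T.up_mem n w hw c (maj_mem_Flm.1 hc).1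
  up_bu := by
    intro n w hw c hc
    obtain ⟨hc1, hc2⟩ := maj_mem_Flm.1 hc
    ext d
    rw [maj_mem_Bum, maj_ms_up T S hw hc1, T.up_bu n w hw c hc1, mem_insert, mem_insert,
      maj_mem_Bum]
    constructor
    · rintro ⟨rfl | h1, h2⟩
      · exact Or.inl rfl
      · right
        rw [S.up_σ n w hw c hc1 d (mem_union_right _ h1)] at h2
        exact ⟨h1, h2⟩
    · rintro (rfl | ⟨h1, h2⟩)
      · refine ⟨Or.inl rfl, ?_⟩
        rw [S.up_σ n w hw d hc1 d (mem_union_left _ hc1)]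
        exact hc2
      · refine ⟨Or.inr h1, ?_⟩
        rw [S.up_σ n w hw c hc1 d (mem_union_right _ h1)]
        exact h2
  up_fl := by
    intro n w hw c hc
    obtain ⟨hc1, hc2⟩ := maj_mem_Flm.1 hc
    ext d
    rw [maj_mem_Flm, maj_ms_up T S hw hc1, T.up_fl n w hw c hc1, mem_erase, mem_erase,
      maj_mem_Flm]
    constructor
    · rintro ⟨⟨h1, h2⟩, h3⟩
      rw [S.up_σ n w hw c hc1 d (mem_union_left _ h2)] at h3
      exact ⟨h1, h2, h3⟩
    · rintro ⟨h1, h2, h3⟩
      refine ⟨⟨h1, h2⟩, ?_⟩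
      rw [S.up_σ n w hw c hc1 d (mem_union_left _ h2)]
      exact h3
  dn_mem := by
    intro n w hw c hc
    exact T.dn_mem n w hw c (maj_mem_Bum.1 hc).1
  dn_fl := by
    intro n w hw c hc
    obtain ⟨hc1, hc2⟩ := maj_mem_Bum.1 hc
    have h1 := T.dn_fl n w hw c hc1
    have h2 := T.up_dn n w hw c hc1
    have h3 := T.dn_mem n w hw c hc1
    have h4 := S.up_σ n _ h3 c h1 c (mem_union_left _ h1)
    have h5 := maj_ms_up T S h3 h1
    rw [h2] at h4 h5
    rw [maj_mem_Flm]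
    refine ⟨h1, ?_⟩
    rw [← h4, ← h5]
    exact hc2
  dn_up := by
    intro n w hw c hc
    exact T.dn_up n w hw c (maj_mem_Flm.1 hc).1
  up_dn := by
    intro n w hw c hc
    exact T.up_dn n w hw c (maj_mem_Bum.1 hc).1
  disj := by
    intro n w hw
    exact (T.disj n w hw).mono (filter_subset _ _) (filter_subset _ _)
  bot := by
    intro w hw
    unfold Bum
    rw [T.bot w hw]
    simp

theorem maj_half (T : Tog K Fl Bu up dn) (h1 : ∀ w c, σ w c = 1 ∨ σ w c = -1) {n : ℕ} {w : α}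
    (hw : w ∈ K n) : (Fl w).card + (Bu w).card ≤
      2 * ((Flm Fl Bu σ w).card + (Bum Fl Bu σ w).card) := by
  have hd := T.disj n w hw
  have hms : ms Fl Bu σ w = 1 ∨ ms Fl Bu σ w = -1 := by
    unfold ms
    split_ifs
    · exact Or.inl rfl
    · exact Or.inr rfl
  have h2 : 0 ≤ ms Fl Bu σ w * sg Fl Bu σ w := by
    unfold ms
    split_ifs with h
    · rw [one_mul]
      exact h
    · push Not at h
      linarith
  have h3 : ms Fl Bu σ w * sg Fl Bu σ w =
      ∑ c ∈ Fl w ∪ Bu w, (2 * (if σ w c = ms Fl Bu σ w then (1 : ℝ) else 0) - 1) := by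
    unfold sg
    rw [mul_sum]
    refine Finset.sum_congr rfl fun c _ => ?_
    rcases hms with h4 | h4 <;> rcases h1 w c with h5 | h5 <;> rw [h4, h5] <;> norm_num
  rw [h3, Finset.sum_sub_distrib, ← mul_sum, Finset.sum_const, nsmul_eq_mul, mul_one,
    Finset.sum_boole, filter_union, card_union_of_disjoint (hd.mono (filter_subset _ _)
      (filter_subset _ _)), card_union_of_disjoint hd] at h2
  have h6 : (Fl w).card + (Bu w).card ≤ 2 * (((Fl w).filter
      (fun c => σ w c = ms Fl Bu σ w)).card + ((Bu w).filter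
      (fun c => σ w c = ms Fl Bu σ w)).card) := by
    have h7 : (((Fl w).card + (Bu w).card : ℕ) : ℝ) ≤ ((2 * (((Fl w).filter
      (fun c => σ w c = ms Fl Bu σ w)).card + ((Bu w).filter
      (fun c => σ w c = ms Fl Bu σ w)).card) : ℕ) : ℝ) := by
      push_cast at h2 ⊢
      linarith
    exact_mod_cast h7
  exact h6

/-- module MAJ -/
theorem maj : StmMaj := by
  intro α ι K Fl Bu up dn A σ T S h1
  refine ⟨maj_tog T S, ?_, fun n w hw => maj_half T h1 hw⟩
  intro n w hw c hc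
  obtain ⟨hc1, hc2⟩ := maj_mem_Flm.1 hc
  refine ⟨?_, maj_ms_up T S hw hc1⟩
  rw [S.up_A n w hw c hc1, hc2]

end

end Pool.Agent.T6.H92.TG
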