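import Pool.Agent.T6.H92.TG.Defs

/-!
# Module TOG3: the toggle system of the polygons from the local facts
-/

set_option autoImplicit false

namespace Pool.Agent.T6.H92.TG

open Finset Pool.Agent.H976R2 Pool.Agent.H976R2.Lip Pool.Agent.T6.H92.SP
open scoped Classical

theorem mem_KK {n : ℕ} {w : List Dir} : w ∈ KK n ↔ w.length = n ∧ Saw w ∧ sq w = 1 := by
  unfold KK
  rw [mem_filter, mem_SW, and_assoc]

theorem mem_FL {R : Finset (ℤ × ℤ)} {w : List Dir} {c : ℤ × ℤ} :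
    c ∈ FL R w ↔ c ∈ R ∧ inn w c ∧ IsF w c := by
  unfold FL; rw [mem_filter]

theorem mem_BU {R : Finset (ℤ × ℤ)} {w : List Dir} {c : ℤ × ℤ} :
    c ∈ BU R w ↔ c ∈ R ∧ inn w c ∧ IsB w c := by
  unfold BU; rw [mem_filter]

theorem UP_spec {w : List Dir} {c : ℤ × ℤ} (h : IsF w c) :
    ∃ i e, (i, e) ∈ adm w ∧ acell w i e = c ∧ UP w c = ins w i e := by
  refine ⟨h.choose.1, h.choose.2, h.choose_spec.1, h.choose_spec.2, ?_⟩
  unfold UP
  rw [dif_pos h]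

theorem DN_spec {w : List Dir} {c : ℤ × ℤ} (h : IsB w c) :
    ∃ i, i ∈ bumps w ∧ bcell w i = c ∧ DN w c = del w i := by
  refine ⟨h.choose, h.choose_spec.1, h.choose_spec.2, ?_⟩
  unfold DN
  rw [dif_pos h]

/-- deletion of a bump: the inverse insertion is admissible -/
theorem del_facts {w : List Dir} (hw : Saw w) {i : ℕ} (hi : i ∈ bumps w) :
    Saw (del w i) ∧ (del w i).length + 2 = w.length ∧ (i, lt w i) ∈ adm (del w i) ∧
      ins (del w i) i (lt w i) = w := by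
  obtain ⟨hi, ho, hp⟩ := Pool.Agent.H976R2.mem_bumps.mp hi
  have hd : Saw (del w i) := by
    unfold del
    have := split3 hi
    rw [ho] at this
    rw [this] at hw
    exact saw_delete hw
  refine ⟨hd, by rw [length_del hi]; omega, Pool.Agent.H976R2.mem_adm.mpr ⟨?_, ?_, ?_⟩, ins_del hi ho⟩
  · rw [length_del hi]; omega
  · rw [lt_del hi]; exact hp
  · rw [ins_del hi ho]; exact hw

theorem tog3 : StmTog' := by
  intro loc uni inv R hR
  -- facts on insertion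
  have key : ∀ w, Saw w → ∀ c ∈ FL R w, ∃ i e, (i, e) ∈ adm w ∧ acell w i e = c ∧
      UP w c = ins w i e ∧ (∀ d, d ∈ BU R (UP w c) ↔ d = c ∨ d ∈ BU R w) ∧
      (∀ d, d ∈ FL R (UP w c) ↔ d ≠ c ∧ d ∈ FL R w) ∧ c ∉ BU R w := by
    intro w hw c hc
    obtain ⟨hcR, hci, hcF⟩ := mem_FL.1 hc
    obtain ⟨i, e, hadm, hcell, hUP⟩ := UP_spec hcF
    obtain ⟨l1, l2, l3, l4, l5⟩ := loc w i e hw hadm
    obtain ⟨v1, v2⟩ := inv w i e hw hadm
    rw [hcell] at l1 l3 l4 l5 v1 v2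
    have v3 := v2 hci
    refine ⟨i, e, hadm, hcell, hUP, ?_, ?_, ?_⟩
    · rw [hUP]
      intro d
      rw [mem_BU, mem_BU, v3 d]
      by_cases hdc : d = c
      · subst hdc
        exact ⟨fun _ => Or.inl rfl, fun _ => ⟨hcR, hci, i, l2, l3⟩⟩
      · constructor
        · rintro ⟨h1, h2, h3⟩
          exact Or.inr ⟨h1, h2, ((l5 d (hR c hcR d h1 (Ne.symm hdc))).2).1 h3⟩
        · rintro (h | ⟨h1, h2, h3⟩)
          · exact absurd h hdc
          · exact ⟨h1, h2, ((l5 d (hR c hcR d h1 (Ne.symm hdc))).2).2 h3⟩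
    · rw [hUP]
      intro d
      rw [mem_FL, mem_FL, v3 d]
      by_cases hdc : d = c
      · subst hdc
        exact ⟨fun h => absurd h.2.2 l4, fun h => absurd rfl h.1⟩
      · constructor
        · rintro ⟨h1, h2, h3⟩
          exact ⟨hdc, h1, h2, ((l5 d (hR c hcR d h1 (Ne.symm hdc))).1).1 h3⟩
        · rintro ⟨_, h1, h2, h3⟩
          exact ⟨h1, h2, ((l5 d (hR c hcR d h1 (Ne.symm hdc))).1).2 h3⟩
    · intro h
      exact l1 (mem_BU.1 h).2.2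
  have kdn : ∀ w, Saw w → ∀ c ∈ BU R w, ∃ i, i ∈ bumps w ∧ bcell w i = c ∧ DN w c = del w i ∧
      acell (del w i) i (lt w i) = c ∧ inn (del w i) c := by
    intro w hw c hc
    obtain ⟨hcR, hci, hcB⟩ := mem_BU.1 hc
    obtain ⟨i, hi, hcell, hDN⟩ := DN_spec hcB
    obtain ⟨d1, d2, d3, d4⟩ := del_facts hw hi
    obtain ⟨l1, l2, l3, l4, l5⟩ := loc (del w i) i (lt w i) d1 d3
    obtain ⟨v1, v2⟩ := inv (del w i) i (lt w i) d1 d3
    rw [d4] at l3 v1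
    have e1 : acell (del w i) i (lt w i) = c := by rw [← l3, hcell]
    rw [e1] at v1
    exact ⟨i, hi, hcell, hDN, e1, v1 hci⟩
  refine ⟨?_, ?_, ?_, ?_, ?_, ?_, ?_, ?_, ?_⟩
  · intro n w hw c hc
    obtain ⟨h1, h2, h3⟩ := mem_KK.1 hw
    obtain ⟨i, e, hadm, hcell, hUP, -⟩ := key w h2 c hc
    obtain ⟨hi, hp, hs⟩ := Pool.Agent.H976R2.mem_adm.mp hadm
    rw [hUP]
    exact mem_KK.2 ⟨by rw [length_ins e hi, h1]; omega, hs, by rw [sq_ins e hi, h3]⟩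
  · intro n w hw c hc
    obtain ⟨h1, h2, h3⟩ := mem_KK.1 hw
    obtain ⟨i, e, hadm, hcell, hUP, hB, -⟩ := key w h2 c hc
    ext d
    exact (hB d).trans (@Finset.mem_insert (ℤ × ℤ) (fun a b => Classical.propDecidable (a = b)) _ _ _).symm
  · intro n w hw c hc
    obtain ⟨h1, h2, h3⟩ := mem_KK.1 hw
    obtain ⟨i, e, hadm, hcell, hUP, hB, hF, -⟩ := key w h2 c hc
    ext d
    exact (hF d).trans (@Finset.mem_erase (ℤ × ℤ) (fun a b => Classical.propDecidable (a = b)) _ _ _).symm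
  · intro n w hw c hc
    obtain ⟨h1, h2, h3⟩ := mem_KK.1 hw
    obtain ⟨i, hi, hcell, hDN, -⟩ := kdn w h2 c hc
    obtain ⟨d1, d2, d3, d4⟩ := del_facts h2 hi
    rw [hDN]
    refine mem_KK.2 ⟨by omega, d1, ?_⟩
    rw [← h3]
    conv_rhs => rw [← d4]
    rw [sq_ins _ (Pool.Agent.H976R2.mem_adm.mp d3).1]
  · intro n w hw c hc
    obtain ⟨h1, h2, h3⟩ := mem_KK.1 hw
    obtain ⟨i, hi, hcell, hDN, e1, e2⟩ := kdn w h2 c hc
    obtain ⟨d1, d2, d3, d4⟩ := del_facts h2 hi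
    rw [hDN]
    exact mem_FL.2 ⟨(mem_BU.1 hc).1, e2, (i, lt w i), d3, e1⟩
  · intro n w hw c hc
    obtain ⟨h1, h2, h3⟩ := mem_KK.1 hw
    obtain ⟨i, e, hadm, hcell, hUP, -⟩ := key w h2 c hc
    obtain ⟨hi, hp, hs⟩ := Pool.Agent.H976R2.mem_adm.mp hadm
    obtain ⟨l1, l2, l3, l4, l5⟩ := loc w i e h2 hadm
    rw [hUP]
    have hB : IsB (ins w i e) c := ⟨i, l2, by rw [l3, hcell]⟩
    obtain ⟨j, hj, hjc, hDN⟩ := DN_spec hB
    have hji : j = i := uni.2 (ins w i e) hs j hj i l2 (by rw [hjc, l3, hcell])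
    rw [hDN, hji, del_ins hi]
  · intro n w hw c hc
    obtain ⟨h1, h2, h3⟩ := mem_KK.1 hw
    obtain ⟨i, hi, hcell, hDN, e1, e2⟩ := kdn w h2 c hc
    obtain ⟨d1, d2, d3, d4⟩ := del_facts h2 hi
    rw [hDN]
    have hF : IsF (del w i) c := ⟨(i, lt w i), d3, e1⟩
    obtain ⟨j, f, hj, hjc, hUP⟩ := UP_spec hF
    have hji := uni.1 (del w i) d1 (j, f) hj (i, lt w i) d3 (by rw [hjc, e1])
    rw [Prod.mk.injEq] at hji
    rw [hUP, hji.1, hji.2, d4]
  · intro n w hw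
    obtain ⟨h1, h2, h3⟩ := mem_KK.1 hw
    rw [Finset.disjoint_left]
    intro c hc
    obtain ⟨i, e, hadm, hcell, hUP, hB, hF, hn⟩ := key w h2 c hc
    exact hn
  · intro w hw
    obtain ⟨h1, h2, h3⟩ := mem_KK.1 hw
    rw [Finset.eq_empty_iff_forall_notMem]
    intro c hc
    obtain ⟨i, hi, -⟩ := kdn w h2 c hc
    have := (Pool.Agent.H976R2.mem_bumps.mp hi).1
    omega

end Pool.Agent.T6.H92.TG
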