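import Pool.Agent.T6.H92.TG.Defs

/-!
# UNI: the position of a flat cell and of a bump cell is unique
-/

set_option autoImplicit false

namespace Pool.Agent.T6.H92.TG

open Finset Pool.Agent.H976R2 Pool.Agent.H976R2.Lip Pool.Agent.T6.H92.SP
open scoped Classical

noncomputable section

namespace ModUni

/-- the point is a vertex of the cell -/
def onc (c p : ℤ × ℤ) : Prop := (p.1 = c.1 ∨ p.1 = c.1 + 1) ∧ (p.2 = c.2 ∨ p.2 = c.2 + 1)

/-- the cell spanned by two perpendicular directions -/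
def cof (P : ℤ × ℤ) (e d : Dir) : ℤ × ℤ :=
  (min P.1 (P.1 + dx e + dx d), min P.2 (P.2 + dy e + dy d))

theorem onc_cof {P : ℤ × ℤ} {e d : Dir} (h : perp e d) (p : ℤ × ℤ) :
    onc (cof P e d) p ↔ p = P ∨ p = P + dv e ∨ p = P + dv e + dv d ∨ p = P + dv d := by
  obtain ⟨x, y⟩ := P
  obtain ⟨a, b⟩ := p
  unfold onc cof
  cases e <;> cases d <;> simp [perp, dx, dy] at h <;>
    simp only [dv, dx, dy, Prod.mk_add_mk, Prod.mk.injEq] <;> omega

theorem acell_eq (w : List Dir) (i : ℕ) (e : Dir) : acell w i e = cof (PP w i) e (lt w i) := rfl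

theorem bcell_eq {w : List Dir} {i : ℕ} (h : i + 2 < w.length) :
    bcell w i = cof (PP w i) (lt w i) (lt w (i + 1)) := by
  have h1 := PP_succ w i (by omega)
  have h2 := PP_succ w (i + 1) (by omega)
  unfold bcell cof
  rw [show i + 2 = i + 1 + 1 from rfl, h2, h1]
  rfl

theorem touch_of {c d p : ℤ × ℤ} (h1 : onc c p) (h2 : onc d p) : touch c d := by
  unfold touch
  rw [abs_le, abs_le]
  obtain ⟨h3, h4⟩ := h1
  obtain ⟨h5, h6⟩ := h2
  refine ⟨⟨?_, ?_⟩, ?_, ?_⟩ <;> omega

theorem vis_PP (w : List Dir) (k : ℕ) : vis w (PP w k) :=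
  ⟨w.take k, w.drop k, (List.take_append_drop k w).symm, rfl, rfl⟩

/-- the third step of a bump -/
theorem PP_three {w : List Dir} {i : ℕ} (h : i ∈ bumps w) : PP w (i + 3) = PP w i + dv (lt w (i + 1)) := by
  obtain ⟨h1, h2, -⟩ := (mem_bumps w i).1 h
  have a1 := PP_succ w i (by omega)
  have a2 := PP_succ w (i + 1) (by omega)
  have a3 := PP_succ w (i + 1 + 1) (by omega)
  rw [show i + 3 = i + 1 + 1 + 1 from rfl, a3, a2, a1, show i + 1 + 1 = i + 2 from rfl, h2]
  generalize PP w i = P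
  generalize lt w i = a
  generalize lt w (i + 1) = b
  obtain ⟨x, y⟩ := P
  unfold dv
  rw [dx_opp, dy_opp]
  simp only [Prod.mk_add_mk, Prod.mk.injEq]
  constructor <;> ring

/-- the vertices of a bump cell are the four vertices of the bump -/
theorem onc_bcell {w : List Dir} {i : ℕ} (h : i ∈ bumps w) (p : ℤ × ℤ) :
    onc (bcell w i) p ↔ ∃ k, k ≤ 3 ∧ p = PP w (i + k) := by
  obtain ⟨h1, h2, h3⟩ := (mem_bumps w i).1 h
  have a1 := PP_succ w i (by omega)
  have a2 := PP_succ w (i + 1) (by omega)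
  have a3 := PP_three h
  rw [bcell_eq h1, onc_cof h3]
  constructor
  · rintro (h4 | h4 | h4 | h4)
    · exact ⟨0, by omega, h4⟩
    · exact ⟨1, by omega, by rw [a1]; exact h4⟩
    · exact ⟨2, by omega, by rw [show i + 2 = i + 1 + 1 from rfl, a2, a1]; exact h4⟩
    · exact ⟨3, by omega, by rw [a3]; exact h4⟩
  · rintro ⟨k, hk, rfl⟩
    have : k = 0 ∨ k = 1 ∨ k = 2 ∨ k = 3 := by omega
    rcases this with rfl | rfl | rfl | rfl
    · exact Or.inl rfl
    · exact Or.inr (Or.inl a1)
    · refine Or.inr (Or.inr (Or.inl ?_))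
      rw [show i + 2 = i + 1 + 1 from rfl, a2, a1]
    · exact Or.inr (Or.inr (Or.inr a3))

theorem onc_acell {w : List Dir} {i : ℕ} {e : Dir} (h : perp e (lt w i)) (hi : i < w.length)
    (p : ℤ × ℤ) : onc (acell w i e) p ↔
      p = PP w i ∨ p = PP w i + dv e ∨ p = PP w i + dv e + dv (lt w i) ∨ p = PP w (i + 1) := by
  rw [acell_eq, onc_cof h, PP_succ w i hi]

end ModUni

open ModUni

theorem uni : StmUni := by
  constructor
  · rintro w hw ⟨i, e⟩ hp ⟨j, f⟩ hq h
    simp only at h
    obtain ⟨i1, i2, i3, i4⟩ := (mem_adm hw i e).1 hp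
    obtain ⟨j1, j2, j3, j4⟩ := (mem_adm hw j f).1 hq
    have key : ∀ p, onc (acell w j f) p → vis w p → p = PP w i ∨ p = PP w (i + 1) := by
      intro p h1 h2
      rw [← h, onc_acell i2 i1] at h1
      rcases h1 with h1 | h1 | h1 | h1
      · exact Or.inl h1
      · exact absurd (h1 ▸ h2) i3
      · exact absurd (h1 ▸ h2) i4
      · exact Or.inr h1
    have k1 := key (PP w j) ((onc_acell j2 j1 _).2 (Or.inl rfl)) (vis_PP w j)
    have k2 := key (PP w (j + 1)) ((onc_acell j2 j1 _).2 (Or.inr (Or.inr (Or.inr rfl))))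
      (vis_PP w (j + 1))
    have k3 : j = i := by
      rcases k1 with k1 | k1
      · exact PP_inj hw (by omega) (by omega) k1
      · have e1 := PP_inj hw (by omega) (by omega) k1
        rcases k2 with k2 | k2
        · have e2 := PP_inj hw (by omega) (by omega) k2
          omega
        · have e2 := PP_inj hw (by omega) (by omega) k2
          omega
    subst k3
    have k4 : onc (acell w j e) (PP w j + dv f) := by
      rw [h]
      exact (onc_acell j2 j1 _).2 (Or.inr (Or.inl rfl))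
    rw [onc_acell i2 i1] at k4
    congr 1
    rcases k4 with k4 | k4 | k4 | k4
    · exact absurd (by rw [k4]; exact vis_PP w j) j3
    · clear * - k4
      have h1 : dv f = dv e := add_left_cancel k4
      revert h1
      cases e <;> cases f <;> simp [dv, dx, dy]
    · clear * - k4 i2 j2
      rw [add_assoc] at k4
      have h1 : dv f = dv e + dv (lt w j) := add_left_cancel k4
      revert h1 i2 j2
      generalize lt w j = d
      cases e <;> cases f <;> cases d <;> simp [dv, dx, dy, perp]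
    · exact absurd (by rw [k4]; exact vis_PP w (j + 1)) j3
  · intro w hw i hi j hj h
    obtain ⟨i1, -, -⟩ := (mem_bumps w i).1 hi
    obtain ⟨j1, -, -⟩ := (mem_bumps w j).1 hj
    have key : ∀ k, k ≤ 3 → ∃ k', k' ≤ 3 ∧ j + k = i + k' := by
      intro k hk
      have h1 : onc (bcell w j) (PP w (j + k)) := (onc_bcell hj _).2 ⟨k, hk, rfl⟩
      rw [← h] at h1
      obtain ⟨k', hk', h2⟩ := (onc_bcell hi _).1 h1
      exact ⟨k', hk', PP_inj hw (by omega) (by omega) h2⟩
    obtain ⟨a, ha, ha'⟩ := key 0 (by omega)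
    obtain ⟨b, hb, hb'⟩ := key 3 (by omega)
    omega

end

end Pool.Agent.T6.H92.TG
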