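import Pool.Agent.T6.H92.TG.Obs0
import Pool.Agent.T6.H92.TG.Defs2
import Pool.Agent.T6.H92.TG.Tog3
import Pool.Agent.T6.H92.TG.Inv
import Pool.Agent.T6.H92.TG.Loc
import Pool.Agent.T6.H92.TG.Uni
import Pool.Agent.H739K.F2
import Pool.Agent.H739K.F3
import Pool.Agent.H739K.CONV

/-!
# Area and bounding box as observables
-/

set_option autoImplicit false

namespace Pool.Agent.T6.H92.TG

open Finset Pool.Agent.H976R2 Pool.Agent.H976R2.Lip Pool.Agent.H924P Pool.Agent.H739K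
  Pool.Agent.T6.H92.SP
open scoped Classical

noncomputable section

theorem tog : StmTog := tog3 loc uni inv

/-- the signs -/
def SG (w : List Dir) (c : ℤ × ℤ) : ℝ :=
  if IsB w c then (if EN w c then 1 else -1) else (if EN w c then -1 else 1)

theorem SG_abs (w : List Dir) (c : ℤ × ℤ) : |SG w c| ≤ 1 := by
  unfold SG
  split_ifs <;> simp

theorem sgnR (are : StmAre) (R : Finset (ℤ × ℤ)) (hR : Sep R) :
    Sgn (fun n => KK (2 * n + 1)) (FL R) (BU R) UP (fun w => (ar w : ℝ)) SG where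
  up_A := by
    intro n w hw c hc
    obtain ⟨hl, hs, hq⟩ := mem_KK.1 hw
    obtain ⟨hcR, hin, hF⟩ := mem_FL.1 hc
    obtain ⟨i, e, hadm, hce, hup⟩ := UP_spec hF
    have h1 := loc w i e hs hadm
    rw [hce] at h1
    rw [hup, (are w i e hs hq hadm).2.2, hce]
    unfold SG
    rw [if_neg h1.1]
  up_σ := by
    intro n w hw c hc d hd
    obtain ⟨hl, hs, hq⟩ := mem_KK.1 hw
    obtain ⟨hcR, hin, hF⟩ := mem_FL.1 hc
    obtain ⟨i, e, hadm, hce, hup⟩ := UP_spec hF
    have h1 := loc w i e hs hadm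
    have h2 := are w i e hs hq hadm
    rw [hce] at h1 h2
    obtain ⟨l1, l2, l3, l4, l5⟩ := h1
    obtain ⟨a1, a2, a3⟩ := h2
    rw [hup]
    by_cases hdc : d = c
    · rw [hdc]
      unfold SG
      have hB : IsB (ins w i e) c := ⟨i, l2, l3⟩
      rw [if_pos hB, if_neg l1]
      by_cases hE : EN w c
      · rw [if_pos hE, if_neg (fun h => a1.1 h hE)]
      · rw [if_neg hE, if_pos (a1.2 hE)]
    · have hdR : d ∈ R := by
        rcases (@Finset.mem_union (ℤ × ℤ) (fun a b => Classical.propDecidable (a = b)) _ _ _).1 hd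
          with h | h
        · exact (mem_FL.1 h).1
        · exact (mem_BU.1 h).1
      have ht := hR c hcR d hdR (fun h => hdc h.symm)
      have l6 := l5 d ht
      have a4 := a2 d hdc
      unfold SG
      rw [if_congr l6.2 (if_congr a4 rfl rfl) (if_congr a4 rfl rfl)]

theorem bx_inv (bxi : StmBxi) (R : Finset (ℤ × ℤ)) :
    Inv (fun n => KK (2 * n + 1)) (FL R) UP (fun w => (bx w : ℝ)) := by
  intro n w hw c hc
  obtain ⟨hl, hs, hq⟩ := mem_KK.1 hw
  obtain ⟨hcR, hin, hF⟩ := mem_FL.1 hc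
  obtain ⟨i, e, hadm, hce, hup⟩ := UP_spec hF
  simp only
  rw [hup, bxi w i e hs hadm (by rw [hce]; exact hin)]

theorem card_FL (R : Finset (ℤ × ℤ)) (w : List Dir) : (FL R w).card ≤ 2 * w.length := by
  have h1 : FL R w ⊆ (adm w).image (fun p => acell w p.1 p.2) := by
    intro c hc
    obtain ⟨_, _, p, hp, hpc⟩ := mem_FL.1 hc
    exact mem_image.2 ⟨p, hp, hpc⟩
  exact (Finset.card_le_card h1).trans (Finset.card_image_le.trans (AA_le w))

theorem card_BU (R : Finset (ℤ × ℤ)) (w : List Dir) : (BU R w).card ≤ w.length := by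
  have h1 : BU R w ⊆ (bumps w).image (fun i => bcell w i) := by
    intro c hc
    obtain ⟨_, _, i, hi, hic⟩ := mem_BU.1 hc
    exact mem_image.2 ⟨i, hi, hic⟩
  refine (Finset.card_le_card h1).trans (Finset.card_image_le.trans ?_)
  have h2 : bumps w ⊆ range w.length := by
    unfold bumps
    exact Finset.filter_subset _ _
  exact (Finset.card_le_card h2).trans (by simp)

theorem ar_bd {n : ℕ} (hn : 1 ≤ n) {w : List Dir} (hw : w ∈ KK (2 * n + 1)) :
    |(ar w : ℝ)| ≤ 64 * (n : ℝ) ^ 2 := by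
  obtain ⟨hl, hs, hq⟩ := mem_KK.1 hw
  have h3 : 3 ≤ w.length := by omega
  have hlo := F2aux.loop_of CONV_proof h3 hs hq
  have h4 : ar w ≤ (2 * (w.length + 1)) ^ 2 := by
    have : NeZero (w.length + 1) := ⟨by omega⟩
    exact all_area hlo
  have h5 : ar w ≤ 64 * n ^ 2 := by
    refine h4.trans ?_
    rw [hl]
    nlinarith
  rw [abs_of_nonneg (Nat.cast_nonneg _)]
  exact_mod_cast h5

theorem bx_bd {n : ℕ} (hn : 1 ≤ n) {w : List Dir} (hw : w ∈ KK (2 * n + 1)) :
    |(bx w : ℝ)| ≤ 64 * (n : ℝ) ^ 2 ∧ 1 ≤ (bx w : ℝ) := by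
  obtain ⟨hl, hs, hq⟩ := mem_KK.1 hw
  have h1 := F3x.bx_le w
  have h2 := F3x.bx_pos w (by omega)
  have h3 : bx w ≤ 64 * n ^ 2 := by
    refine h1.trans ?_
    rw [hl]
    nlinarith
  rw [abs_of_nonneg (Nat.cast_nonneg _)]
  exact ⟨by exact_mod_cast h3, by exact_mod_cast h2⟩

end

end Pool.Agent.T6.H92.TG
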