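import Pool.Agent.T6.H92.TG.Core0

/-!
# The mean differences of observables
-/

set_option autoImplicit false

namespace Pool.Agent.T6.H92.TG

open Finset
open scoped Classical

noncomputable section

variable {α ι : Type} {K : ℕ → Finset α} {Fl Bu : α → Finset ι} {up dn : α → ι → α}

theorem VV_succ (φ : α → ℝ) (j : ℕ) (w : α) :
    VV Fl up φ (j + 1) w = UU Fl up (VV Fl up φ j) w - VV Fl up φ j w := rfl

/-- averages of constants -/
theorem UU_const {φ : α → ℝ} {w : α} (h0 : 0 < (Fl w).card) {a : ℝ} (h : ∀ c ∈ Fl w, φ (up w c) = a) :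
    UU Fl up φ w = a := by
  unfold UU
  have h1 : ((Fl w).card : ℝ) ≠ 0 := by positivity
  rw [Finset.sum_congr rfl h, Finset.sum_const, nsmul_eq_mul]
  field_simp

/-- if the difference of order `j` vanishes, so do the higher ones -/
theorem VV_zero (T : Tog K Fl Bu up dn) (φ : α → ℝ) (j₀ m : ℕ)
    (h : ∀ n, ∀ w ∈ K n, m ≤ (Fl w).card → VV Fl up φ j₀ w = 0) (i : ℕ) :
    ∀ n, ∀ w ∈ K n, m + i ≤ (Fl w).card → VV Fl up φ (j₀ + i) w = 0 := by
  induction i with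
  | zero => intro n w hw hf; exact h n w hw hf
  | succ i ih =>
    intro n w hw hf
    rw [← Nat.add_assoc, VV_succ, ih n w hw (by omega), sub_zero]
    apply UU_const (by omega)
    intro c hc
    apply ih (n + 1) _ (T.up_mem n w hw c hc)
    rw [card_up_fl T hw hc]
    omega

/-- invariant observables -/
theorem VV_inv (T : Tog K Fl Bu up dn) {φ : α → ℝ} (h : Inv K Fl up φ) :
    ∀ n, ∀ w ∈ K n, 1 ≤ (Fl w).card → VV Fl up φ 1 w = 0 := by
  intro n w hw hf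
  show UU Fl up φ w - φ w = 0
  rw [UU_const (by omega) (fun c hc => h n w hw c hc), sub_self]

theorem VV_one {A : α → ℝ} {σ : α → ι → ℝ} (S : Sgn K Fl Bu up A σ) :
    ∀ n, ∀ w ∈ K n, 1 ≤ (Fl w).card → VV Fl up A 1 w = (∑ c ∈ Fl w, σ w c) / (Fl w).card := by
  intro n w hw hf
  have h1 : ((Fl w).card : ℝ) ≠ 0 := by positivity
  show UU Fl up A w - A w = _
  unfold UU
  rw [Finset.sum_congr rfl (fun c hc => S.up_A n w hw c hc), Finset.sum_add_distrib,
    Finset.sum_const, nsmul_eq_mul]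
  field_simp
  ring

theorem VV_two (T : Tog K Fl Bu up dn) {A : α → ℝ} {σ : α → ι → ℝ} (S : Sgn K Fl Bu up A σ) :
    ∀ n, ∀ w ∈ K n, 2 ≤ (Fl w).card → VV Fl up A 2 w = 0 := by
  intro n w hw hf
  have h1 : ((Fl w).card : ℝ) ≠ 0 := by positivity
  have hf1 : (((Fl w).card : ℝ) - 1) ≠ 0 := by
    have : (2 : ℝ) ≤ (Fl w).card := by exact_mod_cast hf
    linarith
  show UU Fl up (VV Fl up A 1) w - VV Fl up A 1 w = 0
  rw [VV_one S n w hw (by omega)]
  have h2 : ∀ c ∈ Fl w, VV Fl up A 1 (up w c) =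
      ((∑ d ∈ Fl w, σ w d) - σ w c) / ((Fl w).card - 1) := by
    intro c hc
    have h3 := card_up_fl T hw hc
    rw [VV_one S (n + 1) _ (T.up_mem n w hw c hc) (by omega), h3, T.up_fl n w hw c hc]
    have h4 : ∑ d ∈ (Fl w).erase c, σ (up w c) d = ∑ d ∈ (Fl w).erase c, σ w d :=
      Finset.sum_congr rfl fun d hd =>
        S.up_σ n w hw c hc d (mem_union_left _ (mem_of_mem_erase hd))
    rw [h4, ← Finset.add_sum_erase _ _ hc]
    have h5 : (((Fl w).card - 1 : ℕ) : ℝ) = (Fl w).card - 1 := by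
      rw [Nat.cast_sub (by omega)]; simp
    rw [h5]
    congr 1
    ring
  unfold UU
  rw [Finset.sum_congr rfl h2, ← Finset.sum_div, Finset.sum_sub_distrib, Finset.sum_const, nsmul_eq_mul]
  field_simp
  ring

theorem VV_one_le {A : α → ℝ} {σ : α → ι → ℝ} (S : Sgn K Fl Bu up A σ) (hσ : ∀ w c, |σ w c| ≤ 1) :
    ∀ n, ∀ w ∈ K n, 1 ≤ (Fl w).card → |VV Fl up A 1 w| ≤ 1 := by
  intro n w hw hf
  have h1 : (0 : ℝ) < ((Fl w).card : ℝ) := by positivity
  rw [VV_one S n w hw hf, abs_div, abs_of_pos h1, div_le_iff₀ h1]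
  calc |∑ c ∈ Fl w, σ w c| ≤ ∑ c ∈ Fl w, |σ w c| := Finset.abs_sum_le_sum_abs _ _
    _ ≤ ∑ c ∈ Fl w, 1 := Finset.sum_le_sum fun c _ => hσ w c
    _ = 1 * (Fl w).card := by rw [Finset.sum_const, nsmul_eq_mul]; ring

/-- the hypothesis of the main estimate for invariant observables -/
theorem hV_inv (T : Tog K Fl Bu up dn) {φ : α → ℝ} (h : Inv K Fl up φ) (h0 : ∀ n, ∀ w ∈ K n, 0 ≤ φ w)
    {M : ℝ} (hM : 1 ≤ M) (k N : ℕ) :
    ∀ j ≤ k, ∀ w ∈ K N, k ≤ (Fl w).card → |VV Fl up φ j w| ≤ M * φ w / N ^ j := by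
  intro j hj w hw hf
  have hφ := h0 N w hw
  rcases Nat.eq_zero_or_pos j with rfl | hj0
  · rw [pow_zero, div_one]
    show |φ w| ≤ _
    rw [abs_of_nonneg hφ]
    nlinarith
  · obtain ⟨i, rfl⟩ := Nat.exists_eq_add_of_le hj0
    rw [VV_zero T φ 1 1 (VV_inv T h) i N w hw (by omega), abs_zero]
    positivity

/-- the hypothesis of the main estimate for observables which change by a sign -/
theorem hV_sgn (T : Tog K Fl Bu up dn) {A : α → ℝ} {σ : α → ι → ℝ} (S : Sgn K Fl Bu up A σ)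
    (hσ : ∀ w c, |σ w c| ≤ 1) (h0 : ∀ n, ∀ w ∈ K n, 0 ≤ A w)
    {M : ℝ} (hM : 1 ≤ M) (k N : ℕ) (hN : 1 ≤ N) :
    ∀ j ≤ k, ∀ w ∈ K N, k ≤ (Fl w).card → |VV Fl up A j w| ≤ M * (A w + N) / N ^ j := by
  intro j hj w hw hf
  have hA := h0 N w hw
  have hNr : (1 : ℝ) ≤ N := by exact_mod_cast hN
  have hN0 : (0 : ℝ) < N := by linarith
  rcases Nat.lt_or_ge j 2 with h2 | h2
  · have h3 : j = 0 ∨ j = 1 := by omega
    rcases h3 with rfl | rfl
    · rw [pow_zero, div_one]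
      show |A w| ≤ _
      rw [abs_of_nonneg hA]
      nlinarith
    · rw [pow_one]
      refine (VV_one_le S hσ N w hw (by omega)).trans ?_
      rw [le_div_iff₀ hN0]
      nlinarith
  · obtain ⟨i, rfl⟩ := Nat.exists_eq_add_of_le h2
    rw [VV_zero T A 2 2 (VV_two T S) i N w hw (by omega), abs_zero]
    positivity

end

end Pool.Agent.T6.H92.TG
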