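import Pool.Agent.T6.H92.TG.Defs3
import Pool.Agent.T6.H92.TG.Core0

/-!
# All-order smoothness: module TAY, Newton expansion
-/

set_option autoImplicit false

namespace Pool.Agent.T6.H92.TG

open Finset
open scoped Classical

namespace ModTAY

/-- the remainder -/
noncomputable def rem (k : ℕ) (u : ℕ → ℝ) (n h : ℕ) : ℝ :=
  u (n + h) - ∑ j ∈ range k, (h.choose j : ℝ) * D j u n

theorem rem_zero (k : ℕ) (u : ℕ → ℝ) (n : ℕ) : rem (k + 1) u n 0 = 0 := by
  unfold rem
  rw [Finset.sum_range_succ']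
  simp [Nat.choose_zero_succ, D]

theorem rem_succ (k : ℕ) (u : ℕ → ℝ) (n h : ℕ) :
    rem (k + 1) u n (h + 1) = rem (k + 1) u n h + rem k (fun i => u (i + 1) - u i) n h := by
  unfold rem
  rw [Finset.sum_range_succ', Finset.sum_range_succ']
  have e : ∀ j ∈ range k, (((h + 1).choose (j + 1) : ℕ) : ℝ) * D (j + 1) u n =
      (h.choose (j + 1) : ℝ) * D (j + 1) u n +
        (h.choose j : ℝ) * D j (fun i => u (i + 1) - u i) n := by
    intro j _
    rw [Nat.choose_succ_succ, ← D_succ']
    push_cast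
    ring
  rw [Finset.sum_congr rfl e, Finset.sum_add_distrib]
  simp only [Nat.choose_zero_right]
  rw [show n + (h + 1) = n + h + 1 by ring]
  ring

theorem rem_le (k : ℕ) : ∀ (u : ℕ → ℝ) (n : ℕ) (M : ℝ) (h : ℕ), 0 ≤ M →
    (∀ i ≤ h, |D k u (n + i)| ≤ M) → |rem k u n h| ≤ (h : ℝ) ^ k * M := by
  induction k with
  | zero =>
    intro u n M h _ hM
    have := hM h le_rfl
    unfold rem
    simpa [D] using this
  | succ k ih =>
    intro u n M h hM0 hM
    induction h with
    | zero =>
      rw [rem_zero, abs_zero]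
      positivity
    | succ h ihh =>
      rw [rem_succ]
      have h1 := ihh (fun i hi => hM i (by omega))
      have h2 := ih (fun i => u (i + 1) - u i) n M h hM0 (fun i hi => by
        rw [← D_succ']; exact hM i (by omega))
      have h3 : (h : ℝ) ^ k ≤ ((h : ℝ) + 1) ^ k :=
        pow_le_pow_left₀ (Nat.cast_nonneg h) (by linarith) k
      calc |rem (k + 1) u n h + rem k (fun i => u (i + 1) - u i) n h|
          ≤ |rem (k + 1) u n h| + |rem k (fun i => u (i + 1) - u i) n h| := abs_add_le _ _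
        _ ≤ (h : ℝ) ^ (k + 1) * M + (h : ℝ) ^ k * M := add_le_add h1 h2
        _ = (h : ℝ) ^ k * ((h : ℝ) + 1) * M := by ring
        _ ≤ ((h : ℝ) + 1) ^ k * ((h : ℝ) + 1) * M := by gcongr
        _ = ((h + 1 : ℕ) : ℝ) ^ (k + 1) * M := by push_cast; ring

theorem h_le {n h : ℕ} (hn : 2 ≤ n) (hh : h * Real.log n ≤ Real.sqrt n) : (h : ℝ) ≤ 2 * n := by
  have hn' : (2 : ℝ) ≤ n := by exact_mod_cast hn
  have h1 : (1 : ℝ) / 2 ≤ Real.log n := by
    have h2 : Real.log 2 ≤ Real.log n := Real.log_le_log (by norm_num) hn'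
    have h3 := Real.log_two_gt_d9
    linarith
  have h4 : Real.sqrt n ≤ n := by
    rw [Real.sqrt_le_left (by linarith)]
    nlinarith
  have h5 : (h : ℝ) * (1 / 2) ≤ h * Real.log n := mul_le_mul_of_nonneg_left h1 (Nat.cast_nonneg h)
  linarith

theorem ep_nonneg' {n : ℕ} (hn : 2 ≤ n) : 0 ≤ ep n := by
  have hn' : (2 : ℝ) ≤ n := by exact_mod_cast hn
  unfold ep
  exact div_nonneg (Real.log_nonneg (by linarith)) (Real.sqrt_nonneg _)

theorem ep_le {n h i : ℕ} (hn : 2 ≤ n) (hh : h * Real.log n ≤ Real.sqrt n) (hi : i ≤ h) :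
    ep (n + i) ≤ 3 * ep n := by
  have hn' : (2 : ℝ) ≤ n := by exact_mod_cast hn
  have hi' : (i : ℝ) ≤ h := by exact_mod_cast hi
  have h1 := h_le hn hh
  have hlog : 0 ≤ Real.log n := Real.log_nonneg (by linarith)
  unfold ep
  push_cast
  have h2 : Real.log ((n : ℝ) + i) ≤ 3 * Real.log n := by
    have h3 : (n : ℝ) + i ≤ (n : ℝ) ^ 3 := by
      have : (n : ℝ) ^ 3 = n * (n * n) := by ring
      rw [this]
      nlinarith
    have h4 := Real.log_le_log (by positivity) h3
    rw [Real.log_pow] at h4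
    exact_mod_cast h4
  have h5 : Real.sqrt n ≤ Real.sqrt ((n : ℝ) + i) :=
    Real.sqrt_le_sqrt (by linarith [(Nat.cast_nonneg i : (0 : ℝ) ≤ i)])
  have h6 : 0 < Real.sqrt n := Real.sqrt_pos.mpr (by linarith)
  rw [← mul_div_assoc]
  exact div_le_div₀ (by positivity) h2 h6 h5

end ModTAY

open ModTAY

theorem tay : StmTay := by
  intro u hu hD k
  obtain ⟨C, hC⟩ := hD k
  obtain ⟨C1, hC1⟩ := hD 1
  refine ⟨|C| * 3 ^ k * Real.exp (3 * |C1|), fun n h hn hh => ?_⟩
  have hn' : (2 : ℝ) ≤ n := by exact_mod_cast hn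
  have hun := hu n hn
  have hep := ep_nonneg' hn
  have hhep : h * ep n ≤ 1 := by
    unfold ep
    rw [← mul_div_assoc, div_le_one (Real.sqrt_pos.mpr (by linarith))]
    exact hh
  -- growth
  have hgr : ∀ i ≤ h, u (n + i) ≤ Real.exp (3 * |C1| * (i * ep n)) * u n := by
    intro i
    induction i with
    | zero => intro _; simp
    | succ i ih =>
      intro hi
      have h1 := ih (by omega)
      have h2 := hC1 (n + i) (by omega)
      have h3 : D 1 u (n + i) = u (n + i + 1) - u (n + i) := rfl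
      rw [h3] at h2
      have h4 := le_abs_self (u (n + i + 1) - u (n + i))
      have h5 := ep_le hn hh (show i ≤ h by omega)
      have hui := hu (n + i) (by omega)
      have hepi := ep_nonneg' (show 2 ≤ n + i by omega)
      have h6 : C1 * (ep (n + i) ^ 1 * u (n + i)) ≤ |C1| * (3 * ep n * u (n + i)) := by
        rw [pow_one]
        refine mul_le_mul (le_abs_self _) ?_ (by positivity) (abs_nonneg _)
        exact mul_le_mul_of_nonneg_right h5 hui.le
      have h7 : u (n + (i + 1)) ≤ (1 + 3 * |C1| * ep n) * u (n + i) := by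
        rw [show n + (i + 1) = n + i + 1 by ring]
        nlinarith
      have h8 : 1 + 3 * |C1| * ep n ≤ Real.exp (3 * |C1| * ep n) := by
        have := Real.add_one_le_exp (3 * |C1| * ep n)
        linarith
      calc u (n + (i + 1)) ≤ (1 + 3 * |C1| * ep n) * u (n + i) := h7
        _ ≤ Real.exp (3 * |C1| * ep n) * (Real.exp (3 * |C1| * (i * ep n)) * u n) :=
            mul_le_mul h8 h1 hui.le (Real.exp_pos _).le
        _ = Real.exp (3 * |C1| * (((i + 1 : ℕ) : ℝ) * ep n)) * u n := by
            rw [← mul_assoc, ← Real.exp_add]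
            congr 2
            push_cast
            ring
  have hgr' : ∀ i ≤ h, u (n + i) ≤ Real.exp (3 * |C1|) * u n := by
    intro i hi
    refine (hgr i hi).trans (mul_le_mul_of_nonneg_right ?_ hun.le)
    apply Real.exp_le_exp.mpr
    have h1 : (i : ℝ) * ep n ≤ h * ep n :=
      mul_le_mul_of_nonneg_right (by exact_mod_cast hi) hep
    have h2 : (i : ℝ) * ep n ≤ 1 := h1.trans hhep
    have h3 : 0 ≤ 3 * |C1| := by positivity
    nlinarith
  have hM : ∀ i ≤ h, |D k u (n + i)| ≤ |C| * 3 ^ k * Real.exp (3 * |C1|) * (ep n ^ k * u n) := by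
    intro i hi
    have h1 := hC (n + i) (by omega)
    have hui := hu (n + i) (by omega)
    have hepi := ep_nonneg' (show 2 ≤ n + i by omega)
    have h2 := ep_le hn hh hi
    have h3 : ep (n + i) ^ k ≤ (3 * ep n) ^ k := pow_le_pow_left₀ hepi h2 k
    have h4 : C * (ep (n + i) ^ k * u (n + i)) ≤
        |C| * ((3 * ep n) ^ k * (Real.exp (3 * |C1|) * u n)) := by
      refine mul_le_mul (le_abs_self _) ?_ (by positivity) (abs_nonneg _)
      exact mul_le_mul h3 (hgr' i hi) hui.le (by positivity)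
    refine h1.trans (h4.trans (le_of_eq ?_))
    rw [mul_pow]
    ring
  have h1 := rem_le k u n _ h (by positivity) hM
  refine h1.trans (le_of_eq ?_)
  rw [mul_pow]
  ring

end Pool.Agent.T6.H92.TG
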