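import Pool.Agent.T6.H92.TG.Fin3
import Pool.Agent.T6.H92.TG.Are
import Pool.Agent.T6.H92.TG.Bxi
import Pool.Agent.T6.H92.TG.Inn
import Pool.Agent.T6.H92.TG.Bxt
import Pool.Agent.T6.H92.TG.Maj
import Pool.Agent.T6.H92.TG.FewM
import Pool.Agent.T6.H92.TG.EJ1
import Pool.Agent.T6.H92.TG.EJ2
import Pool.Agent.T6.H92.TG.Tay
import Pool.Agent.T6.H92.TG.Qul

/-!
# All-order smoothness: the unconditional statements
-/

set_option autoImplicit false

namespace Pool.Agent.T6.H92.TG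

open Finset Pool.Agent.H739K

noncomputable section

theorem hR : StmR := selR (fewI inn_few bxt)

theorem area_all (k : ℕ) : ∃ C : ℝ, ∀ n : ℕ, 2 ≤ n → |D k MA n| ≤ C * (ep n ^ k * MA n) :=
  area_smooth hR are k

theorem width_all (k : ℕ) : ∃ C : ℝ, ∀ n : ℕ, 2 ≤ n → |D k MW n| ≤ C * (ep n ^ k * MW n) :=
  width_smooth hR bxi k

theorem moment_all (r k : ℕ) : ∃ C : ℝ, ∀ n : ℕ, 2 ≤ n → |D k (MR r) n| ≤ C * (ep n ^ k * MR r n) :=
  moment_smooth hR are maj fewm ej1 r k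

theorem area_tay (k : ℕ) : ∃ C : ℝ, ∀ n h : ℕ, 2 ≤ n → h * Real.log n ≤ Real.sqrt n →
    |MA (n + h) - ∑ j ∈ range k, (h.choose j : ℝ) * D j MA n| ≤ C * ((h * ep n) ^ k * MA n) :=
  tay MA (fun n hn => MA_pos hn) area_all k

theorem width_tay (k : ℕ) : ∃ C : ℝ, ∀ n h : ℕ, 2 ≤ n → h * Real.log n ≤ Real.sqrt n →
    |MW (n + h) - ∑ j ∈ range k, (h.choose j : ℝ) * D j MW n| ≤ C * ((h * ep n) ^ k * MW n) :=
  tay MW (fun n hn => MW_pos hn) width_all k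

/-- combination of two constants -/
theorem two_consts {P Q : ℕ → ℕ → Prop} {x y : ℕ → ℕ → ℝ} {a b : ℕ → ℕ → ℝ}
    (ha : ∀ n h, P n h → 0 ≤ a n h) (hb : ∀ n h, Q n h → 0 ≤ b n h)
    (h1 : ∃ C : ℝ, ∀ n h, P n h → |x n h| ≤ C * a n h)
    (h2 : ∃ C : ℝ, ∀ n h, Q n h → |y n h| ≤ C * b n h) :
    ∃ C : ℝ, (∀ n h, P n h → |x n h| ≤ C * a n h) ∧ ∀ n h, Q n h → |y n h| ≤ C * b n h := by
  obtain ⟨C1, h1⟩ := h1
  obtain ⟨C2, h2⟩ := h2
  refine ⟨|C1| + |C2|, fun n h hP => (h1 n h hP).trans ?_, fun n h hQ => (h2 n h hQ).trans ?_⟩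
  · apply mul_le_mul_of_nonneg_right _ (ha n h hP)
    have := le_abs_self C1
    have := abs_nonneg C2
    linarith
  · apply mul_le_mul_of_nonneg_right _ (hb n h hQ)
    have := le_abs_self C2
    have := abs_nonneg C1
    linarith

/-- the two statements for a positive sequence -/
theorem both (u : ℕ → ℝ) (hu : ∀ n, 2 ≤ n → 0 < u n)
    (h : ∀ k : ℕ, ∃ C : ℝ, ∀ n : ℕ, 2 ≤ n → |D k u n| ≤ C * (ep n ^ k * u n)) (k : ℕ) :
    ∃ C : ℝ, (∀ n : ℕ, 2 ≤ n → |D k u n| ≤ C * (ep n ^ k * u n)) ∧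
      ∀ n h : ℕ, 2 ≤ n → h * Real.log n ≤ Real.sqrt n →
        |u (n + h) - ∑ j ∈ range k, (h.choose j : ℝ) * D j u n| ≤ C * ((h * ep n) ^ k * u n) := by
  obtain ⟨C1, h1⟩ := h k
  obtain ⟨C2, h2⟩ := tay u hu h k
  refine ⟨|C1| + |C2|, fun n hn => (h1 n hn).trans ?_, fun n m hn hm => (h2 n m hn hm).trans ?_⟩
  · have hp := ep_pos hn
    have := hu n hn
    apply mul_le_mul_of_nonneg_right _ (by positivity)
    have := le_abs_self C1
    have := abs_nonneg C2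
    linarith
  · have hp := ep_pos hn
    have := hu n hn
    apply mul_le_mul_of_nonneg_right _ (by positivity)
    have := le_abs_self C2
    have := abs_nonneg C1
    linarith

end

end Pool.Agent.T6.H92.TG
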