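import Pool.Agent.T6.H92.TG.Out

/-!
# Products of smooth sequences, normalised moments
-/

set_option autoImplicit false

namespace Pool.Agent.T6.H92.TG

open Finset Pool.Agent.H739K

noncomputable section

/-- positive sequences which are smooth of all orders -/
def Smooth (u : ℕ → ℝ) : Prop := (∀ n, 2 ≤ n → 0 < u n) ∧
  ∀ k : ℕ, ∃ C : ℝ, ∀ n : ℕ, 2 ≤ n → |D k u n| ≤ C * (ep n ^ k * u n)

theorem smooth_ta {u : ℕ → ℝ} (h : Smooth u) : ModQuo.Ta u := by
  obtain ⟨C, hC⟩ := h.2 1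
  refine ⟨h.1, 1 + |C| * 2, fun n hn => ?_⟩
  have h1 := hC n hn
  have h2 : D 1 u n = u (n + 1) - u n := rfl
  rw [h2, pow_one] at h1
  have h3 := ModQuo.ep_le hn
  have h4 := ep_pos hn
  have h5 := h.1 n hn
  have h6 : C * (ep n * u n) ≤ |C| * (2 * u n) := by
    calc C * (ep n * u n) ≤ |C| * (ep n * u n) :=
          mul_le_mul_of_nonneg_right (le_abs_self C) (by positivity)
      _ ≤ _ := by gcongr
  have h7 := (abs_le.1 h1).2
  linarith

theorem smooth_mul {u v : ℕ → ℝ} (hu : Smooth u) (hv : Smooth v) : Smooth (fun n => u n * v n) :=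
  ⟨fun n hn => mul_pos (hu.1 n hn) (hv.1 n hn), fun k =>
    ModQuo.B_mul k u v u v (smooth_ta hu) (smooth_ta hv) (fun j _ => hu.2 j) (fun j _ => hv.2 j)⟩

theorem smooth_one : Smooth (fun _ => 1) := by
  refine ⟨fun _ _ => one_pos, fun k => ?_⟩
  rcases Nat.eq_zero_or_pos k with rfl | hk
  · exact ⟨1, fun n _ => by simp [D]⟩
  · refine ⟨0, fun n _ => ?_⟩
    obtain ⟨k, rfl⟩ : ∃ j, k = j + 1 := ⟨k - 1, by omega⟩
    rw [D_succ', sub_self]
    have h : ∀ (j l : ℕ), D j (fun _ => (0 : ℝ)) l = 0 := by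
      intro j
      induction j with
      | zero => intro l; rfl
      | succ j ih => intro l; rw [D_succ, ih, ih, sub_self]
    rw [h]
    simp

theorem smooth_pow {u : ℕ → ℝ} (hu : Smooth u) (r : ℕ) : Smooth (fun n => u n ^ r) := by
  induction r with
  | zero =>
    simp only [pow_zero]
    exact smooth_one
  | succ r ih =>
    simp only [pow_succ]
    exact smooth_mul ih hu

theorem smooth_div {u v : ℕ → ℝ} (hu : Smooth u) (hv : Smooth v) : Smooth (fun n => u n / v n) := by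
  refine ⟨fun n hn => div_pos (hu.1 n hn) (hv.1 n hn), ?_⟩
  apply quo (fun n => u n / v n) v (fun n hn => div_pos (hu.1 n hn) (hv.1 n hn)) hv.1 hv.2
  intro k
  obtain ⟨C, hC⟩ := hu.2 k
  refine ⟨C, fun n hn => ?_⟩
  have e : ∀ m, 2 ≤ m → u m / v m * v m = u m := fun m hm => div_mul_cancel₀ _ (hv.1 m hm).ne'
  have e1 : D k (fun m => u m / v m * v m) n = D k u n := by
    apply D_congr
    intro i hi _
    exact e i (by omega)
  rw [e1, e n hn]
  exact hC n hn

theorem MA_Smooth : Smooth MA := ⟨fun n hn => MA_pos hn, area_all⟩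

theorem MR_Smooth (r : ℕ) : Smooth (MR r) := ⟨fun n hn => MR_pos r hn, moment_all r⟩

/-- normalised moments -/
theorem mr_Smooth (r : ℕ) : Smooth (fun n => MR r n / MA n ^ r) :=
  smooth_div (MR_Smooth r) (smooth_pow MA_Smooth r)

theorem fun_all (k : ℕ) : ∃ C : ℝ, ∀ n : ℕ, 2 ≤ n → ∀ (g : ℝ → ℝ) (a : ℝ), ContDiff ℝ k g →
      (∀ j ≤ k, ∀ y, |iteratedDeriv j g y| ≤ 1) → (n : ℝ) ≤ a →
      |D k (fun m => me m (fun f => g ((Pool.Agent.H924P.area (2 * m) f : ℝ) / a))) n| ≤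
        C * ep n ^ k :=
  fun_smooth hR are maj fewm ej2 qul k

end

end Pool.Agent.T6.H92.TG
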