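import Pool.Agent.T6.H92.TG.Sys

/-!
# Gaussian tails for the balance of bumps and flat cells
-/

set_option autoImplicit false

namespace Pool.Agent.T6.H92.TG

open Finset
open scoped Classical

noncomputable section

theorem exp_half {y : ℝ} (h0 : 0 ≤ y) (h1 : y ≤ 1 / 2) : Real.exp y ≤ 1 + 2 * y := by
  have h2 := Real.add_one_le_exp (-y)
  have h3 : 0 < Real.exp (-y) := Real.exp_pos _
  have h4 : Real.exp y = 1 / Real.exp (-y) := by rw [Real.exp_neg]; simp
  rw [h4, div_le_iff₀ h3]
  nlinarith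

/-- one factor -/
theorem factor {B t p q : ℝ} (hB : 1 ≤ B) (ht0 : 0 ≤ t) (htB : t ≤ B) (hq : 0 < q) (hqB : q ≤ 3 * B)
    (h : t / 2 ≤ p - q) : Real.exp (t / (12 * B)) ≤ p / q := by
  have hB0 : 0 < B := by linarith
  have h1 : Real.exp (t / (12 * B)) ≤ 1 + 2 * (t / (12 * B)) := by
    apply exp_half (by positivity)
    rw [div_le_iff₀ (by positivity)]
    nlinarith
  refine h1.trans ?_
  rw [le_div_iff₀ hq]
  have h2 : 2 * (t / (12 * B)) = t / (6 * B) := by field_simp; ring
  rw [h2]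
  have h3 : t / (6 * B) * q ≤ t / 2 := by
    rw [div_mul_eq_mul_div, div_le_iff₀ (by positivity)]
    nlinarith
  linarith

theorem prod_ge {i : ℕ} {u : ℕ → ℝ} {s : ℝ} (h : ∀ l < i, Real.exp s ≤ u l) :
    Real.exp (i * s) ≤ ∏ l ∈ range i, u l := by
  rw [Real.exp_nat_mul, ← Finset.card_range i, ← Finset.prod_const, Finset.card_range]
  apply Finset.prod_le_prod
  · intro l _
    exact (Real.exp_pos _).le
  · intro l hl
    exact h l (mem_range.1 hl)

theorem rho_big {z : ℝ} (hz0 : 0 < z) (hz1 : z ≤ 1) {B f b : ℕ} (hB : 1 ≤ B) (hf : f ≤ B)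
    (hb : b ≤ B) {t : ℝ} (ht : 16 ≤ t) (hX : t ≤ z * f - b) {i : ℕ} (hi : (i : ℝ) ≤ t / 8)
    (hi2 : t / 16 ≤ i) : Real.exp (t ^ 2 / (192 * B)) ≤ z ^ i * rho i f b := by
  have hBr : (1 : ℝ) ≤ B := by exact_mod_cast hB
  have hfr : (f : ℝ) ≤ B := by exact_mod_cast hf
  have hbr : (b : ℝ) ≤ B := by exact_mod_cast hb
  have hb0 : (0 : ℝ) ≤ b := Nat.cast_nonneg b
  have hf0 : (0 : ℝ) ≤ f := Nat.cast_nonneg f
  have hzf : z * f ≤ f := by nlinarith
  have htB : t ≤ B := by linarith
  have h1 : z ^ i * rho i f b = ∏ l ∈ range i, (z * ((f - l : ℕ) : ℝ) / ((b : ℝ) + 1 + l)) := by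
    unfold rho
    rw [← Finset.card_range i, ← Finset.prod_const, Finset.card_range, ← Finset.prod_mul_distrib]
    refine Finset.prod_congr rfl fun l _ => ?_
    ring
  rw [h1]
  have h2 : ∀ l < i, Real.exp (t / (12 * B)) ≤ z * ((f - l : ℕ) : ℝ) / ((b : ℝ) + 1 + l) := by
    intro l hl
    have hlr : (l : ℝ) + 1 ≤ i := by exact_mod_cast hl
    have hl0 : (0 : ℝ) ≤ l := Nat.cast_nonneg l
    have hlf : l ≤ f := by
      have : (l : ℝ) ≤ f := by linarith
      exact_mod_cast this
    rw [Nat.cast_sub hlf]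
    apply factor hBr (by linarith) htB (by positivity)
    · linarith
    · have : z * l ≤ l := by nlinarith
      have e : z * ((f : ℝ) - l) = z * f - z * l := by ring
      rw [e]
      linarith
  refine le_trans ?_ (prod_ge h2)
  apply Real.exp_le_exp.2
  rw [mul_div_assoc', div_le_div_iff₀ (by positivity) (by positivity)]
  have h3 : t * t / 16 ≤ i * t := by nlinarith
  have hB0 : (0 : ℝ) ≤ B := by linarith
  nlinarith

theorem rho_big' {z : ℝ} (hz0 : 0 < z) (hz1 : z ≤ 1) {B f b : ℕ} (hB : 1 ≤ B) (hf : f ≤ B)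
    (hb : b ≤ B) {t : ℝ} (ht : 16 ≤ t) (hX : z * f - b ≤ -t) {i : ℕ} (hi : (i : ℝ) ≤ t / 8)
    (hi2 : t / 16 ≤ i) : Real.exp (t ^ 2 / (192 * B)) ≤ z⁻¹ ^ i * rho i b f := by
  have hBr : (1 : ℝ) ≤ B := by exact_mod_cast hB
  have hfr : (f : ℝ) ≤ B := by exact_mod_cast hf
  have hbr : (b : ℝ) ≤ B := by exact_mod_cast hb
  have hb0 : (0 : ℝ) ≤ b := Nat.cast_nonneg b
  have hf0 : (0 : ℝ) ≤ f := Nat.cast_nonneg f
  have hzf : z * f ≤ f := by nlinarith
  have hzf0 : 0 ≤ z * f := by positivity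
  have htB : t ≤ B := by linarith
  have h1 : z⁻¹ ^ i * rho i b f = ∏ l ∈ range i, (((b - l : ℕ) : ℝ) / (z * ((f : ℝ) + 1 + l))) := by
    unfold rho
    rw [← Finset.card_range i, ← Finset.prod_const, Finset.card_range, ← Finset.prod_mul_distrib]
    refine Finset.prod_congr rfl fun l _ => ?_
    field_simp
  rw [h1]
  have h2 : ∀ l < i, Real.exp (t / (12 * B)) ≤ ((b - l : ℕ) : ℝ) / (z * ((f : ℝ) + 1 + l)) := by
    intro l hl
    have hlr : (l : ℝ) + 1 ≤ i := by exact_mod_cast hl
    have hl0 : (0 : ℝ) ≤ l := Nat.cast_nonneg l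
    have hlb : l ≤ b := by
      have : (l : ℝ) ≤ b := by linarith
      exact_mod_cast this
    rw [Nat.cast_sub hlb]
    have e : z * ((f : ℝ) + 1 + l) = z * f + z + z * l := by ring
    have hzl : z * l ≤ l := by nlinarith
    have hzl0 : 0 ≤ z * l := by positivity
    apply factor hBr (by linarith) htB (by positivity)
    · rw [e]; linarith
    · rw [e]; linarith
  refine le_trans ?_ (prod_ge h2)
  apply Real.exp_le_exp.2
  rw [mul_div_assoc', div_le_div_iff₀ (by positivity) (by positivity)]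
  have h3 : t * t / 16 ≤ i * t := by nlinarith
  have hB0 : (0 : ℝ) ≤ B := by linarith
  nlinarith

variable {α ι : Type} {K : ℕ → Finset α} {Fl Bu : α → Finset ι} {up dn : α → ι → α}

/-- **Gaussian tails.** -/
theorem tail (T : Tog K Fl Bu up dn) {z : ℝ} (hz0 : 0 < z) (hz1 : z ≤ 1) {N B : ℕ} (hB : 1 ≤ B)
    (hfb : ∀ w ∈ K N, (Fl w).card ≤ B ∧ (Bu w).card ≤ B ∧ (Bu w).card ≤ 8 * N)
    {Λ : ℝ} (hΛ : ∀ n ≤ N + B, z ^ n * ((K n).card : ℝ) ≤ Λ * (z ^ N * ((K N).card : ℝ)))
    {t : ℝ} (ht : 16 ≤ t) :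
    (((K N).filter (fun w => t ≤ |z * (Fl w).card - (Bu w).card|)).card : ℝ) ≤
      2 * Λ * Real.exp (-(t ^ 2 / (192 * B))) * ((K N).card : ℝ) := by
  have hinv : Inv K Fl up (fun _ => (1 : ℝ)) := fun _ _ _ _ _ => rfl
  have ht0 : 0 ≤ t / 8 := by linarith
  set i : ℕ := ⌊t / 8⌋₊ with hi
  have hi1 : (i : ℝ) ≤ t / 8 := Nat.floor_le ht0
  have hi2 : t / 16 ≤ i := by
    have := Nat.lt_floor_add_one (t / 8)
    rw [← hi] at this
    linarith
  have hzN : 0 < z ^ N := by positivity
  have hE : 0 < Real.exp (t ^ 2 / (192 * B)) := Real.exp_pos _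
  have hEi : Real.exp (-(t ^ 2 / (192 * B))) = 1 / Real.exp (t ^ 2 / (192 * B)) := by
    rw [Real.exp_neg]; simp
  -- upper tail
  have hU : (((K N).filter (fun w => t ≤ z * (Fl w).card - (Bu w).card)).card : ℝ) ≤
      Λ * Real.exp (-(t ^ 2 / (192 * B))) * ((K N).card : ℝ) := by
    by_cases hne : ((K N).filter (fun w => t ≤ z * (Fl w).card - (Bu w).card)).Nonempty
    · obtain ⟨w₀, hw₀⟩ := hne
      rw [mem_filter] at hw₀
      have hiB : i ≤ B := by
        have h1 := hfb w₀ hw₀.1
        have h2 : ((Fl w₀).card : ℝ) ≤ B := by exact_mod_cast h1.1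
        have h3 : (0 : ℝ) ≤ (Bu w₀).card := Nat.cast_nonneg _
        have h4 : z * ((Fl w₀).card : ℝ) ≤ (Fl w₀).card := by
          have : (0 : ℝ) ≤ (Fl w₀).card := Nat.cast_nonneg _
          nlinarith
        have h5 : (i : ℝ) ≤ B := by linarith [hw₀.2]
        exact_mod_cast h5
      have h1 := count_up T hinv N i (fun _ _ => 1)
      have h2 : ∑ w ∈ K N, rho i (Fl w).card (Bu w).card ≤ ((K (N + i)).card : ℝ) := by
        have h3 : ∑ w ∈ K N, rho i (Fl w).card (Bu w).card =
            ∑ w ∈ K N, (1 : ℝ) * (rho i (Fl w).card (Bu w).card * 1) := by simp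
        rw [h3, ← h1]
        calc ∑ w ∈ K (N + i), (if i ≤ (Bu w).card then (1 : ℝ) * 1 else 0) ≤
            ∑ w ∈ K (N + i), (1 : ℝ) := by
              refine Finset.sum_le_sum fun w _ => ?_
              split_ifs <;> norm_num
          _ = _ := by simp
      have h3 : (((K N).filter (fun w => t ≤ z * (Fl w).card - (Bu w).card)).card : ℝ) *
          Real.exp (t ^ 2 / (192 * B)) ≤ z ^ i * ((K (N + i)).card : ℝ) := by
        refine le_trans ?_ (mul_le_mul_of_nonneg_left h2 (by positivity))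
        rw [Finset.mul_sum]
        calc (((K N).filter (fun w => t ≤ z * (Fl w).card - (Bu w).card)).card : ℝ) *
            Real.exp (t ^ 2 / (192 * B)) =
            ∑ w ∈ (K N).filter (fun w => t ≤ z * (Fl w).card - (Bu w).card),
              Real.exp (t ^ 2 / (192 * B)) := by rw [Finset.sum_const, nsmul_eq_mul]
          _ ≤ ∑ w ∈ (K N).filter (fun w => t ≤ z * (Fl w).card - (Bu w).card),
              z ^ i * rho i (Fl w).card (Bu w).card := by
                refine Finset.sum_le_sum fun w hw => ?_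
                rw [mem_filter] at hw
                obtain ⟨g1, g2, _⟩ := hfb w hw.1
                exact rho_big hz0 hz1 hB g1 g2 ht hw.2 hi1 hi2
          _ ≤ _ := Finset.sum_le_sum_of_subset_of_nonneg (Finset.filter_subset _ _)
              (fun w _ _ => mul_nonneg (by positivity) (rho_nonneg _ _ _))
      have h4 := hΛ (N + i) (by omega)
      have h5 : z ^ (N + i) * ((K (N + i)).card : ℝ) = z ^ N * (z ^ i * ((K (N + i)).card : ℝ)) := by
        rw [pow_add]; ring
      rw [h5] at h4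
      have h6 : z ^ i * ((K (N + i)).card : ℝ) ≤ Λ * ((K N).card : ℝ) := by
        have : z ^ N * (z ^ i * ((K (N + i)).card : ℝ)) ≤ z ^ N * (Λ * ((K N).card : ℝ)) := by
          linarith
        exact le_of_mul_le_mul_left this hzN
      rw [hEi]
      have h7 := h3.trans h6
      rw [← le_div_iff₀ hE] at h7
      refine h7.trans (le_of_eq ?_)
      ring
    · rw [Finset.not_nonempty_iff_eq_empty] at hne
      rw [hne]
      have h4 := hΛ N (by omega)
      have h5 : 0 ≤ Λ * ((K N).card : ℝ) := by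
        have h6 : 0 ≤ z ^ N * ((K N).card : ℝ) := by positivity
        have h7 : 0 ≤ z ^ N * (Λ * ((K N).card : ℝ)) := by linarith
        exact nonneg_of_mul_nonneg_right h7 hzN
      have h8 : 0 < Real.exp (-(t ^ 2 / (192 * B))) := Real.exp_pos _
      simp only [Finset.card_empty, Nat.cast_zero]
      nlinarith
  -- lower tail
  have hL : (((K N).filter (fun w => z * (Fl w).card - (Bu w).card ≤ -t)).card : ℝ) ≤
      Λ * Real.exp (-(t ^ 2 / (192 * B))) * ((K N).card : ℝ) := by
    by_cases hne : ((K N).filter (fun w => z * (Fl w).card - (Bu w).card ≤ -t)).Nonempty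
    · obtain ⟨w₀, hw₀⟩ := hne
      rw [mem_filter] at hw₀
      have hiN : i ≤ N := by
        have h1 := hfb w₀ hw₀.1
        have h2 : ((Bu w₀).card : ℝ) ≤ 8 * N := by exact_mod_cast h1.2.2
        have h3 : (0 : ℝ) ≤ z * (Fl w₀).card := by positivity
        have h5 : (i : ℝ) ≤ N := by linarith [hw₀.2]
        exact_mod_cast h5
      obtain ⟨M, hM⟩ := Nat.exists_eq_add_of_le' hiN
      have h1 := count_dn T hinv M i (fun _ _ => 1)
      rw [← hM] at h1
      have h2 : ∑ w ∈ K N, rho i (Bu w).card (Fl w).card ≤ ((K M).card : ℝ) := by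
        have h3 : ∑ w ∈ K N, rho i (Bu w).card (Fl w).card =
            ∑ w ∈ K N, (1 : ℝ) * (rho i (Bu w).card (Fl w).card * 1) := by simp
        rw [h3, h1]
        calc ∑ w ∈ K M, (if i ≤ (Fl w).card then (1 : ℝ) * 1 else 0) ≤
            ∑ w ∈ K M, (1 : ℝ) := by
              refine Finset.sum_le_sum fun w _ => ?_
              split_ifs <;> norm_num
          _ = _ := by simp
      have h3 : (((K N).filter (fun w => z * (Fl w).card - (Bu w).card ≤ -t)).card : ℝ) *
          Real.exp (t ^ 2 / (192 * B)) ≤ z⁻¹ ^ i * ((K M).card : ℝ) := by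
        refine le_trans ?_ (mul_le_mul_of_nonneg_left h2 (by positivity))
        rw [Finset.mul_sum]
        calc (((K N).filter (fun w => z * (Fl w).card - (Bu w).card ≤ -t)).card : ℝ) *
            Real.exp (t ^ 2 / (192 * B)) =
            ∑ w ∈ (K N).filter (fun w => z * (Fl w).card - (Bu w).card ≤ -t),
              Real.exp (t ^ 2 / (192 * B)) := by rw [Finset.sum_const, nsmul_eq_mul]
          _ ≤ ∑ w ∈ (K N).filter (fun w => z * (Fl w).card - (Bu w).card ≤ -t),
              z⁻¹ ^ i * rho i (Bu w).card (Fl w).card := by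
                refine Finset.sum_le_sum fun w hw => ?_
                rw [mem_filter] at hw
                obtain ⟨g1, g2, _⟩ := hfb w hw.1
                exact rho_big' hz0 hz1 hB g1 g2 ht hw.2 hi1 hi2
          _ ≤ _ := Finset.sum_le_sum_of_subset_of_nonneg (Finset.filter_subset _ _)
              (fun w _ _ => mul_nonneg (by positivity) (rho_nonneg _ _ _))
      have h4 := hΛ M (by omega)
      have h5 : z ^ N * (z⁻¹ ^ i * ((K M).card : ℝ)) = z ^ M * ((K M).card : ℝ) := by
        have h9 : z ^ i ≠ 0 := (pow_pos hz0 i).ne'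
        rw [hM, pow_add, inv_pow]
        field_simp
      rw [← h5] at h4
      have h6 : z⁻¹ ^ i * ((K M).card : ℝ) ≤ Λ * ((K N).card : ℝ) := by
        have : z ^ N * (z⁻¹ ^ i * ((K M).card : ℝ)) ≤ z ^ N * (Λ * ((K N).card : ℝ)) := by
          linarith
        exact le_of_mul_le_mul_left this hzN
      rw [hEi]
      have h7 := h3.trans h6
      rw [← le_div_iff₀ hE] at h7
      refine h7.trans (le_of_eq ?_)
      ring
    · rw [Finset.not_nonempty_iff_eq_empty] at hne
      rw [hne]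
      have h4 := hΛ N (by omega)
      have h5 : 0 ≤ Λ * ((K N).card : ℝ) := by
        have h6 : 0 ≤ z ^ N * ((K N).card : ℝ) := by positivity
        have h7 : 0 ≤ z ^ N * (Λ * ((K N).card : ℝ)) := by linarith
        exact nonneg_of_mul_nonneg_right h7 hzN
      have h8 : 0 < Real.exp (-(t ^ 2 / (192 * B))) := Real.exp_pos _
      simp only [Finset.card_empty, Nat.cast_zero]
      nlinarith
  have hsub : (K N).filter (fun w => t ≤ |z * (Fl w).card - (Bu w).card|) ⊆
      (K N).filter (fun w => t ≤ z * (Fl w).card - (Bu w).card) ∪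
      (K N).filter (fun w => z * (Fl w).card - (Bu w).card ≤ -t) := by
    intro w hw
    rw [mem_filter] at hw
    rw [mem_union, mem_filter, mem_filter]
    rcases le_abs.1 hw.2 with h | h
    · exact Or.inl ⟨hw.1, h⟩
    · exact Or.inr ⟨hw.1, by linarith⟩
  have h1 : (((K N).filter (fun w => t ≤ |z * (Fl w).card - (Bu w).card|)).card : ℝ) ≤
      (((K N).filter (fun w => t ≤ z * (Fl w).card - (Bu w).card)).card : ℝ) +
      (((K N).filter (fun w => z * (Fl w).card - (Bu w).card ≤ -t)).card : ℝ) := by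
    have := (Finset.card_le_card hsub).trans (Finset.card_union_le _ _)
    exact_mod_cast this
  linarith

end

end Pool.Agent.T6.H92.TG
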